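import Pool.Agent.Lib_MP_f1a94e_q.Defs

set_option autoImplicit false

namespace Pool.Agent.OmQ

open Finset LibLS

/-- the Chinese remainder theorem for sums, two moduli -/
theorem sum_crt_two (m M : ℕ) (hm : 0 < m) (hM : 0 < M) (hco : m.Coprime M) (f g : ℕ → ℝ)
    (hf : Function.Periodic f m) (hg : Function.Periodic g M) :
    ∑ y ∈ range (m * M), f y * g y = (∑ y ∈ range m, f y) * ∑ y ∈ range M, g y := by
  rw [Finset.sum_mul_sum, ← Finset.sum_product']
  refine Finset.sum_bij (fun y _ => (y % m, y % M)) ?_ ?_ ?_ ?_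
  · intro y _
    rw [mem_product, mem_range, mem_range]
    exact ⟨Nat.mod_lt _ hm, Nat.mod_lt _ hM⟩
  · intro y hy y' hy' h
    rw [mem_range] at hy hy'
    have h1 : y % m = y' % m := (Prod.ext_iff.mp h).1
    have h2 : y % M = y' % M := (Prod.ext_iff.mp h).2
    have h3 : y ≡ y' [MOD m * M] := (Nat.modEq_and_modEq_iff_modEq_mul hco).mp ⟨h1, h2⟩
    exact Nat.ModEq.eq_of_lt_of_lt h3 hy hy'
  · intro z hz
    rw [mem_product, mem_range, mem_range] at hz
    obtain ⟨k, hk1, hk2⟩ := Nat.chineseRemainder hco z.1 z.2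
    refine ⟨k % (m * M), ?_, ?_⟩
    · rw [mem_range]
      exact Nat.mod_lt _ (Nat.mul_pos hm hM)
    · have h1 : k % (m * M) % m = z.1 := by
        rw [Nat.mod_mul_right_mod]
        rw [show k % m = z.1 % m from hk1, Nat.mod_eq_of_lt hz.1]
      have h2 : k % (m * M) % M = z.2 := by
        rw [Nat.mod_mul_left_mod]
        rw [show k % M = z.2 % M from hk2, Nat.mod_eq_of_lt hz.2]
      exact Prod.ext h1 h2
  · intro y _
    simp only
    rw [hf.map_mod_nat, hg.map_mod_nat]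

/-- the Chinese remainder theorem for sums of products -/
theorem sum_crt_prod (φ : ℕ → ℕ → ℝ) (P : Finset ℕ) (hP : ∀ p ∈ P, 0 < p)
    (hco : ∀ p ∈ P, ∀ p' ∈ P, p ≠ p' → p.Coprime p')
    (hper : ∀ p ∈ P, Function.Periodic (φ p) p) :
    ∑ y ∈ range (∏ p ∈ P, p), ∏ p ∈ P, φ p y = ∏ p ∈ P, ∑ y ∈ range p, φ p y := by
  classical
  induction P using Finset.induction_on with
  | empty => simp
  | insert a s ha ih =>
    rw [prod_insert ha, prod_insert ha]
    have hpos : 0 < ∏ p ∈ s, p := Finset.prod_pos fun p hp => hP p (mem_insert_of_mem hp)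
    have hcop : a.Coprime (∏ p ∈ s, p) := by
      apply Nat.Coprime.prod_right
      intro p hp
      exact hco a (mem_insert_self _ _) p (mem_insert_of_mem hp) (fun h => ha (h ▸ hp))
    rw [← ih (fun p hp => hP p (mem_insert_of_mem hp))
      (fun p hp p' hp' => hco p (mem_insert_of_mem hp) p' (mem_insert_of_mem hp'))
      (fun p hp => hper p (mem_insert_of_mem hp))]
    rw [← sum_crt_two a (∏ p ∈ s, p) (hP a (mem_insert_self _ _)) hpos hcop (φ a)
      (fun y => ∏ p ∈ s, φ p y) (hper a (mem_insert_self _ _))]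
    · apply sum_congr rfl
      intro y _
      rw [prod_insert ha]
    · intro y
      apply prod_congr rfl
      intro p hp
      obtain ⟨c, hc⟩ := Finset.dvd_prod_of_mem (fun p : ℕ => p) hp
      have h1 := (hper p (mem_insert_of_mem hp)).nat_mul c y
      rw [hc]
      rw [mul_comm p c]
      exact_mod_cast h1

/-- convexity bound for the exponential on a symmetric interval -/
theorem exp_le_chord (B t x : ℝ) (hB : 0 < B) (hx : |x| ≤ B) :
    Real.exp (t * x) ≤ Real.cosh (t * B) + x / B * Real.sinh (t * B) := by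
  have hx' := abs_le.mp hx
  have h1 : x / B ≤ 1 := (div_le_one hB).mpr hx'.2
  have h2 : -1 ≤ x / B := by
    rw [le_div_iff₀ hB]
    linarith [hx'.1]
  have hc := convexOn_exp.2 (Set.mem_univ (t * B)) (Set.mem_univ (-(t * B)))
    (show 0 ≤ (1 + x / B) / 2 by linarith) (show 0 ≤ (1 - x / B) / 2 by linarith) (by ring)
  simp only [smul_eq_mul] at hc
  have h3 : (1 + x / B) / 2 * (t * B) + (1 - x / B) / 2 * -(t * B) = t * x := by
    field_simp
    ring
  rw [h3] at hc
  refine hc.trans (le_of_eq ?_)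
  rw [Real.cosh_eq, Real.sinh_eq]
  ring

/-- Hoeffding's lemma for a uniform variable -/
theorem hoeff_one (p : ℕ) (G : ℕ → ℝ) (B t : ℝ) (hB : ∀ y, |G y| ≤ B)
    (hs : ∑ y ∈ range p, G y = 0) :
    ∑ y ∈ range p, Real.exp (t * G y) ≤ (p : ℝ) * Real.exp (t ^ 2 * B ^ 2 / 2) := by
  have hB0 : 0 ≤ B := (abs_nonneg _).trans (hB 0)
  rcases hB0.eq_or_lt with h0 | h0
  · have hG : ∀ y, G y = 0 := by
      intro y
      have := hB y
      rw [← h0] at this
      exact abs_nonpos_iff.mp this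
    simp [hG, ← h0]
  · calc ∑ y ∈ range p, Real.exp (t * G y)
        ≤ ∑ y ∈ range p, (Real.cosh (t * B) + G y / B * Real.sinh (t * B)) :=
          sum_le_sum fun y _ => exp_le_chord B t (G y) h0 (hB y)
      _ = (p : ℝ) * Real.cosh (t * B) := by
        rw [sum_add_distrib, ← sum_mul, ← sum_div, hs]
        simp
      _ ≤ (p : ℝ) * Real.exp (t ^ 2 * B ^ 2 / 2) := by
        apply mul_le_mul_of_nonneg_left _ (Nat.cast_nonneg p)
        have := Real.cosh_le_exp_half_sq (t * B)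
        rwa [mul_pow] at this

/-- CRTH -/
theorem crt_hoeff (P : Finset ℕ) (hP : ∀ p ∈ P, 0 < p)
    (hco : ∀ p ∈ P, ∀ p' ∈ P, p ≠ p' → p.Coprime p') (G : ℕ → ℕ → ℝ)
    (hper : ∀ p ∈ P, ∀ y, G p (y + p) = G p y) (B t : ℝ) (hB : ∀ p ∈ P, ∀ y, |G p y| ≤ B)
    (hs : ∀ p ∈ P, ∑ y ∈ range p, G p y = 0) :
    ∑ y ∈ range (∏ p ∈ P, p), Real.exp (t * ∑ p ∈ P, G p y) ≤
      ((∏ p ∈ P, p : ℕ) : ℝ) * Real.exp (t ^ 2 * B ^ 2 / 2 * P.card) := by
  have h1 : ∀ y, Real.exp (t * ∑ p ∈ P, G p y) = ∏ p ∈ P, Real.exp (t * G p y) := by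
    intro y
    rw [mul_sum, Real.exp_sum]
  have h2 : ∑ y ∈ range (∏ p ∈ P, p), Real.exp (t * ∑ p ∈ P, G p y) =
      ∏ p ∈ P, ∑ y ∈ range p, Real.exp (t * G p y) := by
    rw [← sum_crt_prod (fun p y => Real.exp (t * G p y)) P hP hco]
    · exact sum_congr rfl fun y _ => h1 y
    · intro p hp y
      simp only
      rw [hper p hp y]
  rw [h2]
  calc ∏ p ∈ P, ∑ y ∈ range p, Real.exp (t * G p y)
      ≤ ∏ p ∈ P, ((p : ℝ) * Real.exp (t ^ 2 * B ^ 2 / 2)) := by
        apply Finset.prod_le_prod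
        · intro p _
          exact sum_nonneg fun y _ => (Real.exp_pos _).le
        · intro p hp
          exact hoeff_one p (G p) B t (hB p hp) (hs p hp)
    _ = ((∏ p ∈ P, p : ℕ) : ℝ) * Real.exp (t ^ 2 * B ^ 2 / 2 * P.card) := by
        rw [prod_mul_distrib, prod_const, Nat.cast_prod, mul_comm (t ^ 2 * B ^ 2 / 2) (P.card : ℝ),
          Real.exp_nat_mul]

end Pool.Agent.OmQ
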