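import Pool.Agent.Lib_MP_f1a94e_q.Defs

set_option autoImplicit false

namespace Pool.Agent.OmQ

open Finset LibLS

open Classical in
/-- size of the fibre of `Z` through `i` -/
noncomputable def cnt {Ω β : Type} [Fintype Ω] (Z : Ω → β) (i : Ω) : ℝ :=
  ((univ.filter (fun j => Z j = Z i)).card : ℝ)

theorem ent_eq {Ω β : Type} [Fintype Ω] (Z : Ω → β) :
    ent Z = Real.log (Fintype.card Ω) - (∑ i, Real.log (cnt Z i)) / Fintype.card Ω := rfl

theorem cnt_pos {Ω β : Type} [Fintype Ω] (Z : Ω → β) (i : Ω) : 0 < cnt Z i := by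
  classical
  unfold cnt
  have : 0 < (univ.filter (fun j => Z j = Z i)).card := card_pos.mpr ⟨i, by simp⟩
  exact_mod_cast this

theorem cnt_eq_card {Ω β : Type} [Fintype Ω] (Z : Ω → β) (i : Ω) (F : Finset Ω)
    (h : ∀ k, k ∈ F ↔ Z k = Z i) : cnt Z i = (F.card : ℝ) := by
  classical
  unfold cnt
  congr 2
  ext k
  rw [mem_filter, h]
  simp

theorem cnt_congr {Ω A B : Type} [Fintype Ω] (U : Ω → A) (V : Ω → B)
    (h : ∀ i j, U i = U j ↔ V i = V j) (i : Ω) : cnt U i = cnt V i := by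
  classical
  rw [cnt_eq_card V i (univ.filter (fun j => V j = V i)) (fun k => by simp)]
  exact cnt_eq_card U i _ (fun k => by simp [h])

theorem ent_congr {Ω A B : Type} [Fintype Ω] (U : Ω → A) (V : Ω → B)
    (h : ∀ i j, U i = U j ↔ V i = V j) : ent U = ent V := by
  rw [ent_eq, ent_eq]
  congr 2
  exact sum_congr rfl fun i _ => by rw [cnt_congr U V h i]

/-- The combinatorial core of the Gibbs inequality. -/
theorem gibbs_sum {Ω A B : Type} [Fintype Ω] (U : Ω → A) (Y : Ω → B) (T : Finset B)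
    (hT : ∀ i, Y i ∈ T) (ψ : A → B → ℝ) (hψ : ∀ a b, 0 ≤ ψ a b)
    (hpos : ∀ i, 0 < ∑ b ∈ T, ψ (U i) b) :
    ∑ i, cnt U i * ψ (U i) (Y i) / ((∑ b ∈ T, ψ (U i) b) * cnt (fun i => (U i, Y i)) i) ≤
      Fintype.card Ω := by
  classical
  have h1 : ∀ i, cnt U i * ψ (U i) (Y i) / ((∑ b ∈ T, ψ (U i) b) * cnt (fun i => (U i, Y i)) i) =
      ∑ j, if U j = U i then
        ψ (U j) (Y i) / ((∑ b ∈ T, ψ (U j) b) * cnt (fun i => (U i, Y i)) i) else 0 := by
    intro i
    rw [← sum_filter]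
    have h2 : ∀ j ∈ univ.filter (fun j => U j = U i),
        ψ (U j) (Y i) / ((∑ b ∈ T, ψ (U j) b) * cnt (fun i => (U i, Y i)) i) =
        ψ (U i) (Y i) / ((∑ b ∈ T, ψ (U i) b) * cnt (fun i => (U i, Y i)) i) := by
      intro j hj
      rw [(mem_filter.mp hj).2]
    rw [sum_congr rfl h2, sum_const, nsmul_eq_mul]
    have h3 : cnt U i = ((univ.filter (fun j => U j = U i)).card : ℝ) :=
      cnt_eq_card U i _ (fun k => by simp)
    rw [h3]
    ring
  rw [sum_congr rfl fun i _ => h1 i, sum_comm]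
  have h4 : ∀ j, (∑ i, if U j = U i then
      ψ (U j) (Y i) / ((∑ b ∈ T, ψ (U j) b) * cnt (fun i => (U i, Y i)) i) else 0) ≤ 1 := by
    intro j
    rw [← sum_filter]
    rw [← sum_fiberwise_of_maps_to (s := univ.filter (fun i => U j = U i)) (t := T) (g := Y)
      (fun i _ => hT i)]
    have h5 : ∀ b ∈ T, ∑ i ∈ (univ.filter (fun i => U j = U i)).filter (fun i => Y i = b),
        ψ (U j) (Y i) / ((∑ b ∈ T, ψ (U j) b) * cnt (fun i => (U i, Y i)) i) ≤
        ψ (U j) b / (∑ b ∈ T, ψ (U j) b) := by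
      intro b _
      set F := (univ.filter (fun i => U j = U i)).filter (fun i => Y i = b) with hF
      have h6 : ∀ i ∈ F, ψ (U j) (Y i) / ((∑ b ∈ T, ψ (U j) b) * cnt (fun i => (U i, Y i)) i) =
          ψ (U j) b / ((∑ b ∈ T, ψ (U j) b) * (F.card : ℝ)) := by
        intro i hi
        rw [hF, mem_filter, mem_filter] at hi
        have h7 : cnt (fun i => (U i, Y i)) i = (F.card : ℝ) := by
          apply cnt_eq_card
          intro k
          rw [hF, mem_filter, mem_filter, Prod.mk.injEq, ← hi.1.2, hi.2]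
          constructor
          · rintro ⟨⟨_, a⟩, b⟩
            exact ⟨a.symm, b⟩
          · rintro ⟨a, b⟩
            exact ⟨⟨mem_univ _, a.symm⟩, b⟩
        rw [h7, hi.2]
      rw [sum_congr rfl h6, sum_const, nsmul_eq_mul]
      rcases Nat.eq_zero_or_pos F.card with h0 | h0
      · rw [h0]
        simp only [Nat.cast_zero, zero_mul]
        exact div_nonneg (hψ _ _) (hpos j).le
      · have h8 : (0 : ℝ) < F.card := by exact_mod_cast h0
        have h9 := hpos j
        rw [le_div_iff₀ h9]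
        apply le_of_eq
        field_simp
    refine (sum_le_sum h5).trans ?_
    rw [← sum_div, div_self (hpos j).ne']
  refine (sum_le_sum fun j _ => h4 j).trans ?_
  simp

/-- The Gibbs inequality, general form. -/
theorem gibbs_gen {Ω A B : Type} [Fintype Ω] (U : Ω → A) (Y : Ω → B) (T : Finset B)
    (hT : ∀ i, Y i ∈ T) (ψ : A → B → ℝ) (hψ : ∀ a b, 0 ≤ ψ a b)
    (hψpos : ∀ i, 0 < ψ (U i) (Y i)) :
    ∑ i, Real.log (ψ (U i) (Y i)) ≤ ∑ i, Real.log (cnt (fun i => (U i, Y i)) i) -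
      ∑ i, Real.log (cnt U i) + ∑ i, Real.log (∑ b ∈ T, ψ (U i) b) := by
  have hpos : ∀ i, 0 < ∑ b ∈ T, ψ (U i) b := fun i =>
    lt_of_lt_of_le (hψpos i) (single_le_sum (f := fun b => ψ (U i) b) (fun b _ => hψ _ b) (hT i))
  have h1 := gibbs_sum U Y T hT ψ hψ hpos
  have h2 : ∀ i, Real.log (ψ (U i) (Y i)) - Real.log (cnt (fun i => (U i, Y i)) i) +
      Real.log (cnt U i) - Real.log (∑ b ∈ T, ψ (U i) b) ≤
      cnt U i * ψ (U i) (Y i) / ((∑ b ∈ T, ψ (U i) b) * cnt (fun i => (U i, Y i)) i) - 1 := by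
    intro i
    have a1 := cnt_pos U i
    have a2 := cnt_pos (fun i => (U i, Y i)) i
    have a3 := hpos i
    have a4 := hψpos i
    have h3 := Real.log_le_sub_one_of_pos (x := cnt U i * ψ (U i) (Y i) /
      ((∑ b ∈ T, ψ (U i) b) * cnt (fun i => (U i, Y i)) i)) (by positivity)
    rw [Real.log_div (by positivity) (by positivity), Real.log_mul a1.ne' a4.ne',
      Real.log_mul a3.ne' a2.ne'] at h3
    linarith
  have h4 := sum_le_sum fun i (_ : i ∈ (univ : Finset Ω)) => h2 i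
  rw [sum_sub_distrib, sum_add_distrib, sum_sub_distrib, sum_sub_distrib] at h4
  have h5 : ∑ _i : Ω, (1 : ℝ) = Fintype.card Ω := by simp
  rw [h5] at h4
  linarith

/-- GIBBS -/
theorem ent_gibbs {Ω A B : Type} [Fintype Ω] [Nonempty Ω] (U : Ω → A) (Y : Ω → B) (T : Finset B)
    (hT : ∀ i, Y i ∈ T) (Φ : A → B → ℝ) :
    (∑ i, Φ (U i) (Y i)) / Fintype.card Ω ≤ ent U - ent (fun i => (U i, Y i)) +
      (∑ i, Real.log (∑ b ∈ T, Real.exp (Φ (U i) b))) / Fintype.card Ω := by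
  have hc : (0 : ℝ) < Fintype.card Ω := by exact_mod_cast Fintype.card_pos
  have h := gibbs_gen U Y T hT (fun a b => Real.exp (Φ a b)) (fun _ _ => (Real.exp_pos _).le)
    (fun _ => Real.exp_pos _)
  simp only [Real.log_exp] at h
  rw [ent_eq, ent_eq]
  have h2 : Real.log (Fintype.card Ω) - (∑ i, Real.log (cnt U i)) / Fintype.card Ω -
      (Real.log (Fintype.card Ω) - (∑ i, Real.log (cnt (fun i => (U i, Y i)) i)) / Fintype.card Ω) +
      (∑ i, Real.log (∑ b ∈ T, Real.exp (Φ (U i) b))) / Fintype.card Ω =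
      (∑ i, Real.log (cnt (fun i => (U i, Y i)) i) - ∑ i, Real.log (cnt U i) +
        ∑ i, Real.log (∑ b ∈ T, Real.exp (Φ (U i) b))) / Fintype.card Ω := by
    ring
  rw [h2]
  exact div_le_div_of_nonneg_right h hc.le

end Pool.Agent.OmQ
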