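import Pool.Agent.Lib_MP_f1a94e_q.Defs
import Pool.Agent.Lib_MP_f1a94e_q.Gibbs

set_option autoImplicit false

namespace Pool.Agent.OmQ

open Finset LibLS

theorem ent_shift {N : ℕ} [NeZero N] {B : Type} (Z : ZMod N → B) (s : ZMod N) :
    ent (fun i => Z (i + s)) = ent Z := by
  classical
  rw [ent_eq, ent_eq]
  congr 2
  have h : ∀ i, cnt (fun i => Z (i + s)) i = cnt Z (i + s) := by
    intro i
    rw [cnt_eq_card (fun i => Z (i + s)) i (univ.filter (fun j => Z (j + s) = Z (i + s)))
      (fun k => by simp), cnt_eq_card Z (i + s) (univ.filter (fun j => Z j = Z (i + s)))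
      (fun k => by simp)]
    congr 1
    apply card_bij (fun j _ => j + s)
    · intro j hj
      rw [mem_filter] at hj ⊢
      exact ⟨mem_univ _, hj.2⟩
    · intro a _ b _ hab
      exact add_right_cancel hab
    · intro b hb
      rw [mem_filter] at hb
      refine ⟨b - s, ?_, sub_add_cancel b s⟩
      rw [mem_filter, sub_add_cancel]
      exact ⟨mem_univ _, hb.2⟩
  simp only [h]
  exact Equiv.sum_comp (Equiv.addRight s) (fun i => Real.log (cnt Z i))

theorem card_fibre_mod {N : ℕ} [NeZero N] (m k : ℕ) (hN : N = m * k) (r : ℕ) (hr : r < m) :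
    (univ.filter (fun j : ZMod N => j.val % m = r)).card = k := by
  have hm : 0 < m := by omega
  rw [← card_range k]
  symm
  apply card_bij (fun t _ => ((r + m * t : ℕ) : ZMod N))
  · intro t ht
    rw [mem_range] at ht
    rw [mem_filter]
    refine ⟨mem_univ _, ?_⟩
    have h1 : r + m * t < N := by
      rw [hN]
      calc r + m * t < m + m * t := by omega
        _ = m * (t + 1) := by ring
        _ ≤ m * k := Nat.mul_le_mul_left m ht
    rw [ZMod.val_cast_of_lt h1, Nat.add_mul_mod_self_left, Nat.mod_eq_of_lt hr]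
  · intro t ht t' ht' h
    rw [mem_range] at ht ht'
    have h1 : ∀ t < k, r + m * t < N := by
      intro t ht
      rw [hN]
      calc r + m * t < m + m * t := by omega
        _ = m * (t + 1) := by ring
        _ ≤ m * k := Nat.mul_le_mul_left m ht
    have h2 := congrArg ZMod.val h
    change (((r + m * t : ℕ) : ZMod N)).val = (((r + m * t' : ℕ) : ZMod N)).val at h2
    rw [ZMod.val_cast_of_lt (h1 t ht), ZMod.val_cast_of_lt (h1 t' ht')] at h2
    have h3 : m * t = m * t' := by omega
    exact Nat.eq_of_mul_eq_mul_left hm h3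
  · intro b hb
    rw [mem_filter] at hb
    have hb1 : b.val < m * k := by
      have h := ZMod.val_lt b
      omega
    refine ⟨b.val / m, ?_, ?_⟩
    · rw [mem_range]
      exact Nat.div_lt_of_lt_mul hb1
    · have h4 : r + m * (b.val / m) = b.val := by
        rw [← hb.2]
        exact Nat.mod_add_div _ _
      rw [h4]
      exact ZMod.natCast_zmod_val b

/-- EMOD -/
theorem ent_mod {N : ℕ} [NeZero N] (m : ℕ) (hm : m ∣ N) :
    ent (fun i : ZMod N => i.val % m) = Real.log m := by
  classical
  obtain ⟨k, hk⟩ := hm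
  have hN0 : N ≠ 0 := NeZero.ne N
  have hm0 : 0 < m := by
    rcases Nat.eq_zero_or_pos m with h | h
    · rw [h, zero_mul] at hk
      exact absurd hk hN0
    · exact h
  have hk0 : 0 < k := by
    rcases Nat.eq_zero_or_pos k with h | h
    · rw [h, mul_zero] at hk
      exact absurd hk hN0
    · exact h
  have h1 : ∀ i : ZMod N, cnt (fun i : ZMod N => i.val % m) i = k := by
    intro i
    rw [cnt_eq_card (fun i : ZMod N => i.val % m) i
      (univ.filter (fun j : ZMod N => j.val % m = i.val % m)) (fun k => by simp)]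
    rw [card_fibre_mod m k hk _ (Nat.mod_lt _ hm0)]
  rw [ent_eq]
  simp only [h1, sum_const, card_univ, ZMod.card, nsmul_eq_mul]
  have hNr : (0 : ℝ) < N := by exact_mod_cast Nat.pos_of_ne_zero hN0
  rw [mul_div_assoc, mul_comm, div_mul_cancel₀ _ hNr.ne']
  have hmr : (0 : ℝ) < m := by exact_mod_cast hm0
  have hkr : (0 : ℝ) < k := by exact_mod_cast hk0
  have h2 : (N : ℝ) = m * k := by exact_mod_cast hk
  rw [h2, Real.log_mul hmr.ne' hkr.ne']
  ring

end Pool.Agent.OmQ
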