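import Pool.Agent.Lib_MP_f1a94e_q.Defs
import Pool.Agent.Lib_MP_f1a94e_q.Gibbs
import Pool.Agent.Lib_MP_f1a94e_q.EMod
import Pool.Agent.Lib_MP_f1a94e_q.CrtH

set_option autoImplicit false

namespace Pool.Agent.OmQ

open Finset LibLS

lemma dec_abs_per {f : ℕ → ℝ} {p : ℕ} (h : ∀ y, f (y + p) = f y) (y k : ℕ) :
    f (y + p * k) = f y := by
  induction k with
  | zero => simp
  | succ k ih => rw [Nat.mul_succ, ← add_assoc, h, ih]

lemma dec_abs_mod {f : ℕ → ℝ} {p M : ℕ} (h : ∀ y, f (y + p) = f y) (hpM : p ∣ M) (y : ℕ) :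
    f (y % M) = f y := by
  obtain ⟨c, rfl⟩ := hpM
  have h1 : y = y % (p * c) + p * (c * (y / (p * c))) := by
    have := Nat.mod_add_div y (p * c)
    rw [← mul_assoc]
    exact this.symm
  conv_rhs => rw [h1]
  rw [dec_abs_per h]

/-- DECABS -/
theorem dec_abs {N : ℕ} [NeZero N] {α : Type} (X : ZMod N → α) (H Q : ℕ) (P : Finset ℕ)
    (hP : ∀ p ∈ P, 0 < p) (hco : ∀ p ∈ P, ∀ p' ∈ P, p ≠ p' → p.Coprime p')
    (hcoQ : ∀ p ∈ P, p.Coprime Q) (hN : Q * ∏ p ∈ P, p ∣ N)
    (G : ℕ → (Fin H → α) → ℕ → ℕ → ℝ)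
    (hper : ∀ p ∈ P, ∀ x v y, G p x v (y + p) = G p x v y) (B t : ℝ) (ht : 0 < t)
    (hB : ∀ p ∈ P, ∀ x v y, |G p x v y| ≤ B)
    (hs : ∀ p ∈ P, ∀ x v, ∑ y ∈ range p, G p x v y = 0) :
    Av (fun i : ZMod N => ∑ p ∈ P, G p (block X H i) (i.val % Q) i.val) ≤
      (hb X H Q - hb X H (Q * ∏ p ∈ P, p)) / t + t * B ^ 2 / 2 * P.card := by
  classical
  set M : ℕ := ∏ p ∈ P, p with hM
  have hMpos : 0 < M := Finset.prod_pos hP
  have hQM : Q * M ≠ 0 := fun h => by
    rw [h, zero_dvd_iff] at hN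
    exact NeZero.ne N hN
  have hQpos : 0 < Q := Nat.pos_of_ne_zero (left_ne_zero_of_mul hQM)
  have hcop : Q.Coprime M := by
    rw [hM]
    exact Nat.Coprime.prod_right (fun p hp => (hcoQ p hp).symm)
  have hg := ent_gibbs (Ω := ZMod N) (fun i => (block X H i, i.val % Q)) (fun i => i.val % M)
    (range M) (fun i => mem_range.2 (Nat.mod_lt _ hMpos))
    (fun u y => t * ∑ p ∈ P, G p u.1 u.2 y)
  have hcard : (Fintype.card (ZMod N) : ℝ) = N := by rw [ZMod.card]
  have hNpos := @Npos N _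
  -- the left side
  have hL : (∑ i : ZMod N, t * ∑ p ∈ P, G p (block X H i) (i.val % Q) (i.val % M)) /
      (Fintype.card (ZMod N) : ℝ) =
      t * Av (fun i : ZMod N => ∑ p ∈ P, G p (block X H i) (i.val % Q) i.val) := by
    rw [hcard, ← Av_const_mul]
    unfold Av
    congr 1
    apply Finset.sum_congr rfl
    intro i _
    congr 1
    apply Finset.sum_congr rfl
    intro p hp
    exact dec_abs_mod (f := fun y => G p (block X H i) (i.val % Q) y)
      (fun y => hper p hp _ _ y) (hM ▸ Finset.dvd_prod_of_mem _ hp) i.val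
  -- the partition function
  have hZ : (∑ i : ZMod N, Real.log (∑ b ∈ range M,
      Real.exp (t * ∑ p ∈ P, G p (block X H i) (i.val % Q) b))) / (Fintype.card (ZMod N) : ℝ) ≤
      Real.log M + t ^ 2 * B ^ 2 / 2 * P.card := by
    rw [hcard, div_le_iff₀ hNpos]
    have h1 : ∀ i : ZMod N, Real.log (∑ b ∈ range M,
        Real.exp (t * ∑ p ∈ P, G p (block X H i) (i.val % Q) b)) ≤
        Real.log M + t ^ 2 * B ^ 2 / 2 * P.card := by
      intro i
      have h2 := crt_hoeff P hP hco (fun p y => G p (block X H i) (i.val % Q) y)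
        (fun p hp y => hper p hp _ _ y) B t (fun p hp y => hB p hp _ _ y)
        (fun p hp => hs p hp _ _)
      have h3 : 0 < ∑ b ∈ range M,
          Real.exp (t * ∑ p ∈ P, G p (block X H i) (i.val % Q) b) :=
        Finset.sum_pos (fun _ _ => Real.exp_pos _) ⟨0, mem_range.2 hMpos⟩
      have h4 := Real.log_le_log h3 h2
      have h5 : ((M : ℕ) : ℝ) ≠ 0 := by exact_mod_cast hMpos.ne'
      rw [← hM, Real.log_mul h5 (Real.exp_ne_zero _), Real.log_exp] at h4
      exact h4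
    calc ∑ i : ZMod N, Real.log (∑ b ∈ range M,
          Real.exp (t * ∑ p ∈ P, G p (block X H i) (i.val % Q) b))
        ≤ ∑ _i : ZMod N, (Real.log M + t ^ 2 * B ^ 2 / 2 * P.card) :=
          Finset.sum_le_sum (fun i _ => h1 i)
      _ = (Real.log M + t ^ 2 * B ^ 2 / 2 * P.card) * N := by
          rw [Finset.sum_const, Finset.card_univ, ZMod.card, nsmul_eq_mul, mul_comm]
  -- the entropies
  have hE : ent (fun i : ZMod N => ((block X H i, i.val % Q), i.val % M)) =
      ent (fun i : ZMod N => (block X H i, i.val % (Q * M))) := by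
    apply ent_congr
    intro i j
    simp only [Prod.mk.injEq]
    have h6 : (i.val % Q = j.val % Q ∧ i.val % M = j.val % M) ↔
        i.val % (Q * M) = j.val % (Q * M) :=
      Nat.modEq_and_modEq_iff_modEq_mul hcop
    rw [and_assoc, h6]
  have hQ1 : ent (fun i : ZMod N => i.val % Q) = Real.log Q :=
    ent_mod Q ((Dvd.intro M rfl).trans hN)
  have hQ2 : ent (fun i : ZMod N => i.val % (Q * M)) = Real.log ((Q * M : ℕ) : ℝ) :=
    ent_mod (Q * M) hN
  have hlog : Real.log ((Q * M : ℕ) : ℝ) = Real.log Q + Real.log M := by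
    rw [Nat.cast_mul, Real.log_mul (by exact_mod_cast hQpos.ne') (by exact_mod_cast hMpos.ne')]
  have hmain : t * Av (fun i : ZMod N => ∑ p ∈ P, G p (block X H i) (i.val % Q) i.val) ≤
      (hb X H Q - hb X H (Q * M)) + t ^ 2 * B ^ 2 / 2 * P.card := by
    have h7 : hb X H Q = ent (fun i : ZMod N => (block X H i, i.val % Q)) -
      ent (fun i : ZMod N => i.val % Q) := rfl
    have h8 : hb X H (Q * M) = ent (fun i : ZMod N => (block X H i, i.val % (Q * M))) -
      ent (fun i : ZMod N => i.val % (Q * M)) := rfl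
    rw [h7, h8, hQ1, hQ2, hlog, ← hE]
    rw [← hL]
    have h9 := hg
    simp only at h9
    linarith
  have h10 : Av (fun i : ZMod N => ∑ p ∈ P, G p (block X H i) (i.val % Q) i.val) ≤
      ((hb X H Q - hb X H (Q * M)) + t ^ 2 * B ^ 2 / 2 * P.card) / t := by
    rw [le_div_iff₀ ht, mul_comm]
    exact hmain
  refine h10.trans (le_of_eq ?_)
  field_simp

end Pool.Agent.OmQ
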