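import Pool.Agent.Lib_MP_f1a94e_q.Defs
import Pool.Agent.Lib_MP_f1a94e_q.DecAbs

set_option autoImplicit false

namespace Pool.Agent.OmQ

open Finset LibLS

namespace DecAux

/-- value of a block at a natural index -/
def bval {α : Type} {H : ℕ} (x₀ : α) (x : Fin H → α) (j : ℕ) : α :=
  if h : j < H then x ⟨j, h⟩ else x₀

/-- the functions to which the abstract decrement inequality is applied -/
noncomputable def GG {α : Type} {H : ℕ} (x₀ : α) (F F' : α → ℝ) (ρ : ℕ → ℕ) (n κ : ℕ) (p : ℕ)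
    (x : Fin H → α) (v y : ℕ) : ℝ :=
  κ / 2 ^ n * ∑ j ∈ range (2 ^ n), ind (∀ l ∈ κ.primeFactors, v + j ≡ ρ l [MOD l]) *
    F (bval x₀ x j) * F' (bval x₀ x (j + κ * p)) * (1 - p * ind (y + j ≡ ρ p [MOD p]))

/-- the translation invariant version -/
noncomputable def hh {N : ℕ} [NeZero N] {α : Type} (X : ZMod N → α) (F F' : α → ℝ) (ρ : ℕ → ℕ)
    (κ p : ℕ) (i : ZMod N) : ℝ :=
  κ * (ind (Dv ρ κ i) * F (X i) * F' (X (i + ((κ * p : ℕ) : ZMod N))) *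
    (1 - p * ind (Dv ρ p i)))

theorem sum_ind_one (p : ℕ) (hp : 0 < p) (y c : ℕ) :
    ∑ j ∈ range p, ind (y + j ≡ c [MOD p]) = 1 := by
  have hy : y % p < p := Nat.mod_lt _ hp
  set j₀ := (c + (p - y % p)) % p with hj0
  have h1 : y + j₀ ≡ c [MOD p] := by
    have h2 : y + j₀ ≡ y + (c + (p - y % p)) [MOD p] := (Nat.mod_modEq _ _).add_left y
    have h3 : y + (c + (p - y % p)) = c + p * (y / p + 1) := by
      have := Nat.div_add_mod y p
      rw [mul_add, mul_one]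
      omega
    rw [h3] at h2
    refine h2.trans ?_
    show (c + p * (y / p + 1)) % p = c % p
    exact Nat.add_mul_mod_self_left _ _ _
  rw [Finset.sum_eq_single j₀]
  · exact ind_of h1
  · intro j hj hne
    apply ind_not
    intro h
    apply hne
    have h4 : y + j ≡ y + j₀ [MOD p] := h.trans h1.symm
    have h5 : j ≡ j₀ [MOD p] := Nat.ModEq.add_left_cancel' y h4
    exact Nat.ModEq.eq_of_lt_of_lt h5 (mem_range.1 hj) (Nat.mod_lt _ hp)
  · intro h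
    exact absurd (mem_range.2 (Nat.mod_lt _ hp)) h

theorem sum_ind_le (p m : ℕ) (hp : 0 < p) (hm : m ≤ p) (y c : ℕ) :
    ∑ j ∈ range m, ind (y + j ≡ c [MOD p]) ≤ 1 := by
  rw [← sum_ind_one p hp y c]
  apply Finset.sum_le_sum_of_subset_of_nonneg
  · exact range_subset_range.2 hm
  · intro j _ _
    exact ind_nonneg _

theorem abs_GG_le {α : Type} {H : ℕ} (x₀ : α) (F F' : α → ℝ)
    (hF : ∀ a, 0 ≤ F a ∧ F a ≤ 1) (hF' : ∀ a, 0 ≤ F' a ∧ F' a ≤ 1) (ρ : ℕ → ℕ) (n κ K p : ℕ)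
    (hκK : κ ≤ K) (hp0 : 0 < p) (hp1 : 2 ^ n ≤ p) (hp2 : p < 2 ^ (n + 1)) (x : Fin H → α)
    (v y : ℕ) : |GG x₀ F F' ρ n κ p x v y| ≤ 3 * K := by
  unfold GG
  have h2 : (0 : ℝ) < 2 ^ n := by positivity
  have hsum : |∑ j ∈ range (2 ^ n), ind (∀ l ∈ κ.primeFactors, v + j ≡ ρ l [MOD l]) *
      F (bval x₀ x j) * F' (bval x₀ x (j + κ * p)) * (1 - p * ind (y + j ≡ ρ p [MOD p]))| ≤
      3 * 2 ^ n := by
    refine (Finset.abs_sum_le_sum_abs _ _).trans ?_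
    have h3 : ∀ j ∈ range (2 ^ n), |ind (∀ l ∈ κ.primeFactors, v + j ≡ ρ l [MOD l]) *
        F (bval x₀ x j) * F' (bval x₀ x (j + κ * p)) * (1 - p * ind (y + j ≡ ρ p [MOD p]))| ≤
        1 + p * ind (y + j ≡ ρ p [MOD p]) := by
      intro j _
      have a1 := ind_nonneg (∀ l ∈ κ.primeFactors, v + j ≡ ρ l [MOD l])
      have a2 := ind_le_one (∀ l ∈ κ.primeFactors, v + j ≡ ρ l [MOD l])
      have a3 := hF (bval x₀ x j)
      have a4 := hF' (bval x₀ x (j + κ * p))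
      have a5 := ind_nonneg (y + j ≡ ρ p [MOD p])
      rw [abs_mul, abs_mul, abs_mul, abs_of_nonneg a1, abs_of_nonneg a3.1, abs_of_nonneg a4.1]
      have a6 : |1 - (p : ℝ) * ind (y + j ≡ ρ p [MOD p])| ≤
          1 + p * ind (y + j ≡ ρ p [MOD p]) := by
        have : (0 : ℝ) ≤ p * ind (y + j ≡ ρ p [MOD p]) := by positivity
        rw [abs_le]
        constructor <;> linarith
      have a7 : ind (∀ l ∈ κ.primeFactors, v + j ≡ ρ l [MOD l]) * F (bval x₀ x j) *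
          F' (bval x₀ x (j + κ * p)) ≤ 1 := by
        have b1 : ind (∀ l ∈ κ.primeFactors, v + j ≡ ρ l [MOD l]) * F (bval x₀ x j) ≤ 1 :=
          mul_le_one₀ a2 a3.1 a3.2
        exact mul_le_one₀ b1 a4.1 a4.2
      calc _ ≤ 1 * |1 - (p : ℝ) * ind (y + j ≡ ρ p [MOD p])| :=
            mul_le_mul_of_nonneg_right a7 (abs_nonneg _)
        _ ≤ _ := by rw [one_mul]; exact a6
    refine (Finset.sum_le_sum h3).trans ?_
    rw [Finset.sum_add_distrib, ← Finset.mul_sum, Finset.sum_const, card_range, nsmul_eq_mul,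
      mul_one]
    have h4 := sum_ind_le p (2 ^ n) hp0 hp1 y (ρ p)
    have h5 : (p : ℝ) ≤ 2 * 2 ^ n := by
      have : (p : ℝ) ≤ ((2 ^ (n + 1) : ℕ) : ℝ) := by exact_mod_cast hp2.le
      refine this.trans (le_of_eq ?_)
      push_cast
      ring
    have h6 : (p : ℝ) * ∑ j ∈ range (2 ^ n), ind (y + j ≡ ρ p [MOD p]) ≤ p * 1 :=
      mul_le_mul_of_nonneg_left h4 (by positivity)
    push_cast
    linarith
  rw [abs_mul, abs_of_nonneg (by positivity : (0 : ℝ) ≤ κ / 2 ^ n)]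
  calc (κ : ℝ) / 2 ^ n * _ ≤ κ / 2 ^ n * (3 * 2 ^ n) :=
        mul_le_mul_of_nonneg_left hsum (by positivity)
    _ = 3 * κ := by field_simp
    _ ≤ 3 * K := by
        have : (κ : ℝ) ≤ K := by exact_mod_cast hκK
        linarith

theorem sum_GG {α : Type} {H : ℕ} (x₀ : α) (F F' : α → ℝ) (ρ : ℕ → ℕ) (n κ p : ℕ)
    (hp0 : 0 < p) (x : Fin H → α) (v : ℕ) :
    ∑ y ∈ range p, GG x₀ F F' ρ n κ p x v y = 0 := by
  unfold GG
  rw [← Finset.mul_sum, Finset.sum_comm]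
  have h : ∀ j ∈ range (2 ^ n), ∑ y ∈ range p,
      ind (∀ l ∈ κ.primeFactors, v + j ≡ ρ l [MOD l]) *
      F (bval x₀ x j) * F' (bval x₀ x (j + κ * p)) * (1 - p * ind (y + j ≡ ρ p [MOD p])) = 0 := by
    intro j _
    rw [← Finset.mul_sum, Finset.sum_sub_distrib, ← Finset.mul_sum]
    have h1 : ∑ y ∈ range p, ind (y + j ≡ ρ p [MOD p]) = 1 := by
      rw [← sum_ind_one p hp0 j (ρ p)]
      apply Finset.sum_congr rfl
      intro y _
      rw [add_comm]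
    rw [h1]
    simp
  rw [Finset.sum_eq_zero h, mul_zero]

theorem GG_per {α : Type} {H : ℕ} (x₀ : α) (F F' : α → ℝ) (ρ : ℕ → ℕ) (n κ p : ℕ)
    (x : Fin H → α) (v y : ℕ) :
    GG x₀ F F' ρ n κ p x v (y + p) = GG x₀ F F' ρ n κ p x v y := by
  unfold GG
  congr 1
  apply Finset.sum_congr rfl
  intro j _
  have h : (y + p + j ≡ ρ p [MOD p]) ↔ (y + j ≡ ρ p [MOD p]) := by
    have h1 : y + p + j ≡ y + j [MOD p] := by
      show (y + p + j) % p = (y + j) % p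
      rw [show y + p + j = y + j + p by ring, Nat.add_mod_right]
    exact ⟨fun h => h1.symm.trans h, fun h => h1.trans h⟩
  simp only [h]

theorem val_modEq {N : ℕ} [NeZero N] (l : ℕ) (hl : l ∣ N) (i : ZMod N) (j : ℕ) :
    (i + ((j : ℕ) : ZMod N)).val ≡ i.val + j [MOD l] := by
  rw [ZMod.val_add, ZMod.val_natCast]
  have h1 : (i.val + j % N) % N ≡ i.val + j % N [MOD l] := (Nat.mod_modEq _ N).of_dvd hl
  have h2 : j % N ≡ j [MOD l] := (Nat.mod_modEq _ N).of_dvd hl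
  exact h1.trans (h2.add_left _)

theorem GG_eq {N : ℕ} [NeZero N] {α : Type} (X : ZMod N → α) (x₀ : α) (F F' : α → ℝ) (ρ : ℕ → ℕ)
    (n K κ Q p : ℕ) (hp : p.Prime) (hp2 : p < 2 ^ (n + 1)) (hκ : 0 < κ) (hκK : κ ≤ K)
    (hκQ : κ ∣ Q) (hQN : Q ∣ N) (hpN : p ∣ N) (i : ZMod N) :
    GG x₀ F F' ρ n κ p (block X ((2 * K + 1) * 2 ^ n) i) (i.val % Q) i.val =
      (∑ j ∈ range (2 ^ n), hh X F F' ρ κ p (i + ((j : ℕ) : ZMod N))) / 2 ^ n := by
  unfold GG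
  rw [div_mul_eq_mul_div, Finset.mul_sum]
  congr 1
  apply Finset.sum_congr rfl
  intro j hj
  rw [mem_range] at hj
  have hκp : κ * p ≤ K * 2 ^ (n + 1) := Nat.mul_le_mul hκK hp2.le
  have hH : j + κ * p < (2 * K + 1) * 2 ^ n := by
    have : (2 * K + 1) * 2 ^ n = 2 ^ n + K * 2 ^ (n + 1) := by ring
    omega
  have hH' : j < (2 * K + 1) * 2 ^ n := lt_of_le_of_lt (Nat.le_add_right _ _) hH
  have e1 : bval x₀ (block X ((2 * K + 1) * 2 ^ n) i) j = X (i + ((j : ℕ) : ZMod N)) := by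
    unfold bval
    rw [dif_pos hH']
    rfl
  have e2 : bval x₀ (block X ((2 * K + 1) * 2 ^ n) i) (j + κ * p) =
      X (i + ((j : ℕ) : ZMod N) + ((κ * p : ℕ) : ZMod N)) := by
    unfold bval
    rw [dif_pos hH]
    unfold block
    congr 1
    push_cast
    ring
  have e3 : (∀ l ∈ κ.primeFactors, i.val % Q + j ≡ ρ l [MOD l]) ↔
      Dv ρ κ (i + ((j : ℕ) : ZMod N)) := by
    unfold Dv
    apply forall₂_congr
    intro l hl
    have hlκ : l ∣ κ := Nat.dvd_of_mem_primeFactors hl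
    have h1 := val_modEq l (hlκ.trans (hκQ.trans hQN)) i j
    have h2 : i.val % Q + j ≡ i.val + j [MOD l] :=
      ((Nat.mod_modEq _ Q).of_dvd (hlκ.trans hκQ)).add_right j
    exact ⟨fun h => h1.trans (h2.symm.trans h), fun h => h2.trans (h1.symm.trans h)⟩
  have e4 : (i.val + j ≡ ρ p [MOD p]) ↔ Dv ρ p (i + ((j : ℕ) : ZMod N)) := by
    unfold Dv
    rw [hp.primeFactors]
    simp only [mem_singleton, forall_eq]
    have h1 := val_modEq p hpN i j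
    exact ⟨fun h => h1.trans h, fun h => h1.symm.trans h⟩
  rw [e1, e2]
  simp only [e3, e4]
  rfl

end DecAux

open DecAux

/-- DEC -/
theorem dec {N : ℕ} [NeZero N] {α : Type} (X : ZMod N → α) (F F' : α → ℝ)
    (hF : ∀ a, 0 ≤ F a ∧ F a ≤ 1) (hF' : ∀ a, 0 ≤ F' a ∧ F' a ≤ 1) (ρ : ℕ → ℕ) (n K κ Q : ℕ)
    (P : Finset ℕ) (hP : ∀ p ∈ P, p.Prime ∧ 2 ^ n ≤ p ∧ p < 2 ^ (n + 1)) (hκ : 0 < κ) (hκK : κ ≤ K)
    (hκQ : κ ∣ Q) (hcoQ : ∀ p ∈ P, p.Coprime Q) (hN : Q * ∏ p ∈ P, p ∣ N) (ε : ℝ) (hε : 0 < ε)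
    (hI : hb X ((2 * K + 1) * 2 ^ n) Q - hb X ((2 * K + 1) * 2 ^ n) (Q * ∏ p ∈ P, p) ≤
      ε ^ 2 * P.card) :
    ∑ p ∈ P, κ * Av (fun i => ind (Dv ρ κ i) * F (X i) * F' (X (i + ((κ * p : ℕ) : ZMod N)))) ≤
      ∑ p ∈ P, κ * p *
        Av (fun i => ind (Dv ρ κ i ∧ Dv ρ p i) * F (X i) * F' (X (i + ((κ * p : ℕ) : ZMod N)))) +
      6 * K * ε * P.card := by
  have hK : 0 < K := lt_of_lt_of_le hκ hκK
  have hKR : (0 : ℝ) < K := by exact_mod_cast hK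
  have key := dec_abs X ((2 * K + 1) * 2 ^ n) Q P (fun p hp => (hP p hp).1.pos)
    (fun p hp p' hp' hne => (Nat.coprime_primes (hP p hp).1 (hP p' hp').1).2 hne) hcoQ hN
    (fun p => GG (X 0) F F' ρ n κ p) (fun p _ x v y => GG_per (X 0) F F' ρ n κ p x v y)
    (3 * K) (ε / K) (div_pos hε hKR)
    (fun p hp x v y => abs_GG_le (X 0) F F' hF hF' ρ n κ K p hκK (hP p hp).1.pos (hP p hp).2.1
      (hP p hp).2.2 x v y)
    (fun p hp x v => sum_GG (X 0) F F' ρ n κ p (hP p hp).1.pos x v)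
  -- evaluate the left side
  have hQN : Q ∣ N := (Dvd.intro _ rfl).trans hN
  have hpN : ∀ p ∈ P, p ∣ N := fun p hp =>
    (Finset.dvd_prod_of_mem (fun p => p) hp).trans ((Dvd.intro_left _ rfl).trans hN)
  have h1 : Av (fun i : ZMod N => ∑ p ∈ P, GG (X 0) F F' ρ n κ p
      (block X ((2 * K + 1) * 2 ^ n) i) (i.val % Q) i.val) = ∑ p ∈ P, Av (hh X F F' ρ κ p) := by
    rw [Av_sum P (fun p (i : ZMod N) => GG (X 0) F F' ρ n κ p
      (block X ((2 * K + 1) * 2 ^ n) i) (i.val % Q) i.val)]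
    apply Finset.sum_congr rfl
    intro p hp
    have h2 : (fun i : ZMod N => GG (X 0) F F' ρ n κ p
        (block X ((2 * K + 1) * 2 ^ n) i) (i.val % Q) i.val) =
        fun i => (∑ j ∈ range (2 ^ n), hh X F F' ρ κ p (i + ((j : ℕ) : ZMod N))) *
          (1 / 2 ^ n) := by
      funext i
      rw [GG_eq X (X 0) F F' ρ n K κ Q p (hP p hp).1 (hP p hp).2.2 hκ hκK hκQ hQN (hpN p hp) i]
      ring
    rw [h2, Av_mul_const, Av_sum (range (2 ^ n))
      (fun j (i : ZMod N) => hh X F F' ρ κ p (i + ((j : ℕ) : ZMod N)))]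
    rw [Finset.sum_congr rfl (fun j _ => Av_shift (hh X F F' ρ κ p) ((j : ℕ) : ZMod N)),
      Finset.sum_const, card_range, nsmul_eq_mul]
    push_cast
    field_simp
  have h3 : ∀ p ∈ P, Av (hh X F F' ρ κ p) =
      κ * Av (fun i => ind (Dv ρ κ i) * F (X i) * F' (X (i + ((κ * p : ℕ) : ZMod N)))) -
      κ * p * Av (fun i => ind (Dv ρ κ i ∧ Dv ρ p i) * F (X i) *
        F' (X (i + ((κ * p : ℕ) : ZMod N)))) := by
    intro p _
    rw [← Av_const_mul, ← Av_const_mul, ← Av_sub]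
    congr 1
    funext i
    unfold hh
    rw [← ind_mul]
    ring
  rw [h1, Finset.sum_congr rfl h3, Finset.sum_sub_distrib] at key
  have h4 : (hb X ((2 * K + 1) * 2 ^ n) Q - hb X ((2 * K + 1) * 2 ^ n) (Q * ∏ p ∈ P, p)) /
      (ε / K) ≤ K * ε * P.card := by
    rw [div_le_iff₀ (div_pos hε hKR)]
    refine hI.trans (le_of_eq ?_)
    field_simp
  have h5 : ε / K * (3 * (K : ℝ)) ^ 2 / 2 * P.card = 9 / 2 * (K * ε * P.card) := by
    field_simp
    ring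
  have h6 : (0 : ℝ) ≤ K * ε * P.card := by positivity
  rw [h5] at key
  linarith

end Pool.Agent.OmQ
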