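import Pool.Agent.Lib_MP_f1a94e_q.Defs

set_option autoImplicit false

namespace Pool.Agent.OmQ

open Finset LibLS

theorem nrm_nonneg (x : ℝ) : 0 ≤ nrm x := abs_nonneg _

theorem nrm_le (x : ℝ) (z : ℤ) : nrm x ≤ |x - z| := round_le x z

theorem nrm_mul_le (k : ℕ) (x : ℝ) : nrm (k * x) ≤ k * nrm x := by
  have h := nrm_le (k * x) ((k : ℤ) * round x)
  have h2 : (k : ℝ) * x - (((k : ℤ) * round x : ℤ) : ℝ) = k * (x - round x) := by
    push_cast
    ring
  rw [h2, abs_mul, abs_of_nonneg (Nat.cast_nonneg k)] at h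
  exact h

theorem norm_e_sub_one_le (x : ℝ) : ‖e x - 1‖ ≤ 2 * Real.pi * nrm x := by
  have h1 : e x = e (x - round x) := by
    have := e_add_int (x - round x) (round x)
    rw [sub_add_cancel] at this
    exact this
  rw [h1]
  unfold e
  rw [Complex.norm_exp_I_mul_ofReal_sub_one, Real.norm_eq_abs, abs_mul,
    abs_of_pos (by norm_num : (0 : ℝ) < 2)]
  have h2 : |Real.sin (2 * Real.pi * (x - round x) / 2)| ≤ |2 * Real.pi * (x - round x) / 2| :=
    Real.abs_sin_le_abs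
  have h3 : |2 * Real.pi * (x - round x) / 2| = Real.pi * |x - round x| := by
    have : 2 * Real.pi * (x - round x) / 2 = Real.pi * (x - round x) := by ring
    rw [this, abs_mul, abs_of_pos Real.pi_pos]
  rw [h3] at h2
  unfold nrm
  linarith

theorem mlt_eq (W T : ℕ) (θ : ℝ) : mlt W T θ = D T (W * θ) / T := by
  unfold mlt D
  congr 1
  refine sum_congr rfl fun r _ => ?_
  congr 1
  push_cast
  ring

theorem mlt_near (W T : ℕ) (hT : 0 < T) (θ : ℝ) : ‖1 - mlt W T θ‖ ≤ 2 * Real.pi * T * nrm (W * θ) := by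
  have hT' : (0 : ℝ) < T := by exact_mod_cast hT
  have hTc : (T : ℂ) ≠ 0 := by exact_mod_cast hT.ne'
  have h1 : 1 - mlt W T θ = (∑ r ∈ range T, (1 - e (r * (W * θ)))) / T := by
    rw [mlt_eq, sum_sub_distrib, sub_div]
    congr 1
    rw [sum_const, card_range, nsmul_eq_mul, mul_one, div_self hTc]
  rw [h1, norm_div, Complex.norm_natCast, div_le_iff₀ hT']
  refine (norm_sum_le _ _).trans ?_
  have h2 : ∀ r ∈ range T, ‖1 - e (r * (W * θ))‖ ≤ 2 * Real.pi * T * nrm (W * θ) := by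
    intro r hr
    rw [norm_sub_rev]
    refine (norm_e_sub_one_le _).trans ?_
    have h3 := nrm_mul_le r (W * θ)
    have h4 : (r : ℝ) ≤ T := by exact_mod_cast (mem_range.mp hr).le
    have h5 := nrm_nonneg (W * θ)
    have h6 : nrm (r * (W * θ)) ≤ T * nrm (W * θ) := h3.trans (mul_le_mul_of_nonneg_right h4 h5)
    have h7 := mul_le_mul_of_nonneg_left h6 (by positivity : (0 : ℝ) ≤ 2 * Real.pi)
    linarith
  refine (sum_le_sum h2).trans ?_
  rw [sum_const, card_range, nsmul_eq_mul]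
  linarith

theorem mlt_far (W T : ℕ) (hT : 0 < T) (θ : ℝ) (h : 0 < nrm (W * θ)) :
    ‖mlt W T θ‖ ≤ 1 / (2 * T * nrm (W * θ)) := by
  have hT' : (0 : ℝ) < T := by exact_mod_cast hT
  have h1 : D T (W * θ) = D T (W * θ - round ((W : ℝ) * θ)) := by
    have := D_add_int T (W * θ - round ((W : ℝ) * θ)) (round ((W : ℝ) * θ))
    rw [sub_add_cancel] at this
    exact this
  have h2 : |W * θ - round ((W : ℝ) * θ)| ≤ 1 / 2 := abs_sub_round _
  have h3 := norm_D_mul_le T h2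
  rw [← h1] at h3
  have h4 : ‖D T (W * θ)‖ * nrm (W * θ) ≤ 1 / 2 := h3
  rw [mlt_eq, norm_div, Complex.norm_natCast, div_le_div_iff₀ hT' (by positivity)]
  nlinarith

theorem mlt_le_one (W T : ℕ) (θ : ℝ) : ‖mlt W T θ‖ ≤ 1 := by
  rcases Nat.eq_zero_or_pos T with rfl | hT
  · rw [mlt_eq]
    simp
  · have hT' : (0 : ℝ) < T := by exact_mod_cast hT
    rw [mlt_eq, norm_div, Complex.norm_natCast, div_le_one hT']
    exact norm_D_le T _

theorem sq_le_of_norm_le {x : ℂ} {δ : ℝ} (h : ‖x‖ ≤ 2 * δ) : ‖x‖ ^ 2 ≤ 4 * δ ^ 2 := by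
  have := norm_nonneg x
  nlinarith

/-- MD -/
theorem mlt_diff (W W' T T' n : ℕ) (hW : 0 < W) (hWW : W ∣ W') (hW' : 0 < W') (hT : 0 < T) (hT' : 0 < T')
    (θ α β δ : ℝ) (hα : 0 < α) (hβ : 0 < β) (hδ : 0 ≤ δ) (h1 : 2 * Real.pi * T * α ≤ δ * 2 ^ n)
    (h2 : 2 * Real.pi * T' * ((W' : ℝ) / W) * α ≤ δ * 2 ^ n) (h3 : 2 ^ n ≤ 2 * δ * T' * β)
    (h4 : W' * 2 ^ n ≤ 2 * δ * T * W * β) :
    ‖mlt W' T' θ - mlt W T θ‖ ^ 2 ≤
      4 * ind (α / 2 ^ n < nrm (W * θ) ∧ nrm (W' * θ) < β / 2 ^ n) + 4 * δ ^ 2 := by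
  have hWr : (0 : ℝ) < W := by exact_mod_cast hW
  have hWr' : (0 : ℝ) < W' := by exact_mod_cast hW'
  have hTr : (0 : ℝ) < T := by exact_mod_cast hT
  have hTr' : (0 : ℝ) < T' := by exact_mod_cast hT'
  have h2n : (0 : ℝ) < 2 ^ n := by positivity
  obtain ⟨k, rfl⟩ := hWW
  have hk : 0 < k := Nat.pos_of_mul_pos_left hW'
  have hkr : (0 : ℝ) < k := by exact_mod_cast hk
  have hkq : ((W * k : ℕ) : ℝ) / W = k := by
    push_cast
    field_simp
  rw [hkq] at h2
  have hnk : nrm ((W * k : ℕ) * θ) ≤ k * nrm (W * θ) := by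
    have := nrm_mul_le k (W * θ)
    have h5 : ((W * k : ℕ) : ℝ) * θ = k * (W * θ) := by push_cast; ring
    rw [h5]
    exact this
  have hind := ind_nonneg (α / 2 ^ n < nrm (W * θ) ∧ nrm ((W * k : ℕ) * θ) < β / 2 ^ n)
  by_cases hA : nrm (W * θ) ≤ α / 2 ^ n
  · have hA1 : ‖1 - mlt W T θ‖ ≤ δ := by
      refine (mlt_near W T hT θ).trans ?_
      have : 2 * Real.pi * T * nrm (W * θ) ≤ 2 * Real.pi * T * (α / 2 ^ n) :=
        mul_le_mul_of_nonneg_left hA (by positivity)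
      refine this.trans ?_
      rw [← mul_div_assoc, div_le_iff₀ h2n]
      exact h1
    have hA2 : ‖1 - mlt (W * k) T' θ‖ ≤ δ := by
      refine (mlt_near (W * k) T' hT' θ).trans ?_
      have h6 : nrm ((W * k : ℕ) * θ) ≤ k * (α / 2 ^ n) :=
        hnk.trans (mul_le_mul_of_nonneg_left hA hkr.le)
      have : 2 * Real.pi * T' * nrm ((W * k : ℕ) * θ) ≤ 2 * Real.pi * T' * (k * (α / 2 ^ n)) :=
        mul_le_mul_of_nonneg_left h6 (by positivity)
      refine this.trans ?_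
      have h7 : 2 * Real.pi * T' * (k * (α / 2 ^ n)) = (2 * Real.pi * T' * k * α) / 2 ^ n := by ring
      rw [h7, div_le_iff₀ h2n]
      exact h2
    have h8 : ‖mlt (W * k) T' θ - mlt W T θ‖ ≤ 2 * δ := by
      have h9 : mlt (W * k) T' θ - mlt W T θ = (1 - mlt W T θ) - (1 - mlt (W * k) T' θ) := by ring
      rw [h9]
      refine (norm_sub_le _ _).trans ?_
      linarith
    have := sq_le_of_norm_le h8
    linarith
  · by_cases hB : β / 2 ^ n ≤ nrm ((W * k : ℕ) * θ)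
    · have hpos : 0 < nrm ((W * k : ℕ) * θ) := lt_of_lt_of_le (by positivity) hB
      have hB1 : ‖mlt (W * k) T' θ‖ ≤ δ := by
        refine (mlt_far (W * k) T' hT' θ hpos).trans ?_
        rw [div_le_iff₀ (by positivity)]
        rw [div_le_iff₀ h2n] at hB
        have h6 : 2 * δ * T' * β ≤ 2 * δ * T' * (nrm ((W * k : ℕ) * θ) * 2 ^ n) :=
          mul_le_mul_of_nonneg_left hB (by positivity)
        have h7 : (1 : ℝ) * 2 ^ n ≤ (δ * (2 * T' * nrm ((W * k : ℕ) * θ))) * 2 ^ n := by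
          calc (1 : ℝ) * 2 ^ n = 2 ^ n := one_mul _
            _ ≤ 2 * δ * T' * β := h3
            _ ≤ 2 * δ * T' * (nrm ((W * k : ℕ) * θ) * 2 ^ n) := h6
            _ = (δ * (2 * T' * nrm ((W * k : ℕ) * θ))) * 2 ^ n := by ring
        exact le_of_mul_le_mul_right h7 h2n
      have hpos2 : 0 < nrm (W * θ) := by
        by_contra hcon
        have h6 : nrm (W * θ) ≤ 0 := not_lt.mp hcon
        have h7 : (k : ℝ) * nrm (W * θ) ≤ 0 := mul_nonpos_of_nonneg_of_nonpos hkr.le h6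
        linarith
      have hB2 : ‖mlt W T θ‖ ≤ δ := by
        refine (mlt_far W T hT θ hpos2).trans ?_
        rw [div_le_iff₀ (by positivity)]
        rw [div_le_iff₀ h2n] at hB
        have h5 : β ≤ (k * nrm (W * θ)) * 2 ^ n :=
          hB.trans (mul_le_mul_of_nonneg_right hnk h2n.le)
        have h6 : 2 * δ * T * W * β ≤ 2 * δ * T * W * ((k * nrm (W * θ)) * 2 ^ n) :=
          mul_le_mul_of_nonneg_left h5 (by positivity)
        have h7 : (1 : ℝ) * ((W * k : ℕ) * 2 ^ n) ≤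
            (δ * (2 * T * nrm (W * θ))) * ((W * k : ℕ) * 2 ^ n) := by
          calc (1 : ℝ) * ((W * k : ℕ) * 2 ^ n) = (W * k : ℕ) * 2 ^ n := one_mul _
            _ ≤ 2 * δ * T * W * β := h4
            _ ≤ 2 * δ * T * W * ((k * nrm (W * θ)) * 2 ^ n) := h6
            _ = (δ * (2 * T * nrm (W * θ))) * ((W * k : ℕ) * 2 ^ n) := by push_cast; ring
        exact le_of_mul_le_mul_right h7 (by positivity)
      have h8 : ‖mlt (W * k) T' θ - mlt W T θ‖ ≤ 2 * δ := by
        refine (norm_sub_le _ _).trans ?_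
        linarith
      have := sq_le_of_norm_le h8
      linarith
    · have hP : α / 2 ^ n < nrm (W * θ) ∧ nrm ((W * k : ℕ) * θ) < β / 2 ^ n :=
        ⟨not_le.mp hA, not_le.mp hB⟩
      rw [ind_of hP]
      have h8 : ‖mlt (W * k) T' θ - mlt W T θ‖ ≤ 2 * 1 := by
        refine (norm_sub_le _ _).trans ?_
        have := mlt_le_one (W * k) T' θ
        have := mlt_le_one W T θ
        linarith
      have := sq_le_of_norm_le h8
      nlinarith [sq_nonneg δ]

end Pool.Agent.OmQ
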