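import Pool.Agent.Lib_MP_f1a94e_q.Defs

set_option autoImplicit false

namespace Pool.Agent.OmQ

open Finset LibLS

open scoped ComplexConjugate

/-- the additive character of `ZMod N` in the notation of the large sieve file -/
theorem e_eq_char {N : ℕ} [NeZero N] (a : ℕ) (r : ZMod N) :
    e (a * ((r.val : ℝ) / N)) = ZMod.stdAddChar ((a : ZMod N) * r) := by
  have h1 : ((a : ZMod N) * r) = (((a * r.val : ℕ) : ℤ) : ZMod N) := by
    push_cast
    rw [ZMod.natCast_zmod_val]
  rw [h1, ZMod.stdAddChar_coe]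
  unfold e
  congr 1
  push_cast
  ring

/-- Fourier coefficient -/
noncomputable def fhat {N : ℕ} [NeZero N] (g : ZMod N → ℝ) (r : ZMod N) : ℂ :=
  (∑ i, (g i : ℂ) * ZMod.stdAddChar (-(i * r))) / N

theorem char_sum {N : ℕ} [NeZero N] (b : ZMod N) :
    ∑ r : ZMod N, (ZMod.stdAddChar (b * r) : ℂ) = if b = 0 then (N : ℂ) else 0 := by
  have h := AddChar.sum_mulShift (ψ := ZMod.stdAddChar (N := N)) b
    (ZMod.isPrimitive_stdAddChar N)
  simp only [ZMod.card] at h
  have h2 : ∑ r : ZMod N, (ZMod.stdAddChar (b * r) : ℂ) =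
      ∑ r : ZMod N, (ZMod.stdAddChar (r * b) : ℂ) :=
    Finset.sum_congr rfl fun r _ => by rw [mul_comm]
  rw [h2, h]
  split_ifs <;> simp

theorem parseval {N : ℕ} [NeZero N] (u : ZMod N → ℝ) :
    ∑ r, ‖fhat u r‖ ^ 2 = Av (fun i => u i ^ 2) := by
  have hN : (N : ℂ) ≠ 0 := by exact_mod_cast NeZero.ne N
  have hterm : ∀ r : ZMod N, ((‖fhat u r‖ ^ 2 : ℝ) : ℂ) =
      ∑ i, ∑ j, (u i : ℂ) * (u j : ℂ) * ZMod.stdAddChar ((j - i) * r) / (N : ℂ) ^ 2 := by
    intro r
    have h1 : ((‖fhat u r‖ ^ 2 : ℝ) : ℂ) = fhat u r * conj (fhat u r) := by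
      rw [Complex.mul_conj']
      push_cast
      rfl
    have h2 : conj (fhat u r) = (∑ j, (u j : ℂ) * ZMod.stdAddChar (j * r)) / N := by
      unfold fhat
      rw [map_div₀, map_sum, Complex.conj_natCast]
      congr 1
      apply Finset.sum_congr rfl
      intro j _
      rw [map_mul, Complex.conj_ofReal, ← AddChar.map_neg_eq_conj, neg_neg]
    rw [h1, h2, fhat, div_mul_div_comm, Finset.sum_mul_sum, Finset.sum_div]
    apply Finset.sum_congr rfl
    intro i _
    rw [Finset.sum_div]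
    apply Finset.sum_congr rfl
    intro j _
    have h3 : (ZMod.stdAddChar ((j - i) * r) : ℂ) =
        ZMod.stdAddChar (-(i * r)) * ZMod.stdAddChar (j * r) := by
      rw [← AddChar.map_add_eq_mul]
      congr 1
      ring
    rw [h3]
    ring
  have hC : ((∑ r, ‖fhat u r‖ ^ 2 : ℝ) : ℂ) = ((Av (fun i => u i ^ 2) : ℝ) : ℂ) := by
    rw [Complex.ofReal_sum, Finset.sum_congr rfl fun r _ => hterm r, Finset.sum_comm]
    have h4 : ∀ i : ZMod N, ∑ r : ZMod N, ∑ j : ZMod N,
        (u i : ℂ) * (u j : ℂ) * ZMod.stdAddChar ((j - i) * r) / (N : ℂ) ^ 2 =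
        (u i : ℂ) ^ 2 / N := by
      intro i
      rw [Finset.sum_comm]
      have h5 : ∀ j : ZMod N, ∑ r : ZMod N,
          (u i : ℂ) * (u j : ℂ) * ZMod.stdAddChar ((j - i) * r) / (N : ℂ) ^ 2 =
          if j = i then (u i : ℂ) ^ 2 / N else 0 := by
        intro j
        rw [← Finset.sum_div, ← Finset.mul_sum, char_sum]
        by_cases hji : j = i
        · subst hji
          rw [if_pos (sub_self j), if_pos rfl]
          field_simp
        · rw [if_neg (sub_ne_zero.mpr hji), if_neg hji]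
          simp
      rw [Finset.sum_congr rfl fun j _ => h5 j]
      simp
    rw [Finset.sum_congr rfl fun i _ => h4 i]
    unfold Av
    push_cast
    rw [Finset.sum_div]
  exact_mod_cast hC

theorem fhat_shift {N : ℕ} [NeZero N] (g : ZMod N → ℝ) (a : ℕ) (r : ZMod N) :
    (∑ i, (g (i + (a : ZMod N)) : ℂ) * ZMod.stdAddChar (-(i * r))) / N =
      e (a * ((r.val : ℝ) / N)) * fhat g r := by
  rw [e_eq_char, fhat, mul_div_assoc', Finset.mul_sum]
  congr 1
  rw [← Equiv.sum_comp (Equiv.addRight (a : ZMod N)) fun i : ZMod N =>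
    (ZMod.stdAddChar ((a : ZMod N) * r) : ℂ) * ((g i : ℂ) * ZMod.stdAddChar (-(i * r)))]
  apply Finset.sum_congr rfl
  intro i _
  simp only [Equiv.coe_addRight]
  have h3 : (ZMod.stdAddChar (-(i * r)) : ℂ) =
      ZMod.stdAddChar ((a : ZMod N) * r) * ZMod.stdAddChar (-((i + (a : ZMod N)) * r)) := by
    rw [← AddChar.map_add_eq_mul]
    congr 1
    ring
  rw [h3]
  ring

/-- the general form -/
theorem spec_gen {N : ℕ} [NeZero N] (g : ZMod N → ℝ) {ι : Type*} (S : Finset ι) (lam : ι → ℝ)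
    (a : ι → ℕ) :
    Av (fun i => (∑ s ∈ S, lam s * g (i + (a s : ZMod N))) ^ 2) =
      ∑ r : ZMod N, ‖fhat g r‖ ^ 2 *
        ‖∑ s ∈ S, (lam s : ℂ) * e (a s * ((r.val : ℝ) / N))‖ ^ 2 := by
  rw [← parseval fun i => ∑ s ∈ S, lam s * g (i + (a s : ZMod N))]
  apply Finset.sum_congr rfl
  intro r _
  have h1 : fhat (fun i => ∑ s ∈ S, lam s * g (i + (a s : ZMod N))) r =
      fhat g r * ∑ s ∈ S, (lam s : ℂ) * e (a s * ((r.val : ℝ) / N)) := by
    have h2 : fhat (fun i => ∑ s ∈ S, lam s * g (i + (a s : ZMod N))) r =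
        ∑ s ∈ S, (lam s : ℂ) *
          ((∑ i, (g (i + (a s : ZMod N)) : ℂ) * ZMod.stdAddChar (-(i * r))) / N) := by
      unfold fhat
      simp only [Complex.ofReal_sum, Complex.ofReal_mul, Finset.sum_mul]
      rw [Finset.sum_comm, Finset.sum_div]
      apply Finset.sum_congr rfl
      intro s _
      rw [mul_div_assoc', Finset.mul_sum]
      congr 1
      apply Finset.sum_congr rfl
      intro i _
      ring
    rw [h2, Finset.mul_sum]
    apply Finset.sum_congr rfl
    intro s _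
    rw [fhat_shift]
    ring
  rw [h1, norm_mul, mul_pow]

theorem avW_eq_sum {N : ℕ} (W T : ℕ) (g : ZMod N → ℝ) (i : ZMod N) :
    avW W T g i = ∑ r ∈ range T, (1 / (T : ℝ)) * g (i + ((W * r : ℕ) : ZMod N)) := by
  unfold avW
  rw [Finset.sum_div]
  apply Finset.sum_congr rfl
  intro r _
  ring

theorem mlt_eq_sum (W T : ℕ) (θ : ℝ) :
    mlt W T θ = ∑ r ∈ range T, ((1 / (T : ℝ) : ℝ) : ℂ) * e ((W * r : ℕ) * θ) := by
  unfold mlt
  rw [Finset.sum_div]
  apply Finset.sum_congr rfl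
  intro r _
  push_cast
  ring

/-- SPEC -/
theorem spec {N : ℕ} [NeZero N] (g : ZMod N → ℝ) : ∃ ν : ZMod N → ℝ, (∀ r, 0 ≤ ν r) ∧
    ∑ r, ν r = Av (fun i => g i ^ 2) ∧
    (∀ W T W' T' : ℕ, 0 < T → 0 < T' → Av (fun i => (avW W' T' g i - avW W T g i) ^ 2) =
      ∑ r, ν r * ‖mlt W' T' ((r.val : ℝ) / N) - mlt W T ((r.val : ℝ) / N)‖ ^ 2) ∧
    (∀ (W T κ : ℕ) (P : Finset ℕ), 0 < T → 0 < P.card →
      Av (fun i => ((∑ p ∈ P, (g (i + ((κ * p : ℕ) : ZMod N)) -
        avW W T g (i + ((κ * p : ℕ) : ZMod N)))) / P.card) ^ 2) =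
      ∑ r, ν r * (‖∑ p ∈ P, e (p * (κ * ((r.val : ℝ) / N)))‖ ^ 2 *
        ‖1 - mlt W T ((r.val : ℝ) / N)‖ ^ 2 / (P.card : ℝ) ^ 2)) := by
  refine ⟨fun r => ‖fhat g r‖ ^ 2, fun r => sq_nonneg _, parseval g, ?_, ?_⟩
  · intro W T W' T' _ _
    have h := spec_gen g ((range T').disjSum (range T))
      (Sum.elim (fun _ => 1 / (T' : ℝ)) fun _ => -(1 / (T : ℝ)))
      (Sum.elim (fun r => W' * r) fun r => W * r)
    simp only [Finset.sum_disjSum, Sum.elim_inl, Sum.elim_inr] at h
    convert h using 4 with i r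
    · rw [avW_eq_sum, avW_eq_sum]
      simp only [neg_mul, Finset.sum_neg_distrib]
      ring
    · rw [mlt_eq_sum, mlt_eq_sum]
      simp only [Complex.ofReal_neg, neg_mul, Finset.sum_neg_distrib]
      rw [sub_eq_add_neg]
  · intro W T κ P hT hP
    have hP' : (P.card : ℝ) ≠ 0 := by exact_mod_cast hP.ne'
    have hP'' : (P.card : ℂ) ≠ 0 := by exact_mod_cast hP.ne'
    have h := spec_gen g (P.disjSum (P ×ˢ range T))
      (Sum.elim (fun _ => 1 / (P.card : ℝ)) fun _ => -(1 / (P.card : ℝ) * (1 / (T : ℝ))))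
      (Sum.elim (fun p => κ * p) fun q => κ * q.1 + W * q.2)
    simp only [Finset.sum_disjSum, Sum.elim_inl, Sum.elim_inr, Finset.sum_product] at h
    have hL : (fun i : ZMod N => ((∑ p ∈ P, (g (i + ((κ * p : ℕ) : ZMod N)) -
        avW W T g (i + ((κ * p : ℕ) : ZMod N)))) / P.card) ^ 2) = fun i : ZMod N =>
        (∑ x ∈ P, 1 / (P.card : ℝ) * g (i + ((κ * x : ℕ) : ZMod N)) +
        ∑ x ∈ P, ∑ x_1 ∈ range T, -(1 / (P.card : ℝ) * (1 / (T : ℝ))) *
          g (i + ((κ * x + W * x_1 : ℕ) : ZMod N))) ^ 2 := by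
      funext i
      congr 1
      rw [Finset.sum_div, ← Finset.sum_add_distrib]
      apply Finset.sum_congr rfl
      intro p _
      rw [avW_eq_sum, sub_div, Finset.sum_div, sub_eq_add_neg, ← Finset.sum_neg_distrib]
      congr 1
      · ring
      · apply Finset.sum_congr rfl
        intro r _
        have : i + ((κ * p : ℕ) : ZMod N) + ((W * r : ℕ) : ZMod N) =
            i + ((κ * p + W * r : ℕ) : ZMod N) := by
          push_cast
          ring
        rw [this]
        ring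
    rw [hL, h]
    apply Finset.sum_congr rfl
    intro r _
    congr 1
    have hR : (∑ x ∈ P, ((1 / (P.card : ℝ) : ℝ) : ℂ) * e ((κ * x : ℕ) * ((r.val : ℝ) / N)) +
        ∑ x ∈ P, ∑ x_1 ∈ range T, ((-(1 / (P.card : ℝ) * (1 / (T : ℝ))) : ℝ) : ℂ) *
          e ((κ * x + W * x_1 : ℕ) * ((r.val : ℝ) / N))) =
        (∑ p ∈ P, e (p * (κ * ((r.val : ℝ) / N)))) * (1 - mlt W T ((r.val : ℝ) / N)) /
          (P.card : ℂ) := by
      have h1 : ∀ p : ℕ, e ((κ * p : ℕ) * ((r.val : ℝ) / N)) =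
          e (p * (κ * ((r.val : ℝ) / N))) := by
        intro p
        congr 1
        push_cast
        ring
      have h2 : ∀ p x : ℕ, e ((κ * p + W * x : ℕ) * ((r.val : ℝ) / N)) =
          e (p * (κ * ((r.val : ℝ) / N))) * e ((W * x : ℕ) * ((r.val : ℝ) / N)) := by
        intro p x
        rw [← e_add]
        congr 1
        push_cast
        ring
      simp only [h1, h2, mlt_eq_sum]
      rw [mul_sub, mul_one, sub_div, sub_eq_add_neg]
      congr 1
      · rw [Finset.sum_div]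
        apply Finset.sum_congr rfl
        intro p _
        push_cast
        ring
      · rw [Finset.sum_mul_sum, Finset.sum_div, ← Finset.sum_neg_distrib]
        apply Finset.sum_congr rfl
        intro p _
        rw [Finset.sum_div, ← Finset.sum_neg_distrib]
        apply Finset.sum_congr rfl
        intro x _
        push_cast
        ring
    rw [hR, norm_div, norm_mul, div_pow, mul_pow]
    congr 2
    simp

end Pool.Agent.OmQ
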