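import Pool.Agent.Lib_MP_f1a94e_q.Defs
import Pool.Agent.Lib_MP_f1a94e_q.Spec
import Pool.Agent.Lib_MP_f1a94e_q.Mlt

set_option autoImplicit false

namespace Pool.Agent.OmQ

open Finset LibLS

theorem norm_e_le (x : ℝ) : ‖e x‖ ≤ 1 := by
  unfold e
  rw [mul_comm, Complex.norm_exp_ofReal_mul_I]

/-- FOU3 -/
theorem fou3 {N : ℕ} [NeZero N] (g : ZMod N → ℝ) (hg : ∀ i, |g i| ≤ 1) (W T n : ℕ) (hT : 0 < T)
    (K P : Finset ℕ) (hP : 0 < P.card) (Cb s : ℝ) (hCb : 0 ≤ Cb) (hs : 0 ≤ s)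
    (hsT : 2 * Real.pi * T * W ≤ s * 2 ^ n) (hsK : s ^ 2 * K.card ≤ 1)
    (hS : ∀ θ : ℝ, nrm (W * θ) ≤ W / 2 ^ n ∨
      ∑ κ ∈ K, ‖∑ p ∈ P, e (p * (κ * θ))‖ ^ 2 ≤ Cb * (P.card : ℝ) ^ 2) :
    ∑ κ ∈ K, Av (fun i => ((∑ p ∈ P, (g (i + ((κ * p : ℕ) : ZMod N)) -
        avW W T g (i + ((κ * p : ℕ) : ZMod N)))) / P.card) ^ 2) ≤ 4 * Cb + 1 := by
  obtain ⟨ν, hν0, hν1, -, hν3⟩ := spec g
  have hPr : (0 : ℝ) < P.card := by exact_mod_cast hP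
  rw [sum_congr rfl fun κ _ => hν3 W T κ P hT hP, sum_comm]
  have hsum : ∑ r, ν r ≤ 1 := by
    rw [hν1]
    calc Av (fun i => g i ^ 2) ≤ Av (fun _ : ZMod N => (1 : ℝ)) := by
          apply Av_mono
          intro i
          rw [← sq_abs]
          have := hg i
          have := abs_nonneg (g i)
          nlinarith
      _ = 1 := Av_const 1
  have key : ∀ r : ZMod N, ∑ κ ∈ K, ν r * (‖∑ p ∈ P, e (p * (κ * ((r.val : ℝ) / N)))‖ ^ 2 *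
        ‖1 - mlt W T ((r.val : ℝ) / N)‖ ^ 2 / (P.card : ℝ) ^ 2) ≤ ν r * (4 * Cb + 1) := by
    intro r
    rw [← mul_sum]
    refine mul_le_mul_of_nonneg_left ?_ (hν0 r)
    set θ : ℝ := (r.val : ℝ) / N with hθ
    have hfac : ∑ κ ∈ K, ‖∑ p ∈ P, e (p * (κ * θ))‖ ^ 2 * ‖1 - mlt W T θ‖ ^ 2 / (P.card : ℝ) ^ 2 =
        (∑ κ ∈ K, ‖∑ p ∈ P, e (p * (κ * θ))‖ ^ 2) * ‖1 - mlt W T θ‖ ^ 2 / (P.card : ℝ) ^ 2 := by
      rw [sum_mul, sum_div]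
    rw [hfac, div_le_iff₀ (by positivity)]
    rcases hS θ with h | h
    · have h1 : ‖1 - mlt W T θ‖ ≤ s := by
        refine (mlt_near W T hT θ).trans ?_
        have h2n : (0 : ℝ) < 2 ^ n := by positivity
        have h3 : 2 * Real.pi * T * nrm (W * θ) ≤ 2 * Real.pi * T * (W / 2 ^ n) :=
          mul_le_mul_of_nonneg_left h (by positivity)
        refine h3.trans ?_
        rw [← mul_div_assoc, div_le_iff₀ h2n]
        exact hsT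
      have h2 : ∀ κ ∈ K, ‖∑ p ∈ P, e (p * (κ * θ))‖ ^ 2 ≤ (P.card : ℝ) ^ 2 := by
        intro κ _
        have h3 : ‖∑ p ∈ P, e (p * (κ * θ))‖ ≤ P.card := by
          refine (norm_sum_le _ _).trans ?_
          refine (sum_le_sum fun p _ => norm_e_le _).trans ?_
          simp
        exact pow_le_pow_left₀ (norm_nonneg _) h3 2
      have h3 : ∑ κ ∈ K, ‖∑ p ∈ P, e (p * (κ * θ))‖ ^ 2 ≤ K.card * (P.card : ℝ) ^ 2 := by
        refine (sum_le_sum h2).trans ?_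
        rw [sum_const, nsmul_eq_mul]
      have h4 : ‖1 - mlt W T θ‖ ^ 2 ≤ s ^ 2 := pow_le_pow_left₀ (norm_nonneg _) h1 2
      calc (∑ κ ∈ K, ‖∑ p ∈ P, e (p * (κ * θ))‖ ^ 2) * ‖1 - mlt W T θ‖ ^ 2
          ≤ (K.card * (P.card : ℝ) ^ 2) * s ^ 2 :=
            mul_le_mul h3 h4 (by positivity) (by positivity)
        _ = (s ^ 2 * K.card) * (P.card : ℝ) ^ 2 := by ring
        _ ≤ 1 * (P.card : ℝ) ^ 2 := mul_le_mul_of_nonneg_right hsK (by positivity)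
        _ ≤ (4 * Cb + 1) * (P.card : ℝ) ^ 2 :=
            mul_le_mul_of_nonneg_right (by linarith) (by positivity)
    · have h4 : ‖1 - mlt W T θ‖ ^ 2 ≤ 4 := by
        have h5 : ‖1 - mlt W T θ‖ ≤ 2 := by
          refine (norm_sub_le _ _).trans ?_
          have := mlt_le_one W T θ
          rw [norm_one]
          linarith
        have := norm_nonneg (1 - mlt W T θ)
        nlinarith
      calc (∑ κ ∈ K, ‖∑ p ∈ P, e (p * (κ * θ))‖ ^ 2) * ‖1 - mlt W T θ‖ ^ 2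
          ≤ (Cb * (P.card : ℝ) ^ 2) * 4 :=
            mul_le_mul h h4 (by positivity) (by positivity)
        _ ≤ (4 * Cb + 1) * (P.card : ℝ) ^ 2 := by nlinarith [sq_nonneg (P.card : ℝ)]
  calc ∑ r, ∑ κ ∈ K, ν r * (‖∑ p ∈ P, e (p * (κ * ((r.val : ℝ) / N)))‖ ^ 2 *
        ‖1 - mlt W T ((r.val : ℝ) / N)‖ ^ 2 / (P.card : ℝ) ^ 2)
      ≤ ∑ r, ν r * (4 * Cb + 1) := sum_le_sum fun r _ => key r
    _ = (∑ r, ν r) * (4 * Cb + 1) := by rw [sum_mul]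
    _ ≤ 1 * (4 * Cb + 1) := mul_le_mul_of_nonneg_right hsum (by positivity)
    _ = 4 * Cb + 1 := one_mul _

end Pool.Agent.OmQ
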