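import Pool.Agent.Lib_MP_f1a94e_q.Defs

set_option autoImplicit false

namespace Pool.Agent.OmQ

open Finset LibLS

/-- sum over `ZMod N` as a sum over `range N` -/
lemma sum_zmod_val {N : ℕ} [NeZero N] (F : ℕ → ℝ) :
    ∑ i : ZMod N, F i.val = ∑ x ∈ range N, F x := by
  refine Finset.sum_nbij' (fun i : ZMod N => i.val) (fun x : ℕ => (x : ZMod N)) ?_ ?_ ?_ ?_ ?_
  · intro i _
    exact mem_range.mpr (ZMod.val_lt i)
  · intro x _
    exact mem_univ _
  · intro i _
    exact ZMod.natCast_zmod_val i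
  · intro x hx
    exact ZMod.val_cast_of_lt (mem_range.mp hx)
  · intro i _
    rfl

lemma periodic_mul {M : ℕ} {h : ℕ → ℝ} (hp : ∀ i, h (i + M) = h i) (k x : ℕ) :
    h (x + k * M) = h x := by
  induction k with
  | zero => simp
  | succ k ih =>
    have : x + (k + 1) * M = (x + k * M) + M := by ring
    rw [this, hp, ih]

lemma periodic_mod {M : ℕ} {h : ℕ → ℝ} (hp : ∀ i, h (i + M) = h i) (x : ℕ) :
    h (x % M) = h x := by
  have h1 : x = x % M + (x / M) * M := by
    rw [mul_comm]; exact (Nat.mod_add_div x M).symm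
  conv_rhs => rw [h1]
  exact (periodic_mul hp _ _).symm

lemma sum_range_periodic {M : ℕ} {h : ℕ → ℝ} (hp : ∀ i, h (i + M) = h i) (k : ℕ) :
    ∑ x ∈ range (k * M), h x = k * ∑ x ∈ range M, h x := by
  induction k with
  | zero => simp
  | succ k ih =>
    have h1 : (k + 1) * M = k * M + M := by ring
    rw [h1, sum_range_add, ih]
    have h2 : ∑ x ∈ range M, h (k * M + x) = ∑ x ∈ range M, h x := by
      apply sum_congr rfl
      intro x _
      rw [add_comm]
      exact periodic_mul hp k x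
    rw [h2]
    push_cast
    ring

lemma Av_periodic {N : ℕ} [NeZero N] {M : ℕ} (hM : M ∣ N) {h : ℕ → ℝ}
    (hp : ∀ i, h (i + M) = h i) :
    Av (fun i : ZMod N => h i.val) = (∑ x ∈ range M, h x) / M := by
  obtain ⟨k, hk⟩ := hM
  have hN0 : N ≠ 0 := NeZero.ne N
  have hM0 : M ≠ 0 := by rintro rfl; simp at hk; exact hN0 hk
  have hk0 : k ≠ 0 := by rintro rfl; simp at hk; exact hN0 hk
  have hM' : (M : ℝ) ≠ 0 := by exact_mod_cast hM0
  have hk' : (k : ℝ) ≠ 0 := by exact_mod_cast hk0
  unfold Av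
  rw [sum_zmod_val]
  have h1 : range N = range (k * M) := by rw [hk, mul_comm]
  have h2 : (N : ℝ) = k * M := by rw [hk]; push_cast; ring
  rw [h1, sum_range_periodic hp, h2]
  field_simp

lemma sum_crt (m m' : ℕ) (hm : 0 < m) (hm' : 0 < m') (hco : m.Coprime m') (f g : ℕ → ℝ)
    (hf : ∀ i, f (i + m) = f i) (hg : ∀ i, g (i + m') = g i) :
    ∑ x ∈ range (m * m'), f x * g x = (∑ x ∈ range m, f x) * ∑ x ∈ range m', g x := by
  rw [sum_mul_sum, ← sum_product']
  refine Finset.sum_nbij' (fun x => (x % m, x % m'))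
    (fun ab => ((Nat.chineseRemainder hco ab.1 ab.2 : ℕ))) ?_ ?_ ?_ ?_ ?_
  · intro x _
    simp only [mem_product, mem_range]
    exact ⟨Nat.mod_lt _ hm, Nat.mod_lt _ hm'⟩
  · intro ab _
    exact mem_range.mpr (Nat.chineseRemainder_lt_mul hco _ _ hm.ne' hm'.ne')
  · intro x hx
    have h1 := (Nat.chineseRemainder hco (x % m) (x % m')).2
    have h2 : ((Nat.chineseRemainder hco (x % m) (x % m') : ℕ)) ≡ x [MOD m * m'] := by
      refine (Nat.modEq_and_modEq_iff_modEq_mul hco).mp ⟨?_, ?_⟩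
      · exact h1.1.trans (Nat.mod_modEq x m)
      · exact h1.2.trans (Nat.mod_modEq x m')
    exact Nat.ModEq.eq_of_lt_of_lt h2 (Nat.chineseRemainder_lt_mul hco _ _ hm.ne' hm'.ne')
      (mem_range.mp hx)
  · intro ab hab
    simp only [mem_product, mem_range] at hab
    have h1 := (Nat.chineseRemainder hco ab.1 ab.2).2
    refine Prod.ext ?_ ?_
    · have h2 : ((Nat.chineseRemainder hco ab.1 ab.2 : ℕ)) % m = ab.1 % m := h1.1
      simp only
      rw [h2]
      exact Nat.mod_eq_of_lt hab.1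
    · have h2 : ((Nat.chineseRemainder hco ab.1 ab.2 : ℕ)) % m' = ab.2 % m' := h1.2
      simp only
      rw [h2]
      exact Nat.mod_eq_of_lt hab.2
  · intro x _
    simp only
    rw [periodic_mod hf, periodic_mod hg]

/-- INDEP -/
theorem Av_indep {N : ℕ} [NeZero N] (m m' : ℕ) (hco : m.Coprime m') (hN : m * m' ∣ N)
    (f g : ℕ → ℝ) (hf : ∀ i, f (i + m) = f i) (hg : ∀ i, g (i + m') = g i) :
    Av (fun i : ZMod N => f i.val * g i.val) =
      Av (fun i : ZMod N => f i.val) * Av (fun i : ZMod N => g i.val) := by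
  have hN0 : N ≠ 0 := NeZero.ne N
  have hm : m ≠ 0 := by
    rintro rfl
    simp at hN; exact hN0 hN
  have hm' : m' ≠ 0 := by
    rintro rfl
    simp at hN; exact hN0 hN
  have hfg : ∀ i, (fun x => f x * g x) (i + m * m') = (fun x => f x * g x) i := by
    intro i
    simp only
    rw [mul_comm m m', periodic_mul hf, mul_comm m' m, periodic_mul hg]
  rw [Av_periodic (h := fun x => f x * g x) hN hfg,
    Av_periodic ((dvd_mul_right m m').trans hN) hf,
    Av_periodic ((dvd_mul_left m' m).trans hN) hg,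
    sum_crt m m' (Nat.pos_of_ne_zero hm) (Nat.pos_of_ne_zero hm') hco f g hf hg]
  push_cast
  rw [div_mul_div_comm]

lemma modEq_add_iff (x r p M : ℕ) (h : p ∣ M) : x + M ≡ r [MOD p] ↔ x ≡ r [MOD p] := by
  have h1 : x + M ≡ x [MOD p] := by
    have h2 : M ≡ 0 [MOD p] := (Nat.modEq_zero_iff_dvd).mpr h
    simpa using (Nat.ModEq.refl x).add h2
  exact ⟨fun h2 => h1.symm.trans h2, fun h2 => h1.trans h2⟩

/-- AVDV -/
theorem Av_Dv {N : ℕ} [NeZero N] (ρ : ℕ → ℕ) (κ : ℕ) (hκ : Squarefree κ) (hN : κ ∣ N) :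
    Av (fun i : ZMod N => ind (Dv ρ κ i)) = 1 / κ := by
  induction κ using induction_on_primes with
  | zero => exact absurd hκ not_squarefree_zero
  | one =>
    have : (fun i : ZMod N => ind (Dv ρ 1 i)) = fun _ => (1 : ℝ) := by
      funext i
      exact ind_of (by intro p hp; simp at hp)
    rw [this, Av_const]
    simp
  | prime_mul p a hp ih =>
    obtain ⟨hco, _, ha⟩ := Nat.squarefree_mul_iff.mp hκ
    have hp0 : 0 < p := hp.pos
    have ha0 : a ≠ 0 := ha.ne_zero
    have hind : (fun i : ZMod N => ind (Dv ρ (p * a) i)) =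
        fun i : ZMod N => (fun x : ℕ => ind (x ≡ ρ p [MOD p])) i.val *
          (fun x : ℕ => ind (∀ l ∈ a.primeFactors, x ≡ ρ l [MOD l])) i.val := by
      funext i
      simp only
      rw [ind_mul]
      congr 1
      unfold Dv
      rw [Nat.primeFactors_mul hp.ne_zero ha0, hp.primeFactors]
      apply propext
      constructor
      · intro h
        exact ⟨h p (by simp), fun l hl => h l (mem_union_right _ hl)⟩
      · rintro ⟨h1, h2⟩ l hl
        rcases mem_union.mp hl with h3 | h3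
        · rw [mem_singleton.mp h3]; exact h1
        · exact h2 l h3
    have hf : ∀ i, (fun x : ℕ => ind (x ≡ ρ p [MOD p])) (i + p) =
        (fun x : ℕ => ind (x ≡ ρ p [MOD p])) i := by
      intro i
      simp only
      rw [modEq_add_iff _ _ _ _ dvd_rfl]
    have hg : ∀ i, (fun x : ℕ => ind (∀ l ∈ a.primeFactors, x ≡ ρ l [MOD l])) (i + a) =
        (fun x : ℕ => ind (∀ l ∈ a.primeFactors, x ≡ ρ l [MOD l])) i := by
      intro i
      simp only
      congr 1
      apply propext
      constructor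
      · intro h l hl
        exact (modEq_add_iff _ _ _ _ (Nat.dvd_of_mem_primeFactors hl)).mp (h l hl)
      · intro h l hl
        exact (modEq_add_iff _ _ _ _ (Nat.dvd_of_mem_primeFactors hl)).mpr (h l hl)
    have key := Av_indep p a hco hN (fun x : ℕ => ind (x ≡ ρ p [MOD p]))
      (fun x : ℕ => ind (∀ l ∈ a.primeFactors, x ≡ ρ l [MOD l])) hf hg
    rw [hind]
    refine key.trans ?_
    have h2 : Av (fun i : ZMod N =>
        (fun x : ℕ => ind (∀ l ∈ a.primeFactors, x ≡ ρ l [MOD l])) i.val) = 1 / a :=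
      ih ha ((dvd_mul_left a p).trans hN)
    have h2' := Av_periodic (h := fun x : ℕ => ind (x ≡ ρ p [MOD p]))
      ((dvd_mul_right p a).trans hN) hf
    rw [h2, h2']
    have h3 : ∑ x ∈ range p, (fun x : ℕ => ind (x ≡ ρ p [MOD p])) x = 1 := by
      rw [sum_eq_single_of_mem (ρ p % p) (mem_range.mpr (Nat.mod_lt _ hp0))]
      · exact ind_of (Nat.mod_modEq _ _)
      · intro x hx hne
        apply ind_not
        intro h4
        apply hne
        have h5 : x % p = ρ p % p := h4
        rw [Nat.mod_eq_of_lt (mem_range.mp hx)] at h5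
        exact h5
    rw [h3]
    push_cast
    rw [div_mul_div_comm, one_mul]

end Pool.Agent.OmQ
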