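import Pool.Agent.Lib_MP_f1a94e_q.Defs
import Pool.Agent.Lib_MP_f1a94e_q.Mlt

set_option autoImplicit false

namespace Pool.Agent.OmQ

open Finset LibLS

theorem chain_dvd {W : ℕ → ℕ} (hWW : ∀ t, W t ∣ W (t + 1)) (s : ℕ) : ∀ d, W s ∣ W (s + d) := by
  intro d
  induction d with
  | zero => exact dvd_refl _
  | succ d ih => exact ih.trans (hWW (s + d))

theorem chain_nrm {W : ℕ → ℕ} (hW : ∀ t, 0 < W t) (hWW : ∀ t, W t ∣ W (t + 1)) {s t T0 : ℕ}
    (hst : s ≤ t) (htT : t ≤ T0) (θ : ℝ) : nrm (W t * θ) ≤ W T0 * nrm (W s * θ) := by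
  obtain ⟨d, rfl⟩ := Nat.exists_eq_add_of_le hst
  obtain ⟨k, hk⟩ := chain_dvd hWW s d
  obtain ⟨d', rfl⟩ := Nat.exists_eq_add_of_le htT
  have h1 : W (s + d) ≤ W (s + d + d') := Nat.le_of_dvd (hW _) (chain_dvd hWW (s + d) d')
  have h2 : k ≤ W (s + d + d') := by
    have h3 : k ≤ W s * k := Nat.le_mul_of_pos_left k (hW s)
    rw [← hk] at h3
    exact h3.trans h1
  have h4 := nrm_mul_le k (W s * θ)
  have h5 : (W (s + d) : ℝ) * θ = k * (W s * θ) := by
    rw [hk]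
    push_cast
    ring
  rw [h5]
  refine h4.trans (mul_le_mul_of_nonneg_right ?_ (nrm_nonneg _))
  exact_mod_cast h2

/-- PIG -/
theorem pig (T0 J : ℕ) (W : ℕ → ℕ) (hW : ∀ t, 0 < W t) (hWW : ∀ t, W t ∣ W (t + 1)) (nn : ℕ → ℕ)
    (α β R : ℝ) (hα : 0 < α) (hβ : 0 < β)
    (hsp : ∀ j j', j < j' → j' < J → R * 2 ^ nn j ≤ 2 ^ nn j')
    (hR : W T0 * β ≤ R * α) (θ : ℝ) :
    ∑ t ∈ range T0, ∑ j ∈ range J,
      ind (α / 2 ^ nn j < nrm (W t * θ) ∧ nrm (W (t + 1) * θ) < β / 2 ^ nn j) ≤ T0 + J := by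
  classical
  set P : ℕ × ℕ → Prop := fun x =>
    α / 2 ^ nn x.2 < nrm (W x.1 * θ) ∧ nrm (W (x.1 + 1) * θ) < β / 2 ^ nn x.2 with hP
  set M : Finset (ℕ × ℕ) := (range T0 ×ˢ range J).filter P with hM
  have hsum : ∑ t ∈ range T0, ∑ j ∈ range J,
      ind (α / 2 ^ nn j < nrm (W t * θ) ∧ nrm (W (t + 1) * θ) < β / 2 ^ nn j) = M.card := by
    rw [← sum_product', hM, card_filter]
    push_cast
    refine sum_congr rfl fun x _ => ?_
    by_cases h : P x
    · rw [if_pos h]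
      exact ind_of h
    · rw [if_neg h]
      exact ind_not h
  rw [hsum]
  have key : ∀ t t' j j', (t, j) ∈ M → (t, j') ∈ M → j < j' → t < t' → (t', j) ∉ M := by
    intro t t' j j' h1 h2 hj ht h3
    rw [hM, mem_filter, mem_product] at h1 h2 h3
    have hj' : j' < J := mem_range.mp h2.1.2
    have ht' : t' < T0 := mem_range.mp h3.1.1
    have h4 : nrm (W (t + 1) * θ) < β / 2 ^ nn j' := h2.2.2
    have h5 : α / 2 ^ nn j < nrm (W t' * θ) := h3.2.1
    have h6 : nrm (W t' * θ) ≤ W T0 * nrm (W (t + 1) * θ) := chain_nrm hW hWW ht ht'.le θ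
    have hWT : (0 : ℝ) < W T0 := by exact_mod_cast hW T0
    have h7 : (W T0 : ℝ) * nrm (W (t + 1) * θ) < W T0 * (β / 2 ^ nn j') :=
      mul_lt_mul_of_pos_left h4 hWT
    have hp : (0 : ℝ) < 2 ^ nn j := by positivity
    have hp' : (0 : ℝ) < 2 ^ nn j' := by positivity
    have h8 : (W T0 : ℝ) * (β / 2 ^ nn j') ≤ α / 2 ^ nn j := by
      rw [← mul_div_assoc, div_le_div_iff₀ hp' hp]
      have h9 := hsp j j' hj hj'
      calc (W T0 : ℝ) * β * 2 ^ nn j ≤ R * α * 2 ^ nn j := mul_le_mul_of_nonneg_right hR hp.le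
        _ = α * (R * 2 ^ nn j) := by ring
        _ ≤ α * 2 ^ nn j' := mul_le_mul_of_nonneg_left h9 hα.le
    linarith
  let φ : ℕ × ℕ → ℕ ⊕ ℕ := fun x => if ∃ j', x.2 < j' ∧ (x.1, j') ∈ M then Sum.inr x.2 else Sum.inl x.1
  have hmaps : ∀ x ∈ M, φ x ∈ (range T0).disjSum (range J) := by
    intro x hx
    have hx' := hx
    rw [hM, mem_filter, mem_product] at hx'
    by_cases h : ∃ j', x.2 < j' ∧ (x.1, j') ∈ M
    · simp only [φ, if_pos h]
      exact inr_mem_disjSum.mpr hx'.1.2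
    · simp only [φ, if_neg h]
      exact inl_mem_disjSum.mpr hx'.1.1
  have hinj : Set.InjOn φ (M : Set (ℕ × ℕ)) := by
    rintro ⟨t1, j1⟩ hx ⟨t2, j2⟩ hy hxy
    have hx' : (t1, j1) ∈ M := hx
    have hy' : (t2, j2) ∈ M := hy
    by_cases h1 : ∃ j', j1 < j' ∧ (t1, j') ∈ M
    · by_cases h2 : ∃ j', j2 < j' ∧ (t2, j') ∈ M
      · simp only [φ, if_pos h1, if_pos h2, Sum.inr.injEq] at hxy
        subst hxy
        obtain ⟨j', hj', hm'⟩ := h1
        obtain ⟨j'', hj'', hm''⟩ := h2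
        rcases lt_trichotomy t1 t2 with h | h | h
        · exact absurd hy' (key t1 t2 j1 j' hx' hm' hj' h)
        · rw [h]
        · exact absurd hx' (key t2 t1 j1 j'' hy' hm'' hj'' h)
      · simp only [φ, if_pos h1, if_neg h2] at hxy
        exact absurd hxy (by simp)
    · by_cases h2 : ∃ j', j2 < j' ∧ (t2, j') ∈ M
      · simp only [φ, if_neg h1, if_pos h2] at hxy
        exact absurd hxy (by simp)
      · simp only [φ, if_neg h1, if_neg h2, Sum.inl.injEq] at hxy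
        subst hxy
        rcases lt_trichotomy j1 j2 with h | h | h
        · exact absurd ⟨j2, h, hy'⟩ h1
        · rw [h]
        · exact absurd ⟨j1, h, hx'⟩ h2
  have hcard := card_le_card_of_injOn φ hmaps hinj
  rw [card_disjSum, card_range, card_range] at hcard
  exact_mod_cast hcard

end Pool.Agent.OmQ
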