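import Pool.Agent.Lib_MP_f1a94e_q.Defs

set_option autoImplicit false

namespace Pool.Agent.OmQ

open Finset LibLS

/-- the completely multiplicative function `1/n` -/
noncomputable def invHom : ℕ →* ℝ where
  toFun n := (n : ℝ)⁻¹
  map_one' := by simp
  map_mul' a b := by push_cast; rw [mul_inv]

/-- the sum of `1/m` over `m ≤ Q` with a given radical -/
theorem sum_rad_le (Q r : ℕ) (hr : 0 < r) :
    ∑ m ∈ (Icc 1 Q).filter (fun m => ∏ p ∈ m.primeFactors, p = r), (1 : ℝ) / m ≤
      1 / (Nat.totient r) := by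
  classical
  have hprod : ∏ p ∈ r.primeFactors, (1 - (p : ℝ)⁻¹)⁻¹ = r / (Nat.totient r) := by
    have h1 : ((Nat.totient r : ℚ) : ℝ) = ((r * ∏ p ∈ r.primeFactors, (1 - (p : ℚ)⁻¹) : ℚ) : ℝ) := by
      rw [Nat.totient_eq_mul_prod_factors]
    push_cast at h1
    rw [h1, Finset.prod_inv_distrib]
    have hr' : (r : ℝ) ≠ 0 := by exact_mod_cast hr.ne'
    rw [div_mul_eq_div_div, div_self hr', one_div]
  have hE := (EulerProduct.summable_and_hasSum_factoredNumbers_prod_filter_prime_geometric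
    (f := invHom) (fun {p} hp => by
      change ‖((p : ℝ)⁻¹)‖ < 1
      rw [norm_inv, Real.norm_natCast]
      exact inv_lt_one_of_one_lt₀ (by exact_mod_cast hp.one_lt)) r.primeFactors).2
  have hfil : r.primeFactors.filter Nat.Prime = r.primeFactors :=
    filter_true_of_mem fun p hp => Nat.prime_of_mem_primeFactors hp
  rw [hfil] at hE
  have hE' : HasSum (fun m : Nat.factoredNumbers r.primeFactors => ((m : ℕ) : ℝ)⁻¹)
      (r / (Nat.totient r)) := by
    rw [← hprod]
    exact hE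
  -- the set of quotients
  set A := (Icc 1 Q).filter (fun m => ∏ p ∈ m.primeFactors, p = r) with hA
  have hAm : ∀ m ∈ A, 0 < m ∧ r ∣ m ∧ m.primeFactors ⊆ r.primeFactors := by
    intro m hm
    rw [hA, mem_filter, mem_Icc] at hm
    have hm0 : 0 < m := hm.1.1
    refine ⟨hm0, ?_, ?_⟩
    · rw [← hm.2]
      exact Nat.prod_primeFactors_dvd m
    · intro p hp
      rw [Nat.mem_primeFactors]
      refine ⟨Nat.prime_of_mem_primeFactors hp, ?_, hr.ne'⟩
      rw [← hm.2]
      exact dvd_prod_of_mem _ hp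
  have hmem : ∀ m ∈ A, m / r ∈ Nat.factoredNumbers r.primeFactors := by
    intro m hm
    obtain ⟨h0, h1, h2⟩ := hAm m hm
    refine Nat.mem_factoredNumbers_of_primeFactors_subset ?_ ?_
    · exact (Nat.div_pos (Nat.le_of_dvd h0 h1) hr).ne'
    · exact (Nat.primeFactors_mono (Nat.div_dvd_of_dvd h1) h0.ne').trans h2
  let F : A → Nat.factoredNumbers r.primeFactors := fun m => ⟨(m : ℕ) / r, hmem m m.2⟩
  have hF : Function.Injective F := by
    intro a b hab
    have h : (a : ℕ) / r = (b : ℕ) / r := congrArg Subtype.val hab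
    apply Subtype.ext
    have h1 := Nat.div_mul_cancel (hAm a a.2).2.1
    have h2 := Nat.div_mul_cancel (hAm b b.2).2.1
    rw [← h1, ← h2, h]
  have hle : ∑ m : A, (((m : ℕ) / r : ℕ) : ℝ)⁻¹ ≤ r / (Nat.totient r) := by
    have h3 := sum_le_hasSum (univ.map ⟨F, hF⟩) (fun i _ => by positivity) hE'
    rw [sum_map] at h3
    exact h3
  have hr' : (0 : ℝ) < r := by exact_mod_cast hr
  calc ∑ m ∈ A, (1 : ℝ) / m = ∑ m : A, (1 : ℝ) / (m : ℕ) := (sum_coe_sort A fun m => (1 : ℝ) / m).symm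
    _ = ∑ m : A, (1 / (r : ℝ)) * (((m : ℕ) / r : ℕ) : ℝ)⁻¹ := by
        apply sum_congr rfl
        intro m _
        have h1 := Nat.div_mul_cancel (hAm m m.2).2.1
        have h2 : ((m : ℕ) : ℝ) = (((m : ℕ) / r : ℕ) : ℝ) * r := by exact_mod_cast h1.symm
        rw [h2]
        have h3 : (0 : ℝ) < (((m : ℕ) / r : ℕ) : ℝ) := by
          have := Nat.div_pos (Nat.le_of_dvd (hAm m m.2).1 (hAm m m.2).2.1) hr
          exact_mod_cast this
        field_simp
    _ = (1 / (r : ℝ)) * ∑ m : A, (((m : ℕ) / r : ℕ) : ℝ)⁻¹ := by rw [mul_sum]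
    _ ≤ (1 / (r : ℝ)) * (r / (Nat.totient r)) := mul_le_mul_of_nonneg_left hle (by positivity)
    _ = 1 / (Nat.totient r) := by
        have : (0 : ℝ) < Nat.totient r := by exact_mod_cast Nat.totient_pos.mpr hr
        field_simp

/-- GSUM1 -/
theorem gsum_one (Q : ℕ) (hQ : 0 < Q) :
    Real.log Q ≤ ∑ r ∈ (Icc 1 Q).filter (fun r => Squarefree r), (1 : ℝ) / (Nat.totient r) := by
  classical
  have hQr : (0 : ℝ) < Q := by exact_mod_cast hQ
  have h1 : Real.log Q ≤ ∑ m ∈ Icc 1 Q, (1 : ℝ) / m := by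
    have h2 := log_add_one_le_harmonic Q
    have h3 : ((harmonic Q : ℚ) : ℝ) = ∑ m ∈ Icc 1 Q, (1 : ℝ) / m := by
      rw [harmonic_eq_sum_Icc]
      push_cast
      simp
    rw [← h3]
    refine le_trans ?_ h2
    apply Real.log_le_log hQr
    push_cast
    linarith
  refine h1.trans ?_
  have hmaps : ∀ m ∈ Icc 1 Q, ∏ p ∈ m.primeFactors, p ∈
      (Icc 1 Q).filter (fun r => Squarefree r) := by
    intro m hm
    rw [mem_Icc] at hm
    have hdvd := Nat.prod_primeFactors_dvd m
    have hle := Nat.le_of_dvd (by omega) hdvd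
    have hpos : 0 < ∏ p ∈ m.primeFactors, p := Nat.pos_of_dvd_of_pos hdvd (by omega)
    rw [mem_filter, mem_Icc]
    refine ⟨⟨hpos, hle.trans hm.2⟩, ?_⟩
    refine Finset.squarefree_prod_of_pairwise_isCoprime (fun p hp q hq hpq => ?_)
      fun p hp => ?_
    · exact Nat.coprime_iff_isRelPrime.mp ((Nat.coprime_primes (Nat.prime_of_mem_primeFactors hp)
        (Nat.prime_of_mem_primeFactors hq)).mpr hpq)
    · exact (Nat.prime_of_mem_primeFactors hp).squarefree
  rw [← sum_fiberwise_of_maps_to hmaps]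
  apply sum_le_sum
  intro r hr
  rw [mem_filter, mem_Icc] at hr
  exact sum_rad_le Q r (by omega)

end Pool.Agent.OmQ
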