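import Pool.Agent.Lib_MP_f1a94e_q.Defs
import Pool.Agent.Lib_MP_f1a94e_q.Gsum1

set_option autoImplicit false

namespace Pool.Agent.OmQ

open Finset LibLS

/-- removing one more prime costs at most a factor `1 - 1/l` -/
theorem gsum_step (E : Finset ℕ) (l : ℕ) (hl : l.Prime) (Q : ℕ) :
    (1 - 1 / (l : ℝ)) *
      ∑ r ∈ (Icc 1 Q).filter (fun r => Squarefree r ∧ ∀ l ∈ E, ¬ l ∣ r), (1 : ℝ) / (Nat.totient r) ≤
      ∑ r ∈ (Icc 1 Q).filter (fun r => Squarefree r ∧ ∀ l' ∈ insert l E, ¬ l' ∣ r),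
        (1 : ℝ) / (Nat.totient r) := by
  classical
  set A := (Icc 1 Q).filter (fun r => Squarefree r ∧ ∀ l ∈ E, ¬ l ∣ r) with hA
  set B := (Icc 1 Q).filter (fun r => Squarefree r ∧ ∀ l' ∈ insert l E, ¬ l' ∣ r) with hB
  have hl1 : (1 : ℝ) < l := by exact_mod_cast hl.one_lt
  have hsplit := sum_filter_add_sum_filter_not A (fun r => l ∣ r) (fun r => (1 : ℝ) / (Nat.totient r))
  have h1 : A.filter (fun r => ¬ l ∣ r) = B := by
    ext r
    simp only [hA, hB, mem_filter, mem_Icc, mem_insert, forall_eq_or_imp]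
    tauto
  have h2 : ∑ r ∈ A.filter (fun r => l ∣ r), (1 : ℝ) / (Nat.totient r) ≤
      ∑ r ∈ B, (1 / ((l : ℝ) - 1)) * ((1 : ℝ) / (Nat.totient r)) := by
    have hmem : ∀ r ∈ A.filter (fun r => l ∣ r), r / l ∈ B ∧ r / l * l = r ∧
        Nat.Coprime l (r / l) := by
      intro r hr
      rw [mem_filter, hA, mem_filter, mem_Icc] at hr
      obtain ⟨⟨⟨h1, h2⟩, h3, h4⟩, h5⟩ := hr
      obtain ⟨k, rfl⟩ := h5
      have hk : l * k / l = k := Nat.mul_div_cancel_left k hl.pos
      rw [hk]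
      have hcop : Nat.Coprime l k := Nat.coprime_of_squarefree_mul h3
      refine ⟨?_, mul_comm _ _, hcop⟩
      rw [hB, mem_filter, mem_Icc]
      have hkpos : 0 < k := Nat.pos_of_ne_zero (by rintro rfl; simp at h1)
      refine ⟨⟨hkpos, le_trans (Nat.le_mul_of_pos_left k hl.pos) h2⟩,
        h3.squarefree_of_dvd (Dvd.intro_left l rfl), ?_⟩
      intro l' hl'
      rw [mem_insert] at hl'
      rcases hl' with rfl | hl'
      · exact (Nat.Prime.coprime_iff_not_dvd hl).mp hcop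
      · exact fun hd => h4 l' hl' (hd.trans (Dvd.intro_left l rfl))
    have hinj : Set.InjOn (fun r => r / l) (A.filter (fun r => l ∣ r)) := by
      intro a ha b hb hab
      have ha' := (hmem a ha).2.1
      have hb' := (hmem b hb).2.1
      simp only at hab
      rw [← ha', ← hb', hab]
    calc ∑ r ∈ A.filter (fun r => l ∣ r), (1 : ℝ) / (Nat.totient r)
        = ∑ r ∈ A.filter (fun r => l ∣ r),
            (1 / ((l : ℝ) - 1)) * ((1 : ℝ) / (Nat.totient (r / l))) := by
          apply sum_congr rfl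
          intro r hr
          obtain ⟨_, h4, h5⟩ := hmem r hr
          have h6 : Nat.totient r = (l - 1) * Nat.totient (r / l) := by
            conv_lhs => rw [← h4, mul_comm]
            rw [Nat.totient_mul h5, Nat.totient_prime hl]
          rw [h6]
          push_cast [Nat.cast_sub hl.one_lt.le]
          rw [one_div_mul_one_div]
      _ = ∑ r ∈ (A.filter (fun r => l ∣ r)).image (fun r => r / l),
            (1 / ((l : ℝ) - 1)) * ((1 : ℝ) / (Nat.totient r)) := by
          rw [sum_image hinj]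
      _ ≤ ∑ r ∈ B, (1 / ((l : ℝ) - 1)) * ((1 : ℝ) / (Nat.totient r)) := by
          apply sum_le_sum_of_subset_of_nonneg
          · intro s hs
            rw [mem_image] at hs
            obtain ⟨r, hr, rfl⟩ := hs
            exact (hmem r hr).1
          · intro i _ _
            have : (0 : ℝ) < (l : ℝ) - 1 := by linarith
            positivity
  rw [← hsplit, h1]
  rw [← mul_sum] at h2
  have hB0 : 0 ≤ ∑ r ∈ B, (1 : ℝ) / (Nat.totient r) := sum_nonneg fun i _ => by positivity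
  have hc : 0 ≤ 1 - 1 / (l : ℝ) := by
    rw [sub_nonneg, div_le_one (by linarith)]
    exact hl1.le
  calc (1 - 1 / (l : ℝ)) * (∑ r ∈ A.filter (fun r => l ∣ r), (1 : ℝ) / (Nat.totient r) +
        ∑ r ∈ B, (1 : ℝ) / (Nat.totient r))
      ≤ (1 - 1 / (l : ℝ)) * ((1 / ((l : ℝ) - 1)) * ∑ r ∈ B, (1 : ℝ) / (Nat.totient r) +
        ∑ r ∈ B, (1 : ℝ) / (Nat.totient r)) := by
        apply mul_le_mul_of_nonneg_left _ hc
        linarith
    _ = ∑ r ∈ B, (1 : ℝ) / (Nat.totient r) := by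
        have h3 : (l : ℝ) - 1 ≠ 0 := by
          have : (0 : ℝ) < (l : ℝ) - 1 := by linarith
          exact this.ne'
        have h4 : (l : ℝ) ≠ 0 := by linarith
        field_simp
        ring

/-- GSUM -/
theorem gsum (E : Finset ℕ) (hE : ∀ l ∈ E, l.Prime) (Q : ℕ) (hQ : 0 < Q) :
    (1 - ∑ l ∈ E, (1 : ℝ) / l) * Real.log Q ≤
      ∑ r ∈ (Icc 1 Q).filter (fun r => Squarefree r ∧ ∀ l ∈ E, ¬ l ∣ r), (1 : ℝ) / (Nat.totient r) := by
  classical
  have hL : 0 ≤ Real.log Q := Real.log_nonneg (by exact_mod_cast hQ)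
  induction E using Finset.induction_on with
  | empty =>
    simp only [sum_empty, sub_zero, one_mul, notMem_empty, IsEmpty.forall_iff, implies_true,
      and_true]
    exact gsum_one Q hQ
  | insert l E hlE ih =>
    have ih' := ih fun l' hl' => hE l' (mem_insert_of_mem hl')
    have hl : l.Prime := hE l (mem_insert_self l E)
    have hl1 : (1 : ℝ) < l := by exact_mod_cast hl.one_lt
    have hc : 0 ≤ 1 - 1 / (l : ℝ) := by
      rw [sub_nonneg, div_le_one (by linarith)]
      exact hl1.le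
    have h1 := gsum_step E l hl Q
    refine le_trans ?_ h1
    refine le_trans ?_ (mul_le_mul_of_nonneg_left ih' hc)
    rw [sum_insert hlE]
    have hS : 0 ≤ ∑ l ∈ E, (1 : ℝ) / l := sum_nonneg fun i _ => by positivity
    have hli : 0 ≤ 1 / (l : ℝ) := by positivity
    have h5 : (1 - 1 / (l : ℝ)) * ((1 - ∑ l ∈ E, (1 : ℝ) / l) * Real.log Q) -
        (1 - (1 / (l : ℝ) + ∑ l ∈ E, (1 : ℝ) / l)) * Real.log Q =
        (1 / (l : ℝ)) * (∑ l ∈ E, (1 : ℝ) / l) * Real.log Q := by ring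
    have h6 : 0 ≤ (1 / (l : ℝ)) * (∑ l ∈ E, (1 : ℝ) / l) * Real.log Q :=
      mul_nonneg (mul_nonneg hli hS) hL
    linarith

end Pool.Agent.OmQ
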