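import Pool.Agent.Lib_MP_f1a94e_q.Defs

set_option autoImplicit false

namespace Pool.Agent.OmQ

open Finset LibLS

/-- the approximating rational number -/
def bet (r r' : ℕ) (b b' z : ℤ) : ℚ := (z : ℚ) + (b' : ℚ) / (r' : ℚ) - (b : ℚ) / (r : ℚ)

lemma den_div_dvd (b : ℤ) (r : ℕ) : ((b : ℚ) / (r : ℚ)).den ∣ r := by
  have h := Rat.den_dvd b (r : ℤ)
  rw [Rat.divInt_eq_div] at h
  have h2 : (((b : ℚ) / ((r : ℤ) : ℚ)).den : ℤ) ∣ (r : ℤ) := h
  rw [Int.cast_natCast] at h2
  exact_mod_cast h2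

lemma bet_den (r r' : ℕ) (b b' z : ℤ) : (bet r r' b b' z).den ∣ Nat.lcm r r' := by
  unfold bet
  refine (Rat.sub_den_dvd_lcm _ _).trans ?_
  apply Nat.lcm_dvd
  · refine (Rat.add_den_dvd_lcm _ _).trans ?_
    apply Nat.lcm_dvd
    · simp
    · exact (den_div_dvd b' r').trans (Nat.dvd_lcm_right r r')
  · exact (den_div_dvd b r).trans (Nat.dvd_lcm_left r r')

lemma squarefree_lcm' (r r' : ℕ) (hr : Squarefree r) (hr' : Squarefree r') :
    Squarefree (Nat.lcm r r') := by
  have h0 : r ≠ 0 := hr.ne_zero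
  have h0' : r' ≠ 0 := hr'.ne_zero
  rw [Nat.squarefree_iff_factorization_le_one (Nat.lcm_ne_zero h0 h0')]
  intro p
  rw [Nat.factorization_lcm h0 h0', Finsupp.sup_apply]
  exact sup_le ((Nat.squarefree_iff_factorization_le_one h0).mp hr p)
    ((Nat.squarefree_iff_factorization_le_one h0').mp hr' p)

lemma bet_cast (r r' : ℕ) (b b' z : ℤ) (x : ℝ) :
    x + b / r - b' / r' - z = x - ((bet r r' b b' z : ℚ) : ℝ) := by
  unfold bet
  push_cast
  ring

/-- two close rational numbers with small denominators are equal -/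
lemma rat_eq_of_close (u v : ℚ) (M : ℕ) (hu : u.den ≤ M) (hv : v.den ≤ M) (η : ℝ)
    (hη : η * M ^ 2 < 1) (h : |(u : ℝ) - (v : ℝ)| < η) : u = v := by
  by_contra hne
  have hu0 : (0 : ℝ) < u.den := by exact_mod_cast u.den_pos
  have hv0 : (0 : ℝ) < v.den := by exact_mod_cast v.den_pos
  have hη0 : 0 < η := lt_of_le_of_lt (abs_nonneg _) h
  have h1 : (u : ℝ) * u.den = u.num := by
    have := Rat.mul_den_eq_num u
    exact_mod_cast this
  have h2 : (v : ℝ) * v.den = v.num := by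
    have := Rat.mul_den_eq_num v
    exact_mod_cast this
  have h3 : ((u : ℝ) - v) * (u.den * v.den) = ((u.num * v.den - v.num * u.den : ℤ) : ℝ) := by
    push_cast
    rw [← h1, ← h2]
    ring
  have h4 : u.num * v.den - v.num * u.den ≠ 0 := by
    intro h0
    rw [h0] at h3
    have h5 : (u : ℝ) - v = 0 := by
      rcases mul_eq_zero.mp (h3.trans (by norm_num)) with h6 | h6
      · exact h6
      · exact absurd h6 (by positivity)
    apply hne
    have : (u : ℝ) = v := by linarith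
    exact_mod_cast this
  have h5 : (1 : ℝ) ≤ |((u.num * v.den - v.num * u.den : ℤ) : ℝ)| := by
    rw [← Int.cast_abs]
    exact_mod_cast Int.one_le_abs h4
  rw [← h3, abs_mul, abs_of_pos (mul_pos hu0 hv0)] at h5
  have h6 : (u.den : ℝ) * v.den ≤ (M : ℝ) ^ 2 := by
    rw [sq]
    have a1 : (u.den : ℝ) ≤ M := by exact_mod_cast hu
    have a2 : (v.den : ℝ) ≤ M := by exact_mod_cast hv
    exact mul_le_mul a1 a2 hv0.le (hu0.le.trans a1)
  have h7 : |(u : ℝ) - v| * (u.den * v.den) ≤ η * M ^ 2 :=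
    mul_le_mul h.le h6 (mul_pos hu0 hv0).le hη0.le
  linarith

/-- PAIR -/
theorem pair_prime (y Q : ℕ) (δ : ℝ) (hδ : 0 < δ) (hQ : 2 * δ * Q ^ 4 < 1) (x : ℝ) :
    (∃ d : ℕ, 0 < d ∧ d ∣ ∏ p ∈ (range y).filter Nat.Prime, p ∧ nrm (d * x) ≤ d * δ) ∨
    ∃ l : ℕ, l.Prime ∧ y ≤ l ∧ ∀ r r' : ℕ, 0 < r → 0 < r' → r ≤ Q → r' ≤ Q → Squarefree r →
      Squarefree r' → ¬ l ∣ r → ¬ l ∣ r' → ∀ b b' z : ℤ, δ ≤ |x + b / r - b' / r' - z| := by
  by_cases hco : ∃ r r' : ℕ, 0 < r ∧ 0 < r' ∧ r ≤ Q ∧ r' ≤ Q ∧ Squarefree r ∧ Squarefree r' ∧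
      ∃ b b' z : ℤ, |x + b / r - b' / r' - z| < δ
  · obtain ⟨r, r', hr, hr', hrQ, hrQ', hs, hs', b, b', z, hlt⟩ := hco
    set β := bet r r' b b' z with hβ
    have hlt' : |x - (β : ℝ)| < δ := by
      rw [bet_cast] at hlt
      exact hlt
    have hden : β.den ∣ Nat.lcm r r' := bet_den r r' b b' z
    have hsq : Squarefree β.den := (squarefree_lcm' r r' hs hs').squarefree_of_dvd hden
    have hle : ∀ t t' : ℕ, 0 < t → 0 < t' → t ≤ Q → t' ≤ Q → ∀ c c' w : ℤ,
        (bet t t' c c' w).den ≤ Q ^ 2 := by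
      intro t t' ht ht' htQ htQ' c c' w
      have h1 : (bet t t' c c' w).den ≤ Nat.lcm t t' :=
        Nat.le_of_dvd (Nat.lcm_pos ht ht') (bet_den t t' c c' w)
      have h2 : Nat.lcm t t' ≤ t * t' := Nat.le_of_dvd (Nat.mul_pos ht ht') (Nat.lcm_dvd_mul t t')
      have h3 : t * t' ≤ Q * Q := Nat.mul_le_mul htQ htQ'
      rw [sq]
      omega
    by_cases hbig : ∃ l : ℕ, l.Prime ∧ l ∣ β.den ∧ y ≤ l
    · obtain ⟨l, hl, hld, hyl⟩ := hbig
      right
      refine ⟨l, hl, hyl, ?_⟩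
      intro t t' ht ht' htQ htQ' _ _ hlt1 hlt2 c c' w
      by_contra hlt3
      push Not at hlt3
      rw [bet_cast] at hlt3
      have hclose : |(β : ℝ) - (bet t t' c c' w : ℚ)| < 2 * δ := by
        calc |(β : ℝ) - (bet t t' c c' w : ℚ)|
            = |(x - (bet t t' c c' w : ℚ)) - (x - β)| := by congr 1; ring
          _ ≤ |x - (bet t t' c c' w : ℚ)| + |x - β| := abs_sub _ _
          _ < 2 * δ := by linarith
      have heq : β = bet t t' c c' w := by
        apply rat_eq_of_close β _ (Q ^ 2) (hle r r' hr hr' hrQ hrQ' b b' z)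
          (hle t t' ht ht' htQ htQ' c c' w) (2 * δ) _ hclose
        push_cast
        rw [← pow_mul]
        exact hQ
      have h1 : l ∣ t * t' := by
        rw [heq] at hld
        exact (hld.trans (bet_den t t' c c' w)).trans (Nat.lcm_dvd_mul t t')
      rcases hl.dvd_mul.mp h1 with h2 | h2
      · exact hlt1 h2
      · exact hlt2 h2
    · push Not at hbig
      left
      refine ⟨β.den, β.den_pos, ?_, ?_⟩
      · rw [← Nat.prod_primeFactors_of_squarefree hsq]
        apply Finset.prod_dvd_prod_of_subset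
        intro p hp
        have hpp := Nat.prime_of_mem_primeFactors hp
        rw [mem_filter, mem_range]
        exact ⟨hbig p hpp (Nat.dvd_of_mem_primeFactors hp), hpp⟩
      · have h1 : (β : ℝ) * β.den = β.num := by
          have := Rat.mul_den_eq_num β
          exact_mod_cast this
        have hd0 : (0 : ℝ) < β.den := by exact_mod_cast β.den_pos
        calc nrm (β.den * x) ≤ |β.den * x - (β.num : ℝ)| := round_le _ _
          _ = |(β.den : ℝ) * (x - β)| := by
            rw [← h1]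
            congr 1
            ring
          _ = β.den * |x - β| := by rw [abs_mul, abs_of_pos hd0]
          _ ≤ β.den * δ := mul_le_mul_of_nonneg_left hlt'.le hd0.le
  · push Not at hco
    right
    obtain ⟨l, hl, hp⟩ := Nat.exists_infinite_primes y
    refine ⟨l, hp, hl, ?_⟩
    intro r r' hr hr' hrQ hrQ' hs hs' _ _ b b' z
    exact hco r r' hr hr' hrQ hrQ' hs hs' b b' z

end Pool.Agent.OmQ
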