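import Pool.Agent.Lib_MP_f1a94e_q.Defs

set_option autoImplicit false

namespace Pool.Agent.OmQ

open Finset LibLS

lemma ram_coprime_ind (b r : ℕ) (hr : r ≠ 0) :
    (∑ d ∈ r.divisors, if d ∣ b then ArithmeticFunction.moebius d else 0) =
      if b.Coprime r then 1 else 0 := by
  rw [← Finset.sum_filter]
  have h1 : r.divisors.filter (fun d => d ∣ b) = (Nat.gcd b r).divisors := by
    ext d
    simp only [Finset.mem_filter, Nat.mem_divisors]
    constructor
    · rintro ⟨⟨h1, _⟩, h3⟩
      exact ⟨Nat.dvd_gcd h3 h1, Nat.gcd_ne_zero_right hr⟩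
    · rintro ⟨h1, _⟩
      exact ⟨⟨h1.trans (Nat.gcd_dvd_right b r), hr⟩, h1.trans (Nat.gcd_dvd_left b r)⟩
  rw [h1, ← ArithmeticFunction.coe_mul_zeta_apply, ArithmeticFunction.moebius_mul_coe_zeta,
    ArithmeticFunction.one_apply]

lemma ram_geom (s p : ℕ) (hs : s ≠ 0) (hp : p.Coprime s) :
    (∑ c ∈ range s, e (c * (p / s : ℝ))) = if s = 1 then 1 else 0 := by
  by_cases h1 : s = 1
  · subst h1
    simp [e_zero]
  · rw [if_neg h1]
    have hs' : (s : ℝ) ≠ 0 := by exact_mod_cast hs
    have hne : e (p / s : ℝ) ≠ 1 := by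
      intro h
      unfold e at h
      rw [Complex.exp_eq_one_iff] at h
      obtain ⟨n, hn⟩ := h
      have h2 : (2 * Real.pi * (p / s) : ℝ) = n * (2 * Real.pi) := by
        have h3 : Complex.I * ((2 * Real.pi * (p / s) : ℝ) : ℂ) =
            Complex.I * ((n * (2 * Real.pi) : ℝ) : ℂ) := by
          rw [hn]
          push_cast
          ring
        exact_mod_cast mul_left_cancel₀ Complex.I_ne_zero h3
      have h3 : (p : ℝ) = n * s := by
        have hpi := Real.pi_pos
        have h4 : (p / s : ℝ) = n := by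
          have : (2 * Real.pi) * (p / s : ℝ) = (2 * Real.pi) * n := by rw [h2]; ring
          exact mul_left_cancel₀ (by positivity) this
        field_simp at h4
        linarith
      have h4 : (p : ℤ) = n * s := by exact_mod_cast h3
      have h5 : s ∣ p := by
        have : (s : ℤ) ∣ p := ⟨n, by rw [h4]; ring⟩
        exact_mod_cast this
      have h6 : s ∣ 1 := by
        have := Nat.dvd_gcd h5 (dvd_refl s)
        rwa [hp] at this
      exact h1 (Nat.dvd_one.mp h6)
    have h2 : (∑ c ∈ range s, e (c * (p / s : ℝ))) = ∑ c ∈ range s, e (p / s : ℝ) ^ c :=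
      Finset.sum_congr rfl fun c _ => e_nat_mul c _
    have h3 : e (p / s : ℝ) ^ s = 1 := by
      rw [← e_nat_mul]
      have : (s : ℝ) * (p / s) = ((p : ℤ) : ℝ) := by
        push_cast
        field_simp
      rw [this, e_int]
    rw [h2]
    have h4 := geom_sum_mul (e (p / s : ℝ)) s
    rw [h3, sub_self] at h4
    exact (mul_eq_zero.mp h4).resolve_right (sub_ne_zero.mpr hne)

/-- Ramanujan sum for a modulus prime to the argument -/
lemma ram_sum (r p : ℕ) (hr : r ≠ 0) (hp : p.Coprime r) :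
    (∑ b ∈ (range r).filter (fun b => b.Coprime r), e (p * (b / r : ℝ))) =
      (ArithmeticFunction.moebius r : ℂ) := by
  rw [Finset.sum_filter]
  have h1 : ∀ b ∈ range r, (if b.Coprime r then e (p * (b / r : ℝ)) else 0) =
      ∑ d ∈ r.divisors, (ArithmeticFunction.moebius d : ℂ) *
        (if d ∣ b then e (p * (b / r : ℝ)) else 0) := by
    intro b _
    have h2 : (∑ d ∈ r.divisors, (ArithmeticFunction.moebius d : ℂ) *
        (if d ∣ b then e (p * (b / r : ℝ)) else 0)) =
        ((∑ d ∈ r.divisors, if d ∣ b then ArithmeticFunction.moebius d else 0 : ℤ) : ℂ) *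
          e (p * (b / r : ℝ)) := by
      push_cast
      rw [Finset.sum_mul]
      refine Finset.sum_congr rfl fun d _ => ?_
      by_cases h : d ∣ b <;> simp [h]
    rw [h2, ram_coprime_ind b r hr]
    by_cases h : b.Coprime r <;> simp [h]
  rw [Finset.sum_congr rfl h1, Finset.sum_comm]
  have h2 : ∀ d ∈ r.divisors, (∑ b ∈ range r, (ArithmeticFunction.moebius d : ℂ) *
      (if d ∣ b then e (p * (b / r : ℝ)) else 0)) =
      if d = r then (ArithmeticFunction.moebius r : ℂ) else 0 := by
    intro d hd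
    obtain ⟨s, hs⟩ := (Nat.mem_divisors.mp hd).1
    have hd0 : d ≠ 0 := by
      rintro rfl
      simp at hs
      exact hr hs
    have hs0 : s ≠ 0 := by
      rintro rfl
      simp at hs
      exact hr hs
    have hdR : (d : ℝ) ≠ 0 := by exact_mod_cast hd0
    have hsR : (s : ℝ) ≠ 0 := by exact_mod_cast hs0
    have hps : p.Coprime s := hp.coprime_dvd_right ⟨d, by rw [hs, Nat.mul_comm]⟩
    have h3 : (∑ b ∈ range r, if d ∣ b then e (p * (b / r : ℝ)) else 0) =
        ∑ c ∈ range s, e (c * (p / s : ℝ)) := by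
      rw [← Finset.sum_filter]
      symm
      refine Finset.sum_bij (fun c _ => d * c) ?_ ?_ ?_ ?_
      · intro c hc
        rw [Finset.mem_filter, Finset.mem_range]
        refine ⟨?_, dvd_mul_right d c⟩
        rw [hs]
        exact Nat.mul_lt_mul_of_pos_left (Finset.mem_range.mp hc) (Nat.pos_of_ne_zero hd0)
      · intro c _ c' _ h
        exact Nat.eq_of_mul_eq_mul_left (Nat.pos_of_ne_zero hd0) h
      · intro b hb
        obtain ⟨hb1, c, hc⟩ := Finset.mem_filter.mp hb
        refine ⟨c, ?_, hc.symm⟩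
        rw [Finset.mem_range] at hb1 ⊢
        rw [hc, hs] at hb1
        exact Nat.lt_of_mul_lt_mul_left hb1
      · intro c _
        congr 1
        rw [hs]
        push_cast
        field_simp
    rw [← Finset.mul_sum, h3, ram_geom s p hs0 hps]
    by_cases h4 : d = r
    · have h5 : s = 1 := by
        have : d * s = d * 1 := by rw [← hs, h4, Nat.mul_one]
        exact Nat.eq_of_mul_eq_mul_left (Nat.pos_of_ne_zero hd0) this
      rw [if_pos h5, if_pos h4, mul_one, h4]
    · have h5 : s ≠ 1 := by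
        intro h
        rw [h, Nat.mul_one] at hs
        exact h4 hs.symm
      rw [if_neg h5, if_neg h4, mul_zero]
  rw [Finset.sum_congr rfl h2, Finset.sum_ite_eq']
  simp [hr]

/-- RAM -/
theorem ram_ineq (r : ℕ) (hr : Squarefree r) (P : Finset ℕ) (hP : ∀ p ∈ P, p.Coprime r) (α : ℝ) :
    ‖∑ p ∈ P, e (p * α)‖ ^ 2 / (Nat.totient r : ℝ) ≤
      ∑ b ∈ (range r).filter (fun b => b.Coprime r), ‖∑ p ∈ P, e (p * (α + b / r))‖ ^ 2 := by
  have hr0 : r ≠ 0 := hr.ne_zero
  have h1 : (∑ b ∈ (range r).filter (fun b => b.Coprime r), ∑ p ∈ P, e (p * (α + b / r))) =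
      (ArithmeticFunction.moebius r : ℂ) * ∑ p ∈ P, e (p * α) := by
    rw [Finset.sum_comm, Finset.mul_sum]
    refine Finset.sum_congr rfl fun p hp => ?_
    rw [← ram_sum r p hr0 (hP p hp), Finset.sum_mul]
    refine Finset.sum_congr rfl fun b _ => ?_
    rw [← e_add]
    congr 1
    ring
  have h2 : ‖(ArithmeticFunction.moebius r : ℂ)‖ = 1 := by
    rw [Complex.norm_intCast]
    have := ArithmeticFunction.abs_moebius_eq_one_of_squarefree hr
    exact_mod_cast this
  have h3 : ‖∑ p ∈ P, e (p * α)‖ ≤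
      ∑ b ∈ (range r).filter (fun b => b.Coprime r), ‖∑ p ∈ P, e (p * (α + b / r))‖ := by
    calc ‖∑ p ∈ P, e (p * α)‖ = ‖(ArithmeticFunction.moebius r : ℂ) * ∑ p ∈ P, e (p * α)‖ := by
          rw [norm_mul, h2, one_mul]
      _ = _ := by rw [← h1]
      _ ≤ _ := norm_sum_le _ _
  have h4 : ((range r).filter (fun b => b.Coprime r)).card = Nat.totient r := by
    rw [Nat.totient_eq_card_coprime]
    congr 1
    refine Finset.filter_congr fun b _ => ?_
    exact Nat.coprime_comm
  have h5 : (0 : ℝ) < Nat.totient r := by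
    exact_mod_cast Nat.totient_pos.mpr (Nat.pos_of_ne_zero hr0)
  rw [div_le_iff₀ h5]
  calc ‖∑ p ∈ P, e (p * α)‖ ^ 2 ≤
      (∑ b ∈ (range r).filter (fun b => b.Coprime r), ‖∑ p ∈ P, e (p * (α + b / r))‖) ^ 2 := by
        gcongr
    _ ≤ ((range r).filter (fun b => b.Coprime r)).card *
        ∑ b ∈ (range r).filter (fun b => b.Coprime r), ‖∑ p ∈ P, e (p * (α + b / r))‖ ^ 2 :=
        sq_sum_le_card_mul_sum_sq
    _ = _ := by rw [h4, mul_comm]

end Pool.Agent.OmQ
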