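import Pool.Agent.Lib_MP_f1a94e_q.Defs
import Pool.Agent.Lib_MP_f1a94e_q.Ram
import Pool.Agent.Lib_MP_f1a94e_q.Gsum
import Pool.Agent.Lib_MP_f1a94e_q.PairPrime

set_option autoImplicit false

namespace Pool.Agent.OmQ

open Finset LibLS

lemma nrm_int_mul_le (c : ℤ) (x : ℝ) : nrm (c * x) ≤ |(c : ℝ)| * nrm x := by
  unfold nrm
  refine (round_le ((c : ℝ) * x) (c * round x)).trans (le_of_eq ?_)
  push_cast
  rw [← mul_sub, abs_mul]

/-- spacing of reduced fractions -/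
lemma frac_spaced {Q r r' b b' : ℕ} {δ : ℝ} (hδ : δ * (Q : ℝ) ^ 2 ≤ 1) (hδ0 : 0 < δ)
    (hr : 0 < r) (hr' : 0 < r') (hrQ : r ≤ Q) (hrQ' : r' ≤ Q)
    (hb : b < r) (hb' : b' < r') (hc : b.Coprime r) (hc' : b'.Coprime r')
    (hne : ¬ (r = r' ∧ b = b')) (z : ℤ) :
    δ ≤ |(b : ℝ) / r - b' / r' - z| := by
  have hr0 : (0 : ℝ) < r := by exact_mod_cast hr
  have hr0' : (0 : ℝ) < r' := by exact_mod_cast hr'
  have h3 : (b : ℝ) / r - b' / r' - z =
      (((b : ℤ) * r' - b' * r - z * r * r' : ℤ) : ℝ) / (r * r') := by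
    push_cast
    field_simp
  have h4 : ((b : ℤ) * r' - b' * r - z * r * r') ≠ 0 := by
    intro h0
    apply hne
    have h5 : (r : ℤ) ∣ (b : ℤ) * r' := ⟨b' + z * r', by linear_combination h0⟩
    have h6 : r ∣ b * r' := by exact_mod_cast h5
    have h7 : r ∣ r' := (Nat.Coprime.dvd_of_dvd_mul_left hc.symm h6)
    have h8 : (r' : ℤ) ∣ (b' : ℤ) * r := ⟨b - z * r, by linear_combination -h0⟩
    have h9 : r' ∣ b' * r := by exact_mod_cast h8
    have h10 : r' ∣ r := (Nat.Coprime.dvd_of_dvd_mul_left hc'.symm h9)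
    have h11 : r = r' := Nat.dvd_antisymm h7 h10
    subst h11
    refine ⟨rfl, ?_⟩
    have h12 : (r : ℤ) * ((b : ℤ) - b' - z * r) = 0 := by linear_combination h0
    rcases mul_eq_zero.mp h12 with h13 | h13
    · have : (r : ℤ) ≠ 0 := by exact_mod_cast hr.ne'
      exact absurd h13 this
    · have h14 : (r : ℤ) ∣ (b : ℤ) - b' := ⟨z, by linarith⟩
      have h15 : (b : ℤ) - b' = 0 := by
        apply Int.eq_zero_of_abs_lt_dvd h14
        rw [abs_lt]
        constructor <;> omega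
      omega
  have h5 : (1 : ℝ) ≤ |(((b : ℤ) * r' - b' * r - z * r * r' : ℤ) : ℝ)| := by
    have := Int.one_le_abs h4
    exact_mod_cast this
  rw [h3, abs_div, abs_of_pos (mul_pos hr0 hr0'), le_div_iff₀ (mul_pos hr0 hr0')]
  have hle : (r : ℝ) * r' ≤ (Q : ℝ) ^ 2 := by
    have h1 : (r : ℝ) ≤ Q := by exact_mod_cast hrQ
    have h2 : (r' : ℝ) ≤ Q := by exact_mod_cast hrQ'
    nlinarith
  nlinarith [mul_le_mul_of_nonneg_left hle hδ0.le]

/-- S1 -/
theorem S1 : ∃ C1 : ℝ, 0 < C1 ∧ ∀ K : Finset ℕ, ∃ D0 nS : ℕ, 0 < D0 ∧ ∀ D : ℕ, 0 < D → D0 ∣ D →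
    ∀ n, nS ≤ n → ∀ P : Finset ℕ, (∀ p ∈ P, p.Prime ∧ 2 ^ n ≤ p ∧ p < 2 ^ (n + 1)) → ∀ θ : ℝ,
      nrm (D * θ) ≤ D / 2 ^ n ∨
        ∑ κ ∈ K, ‖∑ p ∈ P, e (p * (κ * θ))‖ ^ 2 ≤ C1 * (2 ^ n / n) * P.card := by
  classical
  refine ⟨1000, by norm_num, fun K => ?_⟩
  set y : ℕ := 2 * K.card ^ 2 + 2 with hy
  set M0 : ℕ := ∏ p ∈ (range y).filter Nat.Prime, p with hM0
  set M1 : ℕ := ∏ x ∈ K.offDiag, ((x.1 : ℤ) - x.2).natAbs with hM1
  have hM0pos : 0 < M0 := Finset.prod_pos fun p hp => (mem_filter.mp hp).2.pos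
  have hM1pos : 0 < M1 := by
    refine Finset.prod_pos fun x hx => ?_
    rw [mem_offDiag] at hx
    apply Nat.pos_of_ne_zero
    intro h
    have := hx.2.2
    omega
  refine ⟨M0 * M1, 16, Nat.mul_pos hM0pos hM1pos, fun D hD hDD n hn P hP θ => ?_⟩
  set Q : ℕ := 2 ^ (n / 8) with hQ
  have hQpos : 0 < Q := by positivity
  set δ : ℝ := 1 / 2 ^ (n + 1) with hδ
  have hδpos : 0 < δ := by positivity
  have hQ4 : (Q : ℝ) ^ 4 ≤ 2 ^ (n - 1) := by
    have : Q ^ 4 ≤ 2 ^ (n - 1) := by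
      rw [hQ, ← pow_mul]
      exact Nat.pow_le_pow_right (by norm_num) (by omega)
    exact_mod_cast this
  have hpow : (2 : ℝ) ^ (n + 1) = 4 * 2 ^ (n - 1) := by
    rw [show n + 1 = 2 + (n - 1) by omega, pow_add]
    norm_num
  have hδQ : 2 * δ * (Q : ℝ) ^ 4 < 1 := by
    have h1 : (0 : ℝ) < 2 ^ (n - 1) := by positivity
    rw [hδ, hpow]
    rw [show 2 * (1 / (4 * (2 : ℝ) ^ (n - 1))) * (Q : ℝ) ^ 4 = (2 * (Q : ℝ) ^ 4) / (4 * 2 ^ (n - 1)) by ring]
    rw [div_lt_one (by positivity)]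
    nlinarith
  by_cases hbad : ∃ x ∈ K.offDiag, ∃ d : ℕ, 0 < d ∧ d ∣ M0 ∧
      nrm (d * (((x.1 : ℝ) - x.2) * θ)) ≤ d * δ
  · left
    obtain ⟨x, hx, d, hd0, hdM, hdn⟩ := hbad
    have hxd : ((x.1 : ℤ) - x.2).natAbs ∣ M1 := Finset.dvd_prod_of_mem _ hx
    obtain ⟨c, hc⟩ : d * ((x.1 : ℤ) - x.2).natAbs ∣ D := (Nat.mul_dvd_mul hdM hxd).trans hDD
    have hx0 : 0 < ((x.1 : ℤ) - x.2).natAbs := by
      rw [mem_offDiag] at hx
      apply Nat.pos_of_ne_zero
      intro h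
      have := hx.2.2
      omega
    obtain ⟨s, hs, hs2⟩ : ∃ s : ℤ, |s| = 1 ∧ ((((x.1 : ℤ) - x.2).natAbs : ℕ) : ℤ) = s * ((x.1 : ℤ) - x.2) := by
      rcases le_total 0 ((x.1 : ℤ) - x.2) with h | h
      · exact ⟨1, by norm_num, by rw [one_mul]; exact Int.natAbs_of_nonneg h⟩
      · exact ⟨-1, by norm_num, by rw [neg_one_mul]; exact Int.ofNat_natAbs_of_nonpos h⟩
    have hs3 : ((((x.1 : ℤ) - x.2).natAbs : ℕ) : ℝ) = s * ((x.1 : ℝ) - x.2) := by
      have := congrArg (fun z : ℤ => (z : ℝ)) hs2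
      simpa using this
    have e1 : (D : ℝ) * θ = ((c * s : ℤ) : ℝ) * (d * (((x.1 : ℝ) - x.2) * θ)) := by
      rw [hc]
      push_cast
      rw [hs3]
      ring
    rw [e1]
    refine (nrm_int_mul_le _ _).trans ?_
    have e2 : |((c * s : ℤ) : ℝ)| = c := by
      have : |((c : ℤ) * s)| = c := by
        rw [abs_mul, hs, mul_one]
        exact abs_of_nonneg (by positivity)
      exact_mod_cast this
    rw [e2]
    calc (c : ℝ) * nrm (d * (((x.1 : ℝ) - x.2) * θ)) ≤ c * (d * δ) :=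
          mul_le_mul_of_nonneg_left hdn (Nat.cast_nonneg _)
      _ ≤ D / 2 ^ n := by
          have h1 : (c : ℝ) * d ≤ D := by
            have : c * d ≤ D := by
              rw [hc]
              nlinarith [Nat.mul_le_mul_left (d * c) hx0]
            exact_mod_cast this
          have h2 : δ ≤ 1 / 2 ^ n := by
            rw [hδ]
            apply one_div_le_one_div_of_le (by positivity)
            exact pow_le_pow_right₀ (by norm_num) (by omega)
          calc (c : ℝ) * (d * δ) = (c * d) * δ := by ring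
            _ ≤ D * (1 / 2 ^ n) := mul_le_mul h1 h2 hδpos.le (Nat.cast_nonneg _)
            _ = D / 2 ^ n := by ring
  · right
    push Not at hbad
    have hex : ∀ x ∈ K.offDiag, ∃ l : ℕ, l.Prime ∧ y ≤ l ∧ ∀ r r' : ℕ, 0 < r → 0 < r' → r ≤ Q →
        r' ≤ Q → Squarefree r → Squarefree r' → ¬ l ∣ r → ¬ l ∣ r' → ∀ b b' z : ℤ,
        δ ≤ |(((x.1 : ℝ) - x.2) * θ) + b / r - b' / r' - z| := by
      intro x hx
      rcases pair_prime y Q δ hδpos hδQ (((x.1 : ℝ) - x.2) * θ) with ⟨d, h1, h2, h3⟩ | h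
      · exact absurd h3 (not_le.mpr (hbad x hx d h1 h2))
      · exact h
    choose! l hl1 hl2 hl3 using hex
    set E : Finset ℕ := K.offDiag.image l with hE
    have hEp : ∀ a ∈ E, a.Prime := by
      intro a ha
      rw [hE, mem_image] at ha
      obtain ⟨x, hx, rfl⟩ := ha
      exact hl1 x hx
    have hEsum : ∑ a ∈ E, (1 : ℝ) / a ≤ 1 / 2 := by
      have hypos : (0 : ℝ) < y := by rw [hy]; positivity
      have h1 : ∀ a ∈ E, (1 : ℝ) / a ≤ 1 / y := by
        intro a ha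
        rw [hE, mem_image] at ha
        obtain ⟨x, hx, rfl⟩ := ha
        apply one_div_le_one_div_of_le hypos
        exact_mod_cast hl2 x hx
      have h2 : (E.card : ℝ) ≤ (K.card : ℝ) ^ 2 := by
        have h3 : E.card ≤ K.offDiag.card := card_image_le
        have h4 : K.offDiag.card ≤ K.card ^ 2 := by
          rw [offDiag_card, sq]
          exact Nat.sub_le _ _
        exact_mod_cast h3.trans h4
      calc ∑ a ∈ E, (1 : ℝ) / a ≤ ∑ a ∈ E, (1 : ℝ) / y := sum_le_sum h1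
        _ = E.card * (1 / y) := by rw [sum_const, nsmul_eq_mul]
        _ ≤ (K.card : ℝ) ^ 2 * (1 / y) := mul_le_mul_of_nonneg_right h2 (by positivity)
        _ ≤ 1 / 2 := by
            rw [mul_one_div, div_le_div_iff₀ hypos (by norm_num)]
            rw [hy]
            push_cast
            linarith
    set rs : Finset ℕ := (Icc 1 Q).filter (fun r => Squarefree r ∧ ∀ l ∈ E, ¬ l ∣ r) with hrs
    have hG := gsum E hEp Q hQpos
    rw [← hrs] at hG
    let bs : ℕ → Finset ℕ := fun r => (range r).filter (fun b => b.Coprime r)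
    let R : Finset (ℕ × (_ : ℕ) × ℕ) := K ×ˢ (rs.sigma bs)
    let α : (ℕ × (_ : ℕ) × ℕ) → ℝ := fun x => x.1 * θ + (x.2.2 : ℝ) / x.2.1
    have hsp : Spaced R α δ := by
      rintro ⟨k, r, b⟩ hx ⟨k', r', b'⟩ hx' hne z
      simp only [R, bs, mem_product, mem_sigma, mem_filter, mem_range, hrs, mem_Icc] at hx hx'
      obtain ⟨hk, ⟨⟨hr1, hrQ⟩, hrsq, hrE⟩, hbr, hbc⟩ := hx
      obtain ⟨hk', ⟨⟨hr1', hrQ'⟩, hrsq', hrE'⟩, hbr', hbc'⟩ := hx'
      simp only [α]
      by_cases hkk : k = k'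
      · subst hkk
        have h1 : ¬ (r = r' ∧ b = b') := by
          rintro ⟨rfl, rfl⟩
          exact hne rfl
        have hδ2 : δ * (Q : ℝ) ^ 2 ≤ 1 := by
          have h2 : (1 : ℝ) ≤ Q := by exact_mod_cast hQpos
          have h3 : (Q : ℝ) ^ 2 ≤ Q ^ 4 := pow_le_pow_right₀ h2 (by norm_num)
          nlinarith [mul_le_mul_of_nonneg_left h3 hδpos.le, mul_pos hδpos (show (0:ℝ) < (Q : ℝ) ^ 4 by positivity)]
        have h2 := frac_spaced hδ2 hδpos (by omega) (by omega) hrQ hrQ' hbr hbr' hbc hbc' h1 z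
        refine h2.trans (le_of_eq ?_)
        congr 1
        ring
      · have hxo : (k, k') ∈ K.offDiag := by
          rw [mem_offDiag]
          exact ⟨hk, hk', hkk⟩
        have hlE : l (k, k') ∈ E := mem_image_of_mem _ hxo
        have h2 := hl3 (k, k') hxo r r' (by omega) (by omega) hrQ hrQ' hrsq hrsq'
          (hrE _ hlE) (hrE' _ hlE) b b' z
        refine h2.trans (le_of_eq ?_)
        congr 1
        push_cast
        ring
    have hMδ : 1 / δ ≤ ((2 ^ (n + 1) : ℕ) : ℝ) := by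
      rw [hδ, one_div_one_div]
      push_cast
      exact le_refl _
    have hPM : P ⊆ range (2 ^ (n + 1)) := fun p hp => mem_range.mpr (hP p hp).2.2
    have hLS := large_sieve R α hδpos hsp (2 ^ (n + 1)) hMδ P hPM
    have hlow : (∑ κ ∈ K, ‖∑ p ∈ P, e (p * (κ * θ))‖ ^ 2) * ∑ r ∈ rs, (1 : ℝ) / (Nat.totient r) ≤
        ∑ x ∈ R, ‖∑ p ∈ P, e (p * α x)‖ ^ 2 := by
      simp only [R, α]
      rw [sum_product, sum_mul_sum]
      refine sum_le_sum fun k _ => ?_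
      rw [sum_sigma]
      refine sum_le_sum fun r hr => ?_
      rw [hrs, mem_filter, mem_Icc] at hr
      have hcop : ∀ p ∈ P, p.Coprime r := by
        intro p hp
        have hpp := hP p hp
        rw [Nat.Prime.coprime_iff_not_dvd hpp.1]
        intro hdvd
        have h1 := Nat.le_of_dvd (by omega) hdvd
        have h2 : Q < 2 ^ n := by
          rw [hQ]
          exact Nat.pow_lt_pow_right (by norm_num) (by omega)
        omega
      have h1 := ram_ineq r hr.2.1 P hcop (k * θ)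
      refine le_trans (le_of_eq ?_) h1
      rw [mul_one_div]
    have hlogQ : (n : ℝ) / 32 * Real.log 2 ≤ ∑ r ∈ rs, (1 : ℝ) / (Nat.totient r) := by
      refine le_trans ?_ hG
      have h1 : Real.log Q = (n / 8 : ℕ) * Real.log 2 := by
        rw [hQ]
        push_cast
        rw [Real.log_pow]
      rw [h1]
      have h2 : (n : ℝ) / 16 ≤ ((n / 8 : ℕ) : ℝ) := by
        have : n ≤ 16 * (n / 8) := by omega
        have h3 : (n : ℝ) ≤ 16 * ((n / 8 : ℕ) : ℝ) := by exact_mod_cast this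
        linarith
      have h3 : 0 < Real.log 2 := Real.log_pos (by norm_num)
      have h4 : (1 / 2 : ℝ) ≤ 1 - ∑ l ∈ E, (1 : ℝ) / l := by linarith
      have h5 : 0 ≤ ((n / 8 : ℕ) : ℝ) * Real.log 2 := by positivity
      calc (n : ℝ) / 32 * Real.log 2 = 1 / 2 * ((n : ℝ) / 16 * Real.log 2) := by ring
        _ ≤ 1 / 2 * (((n / 8 : ℕ) : ℝ) * Real.log 2) := by
            apply mul_le_mul_of_nonneg_left _ (by norm_num)
            exact mul_le_mul_of_nonneg_right h2 h3.le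
        _ ≤ (1 - ∑ l ∈ E, (1 : ℝ) / l) * (((n / 8 : ℕ) : ℝ) * Real.log 2) :=
            mul_le_mul_of_nonneg_right h4 h5
    have hsum0 : 0 ≤ ∑ κ ∈ K, ‖∑ p ∈ P, e (p * (κ * θ))‖ ^ 2 := sum_nonneg fun _ _ => by positivity
    have hfin : (∑ κ ∈ K, ‖∑ p ∈ P, e (p * (κ * θ))‖ ^ 2) * ((n : ℝ) / 32 * Real.log 2) ≤
        9 * ((2 ^ (n + 1) : ℕ) : ℝ) * P.card :=
      (mul_le_mul_of_nonneg_left hlogQ hsum0).trans (hlow.trans hLS)
    have hn0 : (0 : ℝ) < n := by exact_mod_cast (by omega : 0 < n)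
    have hl2' : (0.6931 : ℝ) ≤ Real.log 2 := by
      have := Real.log_two_gt_d9
      linarith
    have h6 : (∑ κ ∈ K, ‖∑ p ∈ P, e (p * (κ * θ))‖ ^ 2) * ((n : ℝ) * 0.0216) ≤
        18 * (2 : ℝ) ^ n * P.card := by
      have h7 : (n : ℝ) * 0.0216 ≤ (n : ℝ) / 32 * Real.log 2 := by nlinarith
      have h8 := mul_le_mul_of_nonneg_left h7 hsum0
      have h9 : 9 * ((2 ^ (n + 1) : ℕ) : ℝ) * P.card = 18 * (2 : ℝ) ^ n * P.card := by
        push_cast
        ring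
      linarith
    rw [show (1000 : ℝ) * (2 ^ n / n) * P.card = (1000 * 2 ^ n * P.card) / n by ring,
      le_div_iff₀ hn0]
    have h10 : (0 : ℝ) ≤ 2 ^ n * P.card := by positivity
    nlinarith

end Pool.Agent.OmQ
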