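import Pool.Agent.Lib_MP_f1a94e_q.Defs
import Pool.Agent.Lib_MP_f1a94e_q.Gibbs

set_option autoImplicit false

namespace Pool.Agent.OmQ

open Finset LibLS

/-- SUBMOD -/
theorem ent_submod {Ω A B C : Type} [Fintype Ω] [Nonempty Ω] (U : Ω → A) (V : Ω → B) (W : Ω → C) :
    ent (fun i => (U i, V i, W i)) + ent U ≤ ent (fun i => (U i, V i)) + ent (fun i => (U i, W i)) := by
  classical
  have hc : (0 : ℝ) < Fintype.card Ω := by exact_mod_cast Fintype.card_pos
  set g : A → C → ℝ := fun u w => ((univ.filter (fun k => U k = u ∧ W k = w)).card : ℝ) with hg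
  set c : A → ℝ := fun u => ((univ.filter (fun k => U k = u)).card : ℝ) with hcdef
  set T : Finset C := univ.image W with hTdef
  have hgW : ∀ i, g (U i) (W i) = cnt (fun i => (U i, W i)) i := by
    intro i
    symm
    apply cnt_eq_card
    intro k
    simp
  have hcU : ∀ i, c (U i) = cnt U i := by
    intro i
    symm
    apply cnt_eq_card
    intro k
    simp
  have hcpos : ∀ i, 0 < c (U i) := fun i => by rw [hcU]; exact cnt_pos U i
  have hgpos : ∀ i, 0 < g (U i) (W i) := fun i => by rw [hgW]; exact cnt_pos _ i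
  have hsum : ∀ i, ∑ w ∈ T, g (U i) w / c (U i) = 1 := by
    intro i
    rw [← sum_div, div_eq_one_iff_eq (hcpos i).ne']
    have h0 := card_eq_sum_card_fiberwise (s := univ.filter (fun k => U k = U i)) (t := T) (f := W)
      (fun k _ => by simp [hTdef])
    have h1 : ∑ w ∈ T, g (U i) w =
        ((∑ w ∈ T, ((univ.filter (fun k => U k = U i)).filter (fun k => W k = w)).card : ℕ) : ℝ) := by
      push_cast
      refine sum_congr rfl fun w _ => ?_
      rw [filter_filter]
    rw [h1, ← h0]
  have h := gibbs_gen (fun i => (U i, V i)) W T (fun i => by simp [hTdef])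
    (fun a w => g a.1 w / c a.1) (fun a w => by rw [hg, hcdef]; positivity)
    (fun i => div_pos (hgpos i) (hcpos i))
  have h1 : ∀ i, Real.log (g (U i) (W i) / c (U i)) =
      Real.log (cnt (fun i => (U i, W i)) i) - Real.log (cnt U i) := by
    intro i
    rw [Real.log_div (hgpos i).ne' (hcpos i).ne', hgW, hcU]
  have h2 : ∀ i, Real.log (∑ w ∈ T, g (U i) w / c (U i)) = 0 := by
    intro i
    rw [hsum i, Real.log_one]
  simp only [h1, h2, sum_sub_distrib, sum_const_zero, add_zero] at h
  have h3 : ∑ i, Real.log (cnt (fun i => ((U i, V i), W i)) i) =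
      ∑ i, Real.log (cnt (fun i => (U i, V i, W i)) i) := by
    refine sum_congr rfl fun i _ => ?_
    rw [cnt_congr (fun i => ((U i, V i), W i)) (fun i => (U i, V i, W i))]
    intro i j
    simp only [Prod.mk.injEq, and_assoc]
  rw [h3] at h
  rw [ent_eq, ent_eq, ent_eq, ent_eq]
  have h4 := div_le_div_of_nonneg_right h hc.le
  rw [sub_div, sub_div] at h4
  linarith

theorem ent_mono {Ω A B : Type} [Fintype Ω] [Nonempty Ω] (U : Ω → A) (V : Ω → B) :
    ent U ≤ ent (fun i => (U i, V i)) := by
  classical
  have hc : (0 : ℝ) < Fintype.card Ω := by exact_mod_cast Fintype.card_pos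
  rw [ent_eq, ent_eq]
  have h : ∑ i, Real.log (cnt (fun i => (U i, V i)) i) ≤ ∑ i, Real.log (cnt U i) := by
    refine sum_le_sum fun i _ => ?_
    apply Real.log_le_log (cnt_pos _ i)
    rw [cnt_eq_card (fun i => (U i, V i)) i (univ.filter (fun j => U j = U i ∧ V j = V i))
      (fun k => by simp), cnt_eq_card U i (univ.filter (fun j => U j = U i)) (fun k => by simp)]
    have : (univ.filter (fun j => U j = U i ∧ V j = V i)).card ≤
        (univ.filter (fun j => U j = U i)).card := by
      apply card_le_card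
      intro j hj
      rw [mem_filter] at hj ⊢
      exact ⟨hj.1, hj.2.1⟩
    exact_mod_cast this
  have := div_le_div_of_nonneg_right h hc.le
  linarith

theorem ent_pair_le {Ω A B : Type} [Fintype Ω] [Nonempty Ω] [Fintype B] (U : Ω → A) (V : Ω → B) :
    ent (fun i => (U i, V i)) ≤ ent U + Real.log (Fintype.card B) := by
  have hc : (0 : ℝ) < Fintype.card Ω := by exact_mod_cast Fintype.card_pos
  have h := ent_gibbs U V univ (fun i => mem_univ _) (fun _ _ => 0)
  simp only [Real.exp_zero, sum_const_zero, zero_div, sum_const, card_univ, nsmul_eq_mul,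
    mul_one] at h
  rw [mul_div_assoc, mul_comm, div_mul_cancel₀ _ hc.ne'] at h
  linarith

end Pool.Agent.OmQ
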