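import Pool.Agent.Lib_MP_f1a94e_q.Defs
import Pool.Agent.Lib_MP_f1a94e_q.Gibbs
import Pool.Agent.Lib_MP_f1a94e_q.Submod
import Pool.Agent.Lib_MP_f1a94e_q.EMod

set_option autoImplicit false

namespace Pool.Agent.OmQ

open Finset LibLS

variable {N : ℕ} [NeZero N] {α : Type}

theorem ent_swap {Ω A B : Type} [Fintype Ω] (U : Ω → A) (V : Ω → B) :
    ent (fun i => (V i, U i)) = ent (fun i => (U i, V i)) := by
  apply ent_congr
  intro i j
  simp only [Prod.mk.injEq]
  exact And.comm

theorem hb_nonneg (X : ZMod N → α) (H m : ℕ) : 0 ≤ hb X H m := by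
  unfold hb
  have h := ent_mono (fun i : ZMod N => i.val % m) (fun i => block X H i)
  rw [ent_swap (fun i : ZMod N => i.val % m) (fun i => block X H i)]
  linarith

theorem hb_le [Fintype α] [Nonempty α] (X : ZMod N → α) (H m : ℕ) :
    hb X H m ≤ H * Real.log (Fintype.card α) := by
  unfold hb
  have h := ent_pair_le (fun i : ZMod N => i.val % m) (fun i => block X H i)
  rw [ent_swap (fun i : ZMod N => i.val % m) (fun i => block X H i)]
  have h2 : Real.log (Fintype.card (Fin H → α)) = H * Real.log (Fintype.card α) := by
    rw [Fintype.card_fun, Fintype.card_fin]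
    push_cast
    rw [Real.log_pow]
  rw [h2] at h
  linarith

theorem hb_anti (X : ZMod N → α) (H m m' : ℕ) (h : m ∣ m') : hb X H m' ≤ hb X H m := by
  unfold hb
  have h1 := ent_submod (fun i : ZMod N => i.val % m) (fun i => block X H i)
    (fun i : ZMod N => i.val % m')
  have hmod : ∀ i j : ZMod N, i.val % m' = j.val % m' → i.val % m = j.val % m := by
    intro i j hij
    rw [← Nat.mod_mod_of_dvd i.val h, ← Nat.mod_mod_of_dvd j.val h, hij]
  have h2 : ent (fun i : ZMod N => (i.val % m, block X H i, i.val % m')) =
      ent (fun i : ZMod N => (block X H i, i.val % m')) := by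
    apply ent_congr
    intro i j
    simp only [Prod.mk.injEq]
    constructor
    · rintro ⟨_, b, c⟩
      exact ⟨b, c⟩
    · rintro ⟨b, c⟩
      exact ⟨hmod i j c, b, c⟩
  have h3 : ent (fun i : ZMod N => (i.val % m, i.val % m')) =
      ent (fun i : ZMod N => i.val % m') := by
    apply ent_congr
    intro i j
    simp only [Prod.mk.injEq]
    constructor
    · rintro ⟨_, c⟩
      exact c
    · intro c
      exact ⟨hmod i j c, c⟩
  rw [h2, h3] at h1
  rw [ent_swap (fun i : ZMod N => i.val % m) (fun i => block X H i)]
  linarith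

omit [NeZero N] in
theorem block_double (X : ZMod N → α) (H : ℕ) (i j : ZMod N) :
    block X (2 * H) i = block X (2 * H) j ↔
      block X H i = block X H j ∧
        block X H (i + ((H : ℕ) : ZMod N)) = block X H (j + ((H : ℕ) : ZMod N)) := by
  constructor
  · intro h
    constructor
    · funext t
      have := congrFun h ⟨t.1, by have := t.2; omega⟩
      exact this
    · funext t
      have := congrFun h ⟨H + t.1, by have := t.2; omega⟩
      unfold block at this ⊢
      simp only [Nat.cast_add] at this
      rw [add_assoc, add_assoc]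
      exact this
  · rintro ⟨h1, h2⟩
    funext t
    by_cases ht : t.1 < H
    · have := congrFun h1 ⟨t.1, ht⟩
      exact this
    · have := congrFun h2 ⟨t.1 - H, by have := t.2; omega⟩
      unfold block at this ⊢
      simp only at this
      rw [add_assoc, add_assoc, ← Nat.cast_add] at this
      have h3 : H + (t.1 - H) = t.1 := by omega
      rw [h3] at this
      exact this

theorem val_shift_mod (m : ℕ) (hm : m ∣ N) (H : ℕ) (i : ZMod N) :
    (i + ((H : ℕ) : ZMod N)).val % m = (i.val + H) % m := by
  rw [ZMod.val_add, ZMod.val_natCast, Nat.mod_mod_of_dvd _ hm, Nat.add_mod,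
    Nat.mod_mod_of_dvd _ hm, ← Nat.add_mod]

theorem hb_double (X : ZMod N → α) (H m : ℕ) (h : m ∣ N) : hb X (2 * H) m ≤ 2 * hb X H m := by
  unfold hb
  have h1 := ent_submod (fun i : ZMod N => i.val % m) (fun i => block X H i)
    (fun i => block X H (i + ((H : ℕ) : ZMod N)))
  have h2 : ent (fun i : ZMod N => (i.val % m, block X H i, block X H (i + ((H : ℕ) : ZMod N)))) =
      ent (fun i : ZMod N => (block X (2 * H) i, i.val % m)) := by
    apply ent_congr
    intro i j
    simp only [Prod.mk.injEq, block_double]
    tauto
  have h3 : ent (fun i : ZMod N => (i.val % m, block X H (i + ((H : ℕ) : ZMod N)))) =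
      ent (fun i : ZMod N => (block X H i, i.val % m)) := by
    rw [← ent_shift (fun i : ZMod N => (block X H i, i.val % m)) ((H : ℕ) : ZMod N)]
    apply ent_congr
    intro i j
    simp only [Prod.mk.injEq, val_shift_mod m h]
    have h4 : i.val % m = j.val % m ↔ (i.val + H) % m = (j.val + H) % m := by
      constructor
      · intro h5
        exact Nat.ModEq.add_right H h5
      · intro h5
        exact Nat.ModEq.add_right_cancel' H h5
    rw [h4]
    exact And.comm
  rw [h2, h3, ← ent_swap (fun i : ZMod N => i.val % m) (fun i => block X H i)] at h1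
  linarith

end Pool.Agent.OmQ
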