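import Pool.Agent.Lib_MP_f1a94e_q.Defs
import Pool.Agent.Lib_MP_f1a94e_q.HB

set_option autoImplicit false

namespace Pool.Agent.OmQ

open Finset LibLS

/-- SCALE -/
theorem good_scale {N : ℕ} [NeZero N] {α : Type} [Fintype α] [Nonempty α] (X : ZMod N → α)
    (Q : ℕ → ℕ) (hQ : ∀ n, Q n ∣ Q (n + 1)) (n0 n1 A : ℕ) (hA : 0 < A) (hN : Q n1 ∣ N)
    (S : Finset ℕ) (hS : S ⊆ Ico n0 n1) (w : ℕ → ℝ)
    (hsum : A * Real.log (Fintype.card α) < ∑ n ∈ S, w n / 2 ^ n) :
    ∃ n ∈ S, hb X (A * 2 ^ n) (Q n) - hb X (A * 2 ^ n) (Q (n + 1)) ≤ w n := by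
  by_contra hcon
  push Not at hcon
  have hAr : (0 : ℝ) < A := by exact_mod_cast hA
  set I : ℕ → ℝ := fun n => hb X (A * 2 ^ n) (Q n) - hb X (A * 2 ^ n) (Q (n + 1)) with hI
  set a : ℕ → ℝ := fun n => hb X (A * 2 ^ n) (Q n) / 2 ^ n with ha
  have hI0 : ∀ n, 0 ≤ I n := by
    intro n
    have := hb_anti X (A * 2 ^ n) (Q n) (Q (n + 1)) (hQ n)
    simp only [hI]
    linarith
  have ha0 : ∀ n, 0 ≤ a n := fun n => div_nonneg (hb_nonneg X _ _) (by positivity)
  have hQd : ∀ n d, Q n ∣ Q (n + d) := by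
    intro n d
    induction d with
    | zero => exact dvd_refl _
    | succ d ih => exact ih.trans (hQ (n + d))
  have hstep : ∀ n, n < n1 → a (n + 1) ≤ a n - I n / 2 ^ n := by
    intro n hn
    have h1 : Q (n + 1) ∣ N := by
      obtain ⟨d, hd⟩ := Nat.exists_eq_add_of_le (Nat.succ_le_of_lt hn)
      rw [hd] at hN
      exact (hQd (n + 1) d).trans hN
    have h2 := hb_double X (A * 2 ^ n) (Q (n + 1)) h1
    have h3 : 2 * (A * 2 ^ n) = A * 2 ^ (n + 1) := by ring
    rw [h3] at h2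
    have hp : (0 : ℝ) < 2 ^ n := by positivity
    have h4 : (2 : ℝ) ^ (n + 1) = 2 ^ n * 2 := pow_succ _ _
    simp only [ha, hI]
    rw [← sub_div, div_le_div_iff₀ (by positivity) hp, h4]
    have h5 := mul_le_mul_of_nonneg_right h2 hp.le
    linarith
  have htel : ∀ d, n0 + d ≤ n1 → ∑ n ∈ Ico n0 (n0 + d), I n / 2 ^ n ≤ a n0 - a (n0 + d) := by
    intro d
    induction d with
    | zero => intro _; simp
    | succ d ih =>
      intro hd
      have h1 := ih (by omega)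
      rw [← add_assoc, sum_Ico_succ_top (by omega)]
      have h2 := hstep (n0 + d) (by omega)
      linarith
  have hlog : 0 ≤ Real.log (Fintype.card α) := Real.log_natCast_nonneg _
  have hSn : S.Nonempty := by
    by_contra hne
    rw [not_nonempty_iff_eq_empty] at hne
    rw [hne, sum_empty] at hsum
    have : 0 ≤ (A : ℝ) * Real.log (Fintype.card α) := by positivity
    linarith
  obtain ⟨n, hn⟩ := hSn
  have hn' := mem_Ico.mp (hS hn)
  obtain ⟨d, hd⟩ := Nat.exists_eq_add_of_le (show n0 ≤ n1 by omega)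
  have h1 := htel d (by omega)
  rw [← hd] at h1
  have h2 : ∑ n ∈ S, w n / 2 ^ n ≤ ∑ n ∈ S, I n / 2 ^ n := by
    refine sum_le_sum fun n hn => ?_
    exact div_le_div_of_nonneg_right (hcon n hn).le (by positivity)
  have h3 : ∑ n ∈ S, I n / 2 ^ n ≤ ∑ n ∈ Ico n0 n1, I n / 2 ^ n :=
    sum_le_sum_of_subset_of_nonneg hS (fun n _ _ => div_nonneg (hI0 n) (by positivity))
  have h4 : a n0 ≤ A * Real.log (Fintype.card α) := by
    simp only [ha]
    rw [div_le_iff₀ (by positivity)]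
    have := hb_le X (A * 2 ^ n0) (Q n0)
    push_cast at this
    linarith
  have h5 := ha0 n1
  linarith

end Pool.Agent.OmQ
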