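import Pool.Agent.Lib_MP_f1a94e_q.Defs
import Pool.Agent.Lib_MP_f1a94e_q.Primes1
import Pool.Agent.Lib_MP_f1a94e_q.Indep

set_option autoImplicit false

namespace Pool.Agent.OmQ

open Finset LibLS

/-- the indicator of `Dv`, as a function on the natural numbers -/
noncomputable def tkI (ρ : ℕ → ℕ) (k : ℕ) (n : ℕ) : ℝ :=
  ind (∀ p ∈ k.primeFactors, n ≡ ρ p [MOD p])

lemma tkI_eq {N : ℕ} (ρ : ℕ → ℕ) (k : ℕ) (i : ZMod N) : tkI ρ k i.val = ind (Dv ρ k i) := rfl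

lemma tkI_add (ρ : ℕ → ℕ) (k n M : ℕ) (h : k ∣ M) : tkI ρ k (n + M) = tkI ρ k n := by
  unfold tkI
  congr 1
  apply propext
  refine forall₂_congr (fun p hp => ?_)
  have hpM : p ∣ M := (Nat.dvd_of_mem_primeFactors hp).trans h
  have hmod : n + M ≡ n [MOD p] := by
    obtain ⟨t, rfl⟩ := hpM
    simp [Nat.ModEq]
  exact ⟨fun h => hmod.symm.trans h, fun h => hmod.trans h⟩

lemma tkI_mul (ρ : ℕ → ℕ) (k l n : ℕ) (hk : k ≠ 0) (hl : l ≠ 0) :
    tkI ρ (k * l) n = tkI ρ k n * tkI ρ l n := by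
  unfold tkI
  rw [ind_mul]
  congr 1
  apply propext
  rw [Nat.primeFactors_mul hk hl]
  constructor
  · intro h
    exact ⟨fun p hp => h p (Finset.mem_union_left _ hp),
      fun p hp => h p (Finset.mem_union_right _ hp)⟩
  · rintro ⟨h1, h2⟩ p hp
    rcases Finset.mem_union.mp hp with hp | hp
    · exact h1 p hp
    · exact h2 p hp

lemma tkI_sq (ρ : ℕ → ℕ) (k n : ℕ) : tkI ρ k n * tkI ρ k n = tkI ρ k n := by
  unfold tkI
  rw [ind_mul, and_self]

lemma Av_tkI {N : ℕ} [NeZero N] (ρ : ℕ → ℕ) (S : Finset ℕ) (hS : ∀ p ∈ S, Squarefree p)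
    (hN : ∀ p ∈ S, p ∣ N) :
    Av (fun i : ZMod N => ∑ p ∈ S, tkI ρ p i.val) = ∑ p ∈ S, (1 : ℝ) / p := by
  rw [Av_sum S (fun p (i : ZMod N) => tkI ρ p i.val)]
  refine Finset.sum_congr rfl (fun p hp => ?_)
  exact Av_Dv ρ p (hS p hp) (hN p hp)

lemma Av_tkI_sq {N : ℕ} [NeZero N] (ρ : ℕ → ℕ) (S : Finset ℕ) (hS : ∀ p ∈ S, p.Prime)
    (hN : ∀ p ∈ S, p ∣ N) :
    Av (fun i : ZMod N => (∑ p ∈ S, tkI ρ p i.val) ^ 2) ≤
      (∑ p ∈ S, (1 : ℝ) / p) ^ 2 + ∑ p ∈ S, (1 : ℝ) / p := by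
  classical
  have h1 : Av (fun i : ZMod N => (∑ p ∈ S, tkI ρ p i.val) ^ 2) =
      ∑ p ∈ S, ∑ q ∈ S, Av (fun i : ZMod N => tkI ρ p i.val * tkI ρ q i.val) := by
    have e1 : (fun i : ZMod N => (∑ p ∈ S, tkI ρ p i.val) ^ 2) =
        fun i : ZMod N => ∑ p ∈ S, ∑ q ∈ S, tkI ρ p i.val * tkI ρ q i.val := by
      funext i
      rw [sq, Finset.sum_mul_sum]
    rw [e1, Av_sum S (fun p (i : ZMod N) => ∑ q ∈ S, tkI ρ p i.val * tkI ρ q i.val)]
    refine Finset.sum_congr rfl (fun p _ => ?_)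
    exact Av_sum S (fun q (i : ZMod N) => tkI ρ p i.val * tkI ρ q i.val)
  have h2 : ∀ p ∈ S, ∀ q ∈ S, Av (fun i : ZMod N => tkI ρ p i.val * tkI ρ q i.val) ≤
      (1 : ℝ) / p * (1 / q) + if p = q then (1 : ℝ) / p else 0 := by
    intro p hp q hq
    by_cases hpq : p = q
    · subst hpq
      rw [if_pos rfl]
      have e2 : (fun i : ZMod N => tkI ρ p i.val * tkI ρ p i.val) =
          fun i : ZMod N => tkI ρ p i.val := by
        funext i
        exact tkI_sq ρ p _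
      rw [e2]
      have e3 : Av (fun i : ZMod N => tkI ρ p i.val) = 1 / p :=
        Av_Dv ρ p (hS p hp).prime.squarefree (hN p hp)
      rw [e3]
      have : (0 : ℝ) ≤ 1 / p * (1 / p) := by positivity
      linarith
    · rw [if_neg hpq, add_zero]
      have hco : p.Coprime q := (Nat.coprime_primes (hS p hp) (hS q hq)).mpr hpq
      have e2 : (fun i : ZMod N => tkI ρ p i.val * tkI ρ q i.val) =
          fun i : ZMod N => tkI ρ (p * q) i.val := by
        funext i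
        exact (tkI_mul ρ p q _ (hS p hp).ne_zero (hS q hq).ne_zero).symm
      rw [e2]
      have hsq : Squarefree (p * q) :=
        (Nat.squarefree_mul hco).mpr ⟨(hS p hp).prime.squarefree, (hS q hq).prime.squarefree⟩
      have e3 : Av (fun i : ZMod N => tkI ρ (p * q) i.val) = 1 / ((p * q : ℕ) : ℝ) :=
        Av_Dv ρ (p * q) hsq (hco.mul_dvd_of_dvd_of_dvd (hN p hp) (hN q hq))
      rw [e3]
      push_cast
      rw [one_div_mul_one_div]
  rw [h1]
  calc ∑ p ∈ S, ∑ q ∈ S, Av (fun i : ZMod N => tkI ρ p i.val * tkI ρ q i.val)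
      ≤ ∑ p ∈ S, ∑ q ∈ S, ((1 : ℝ) / p * (1 / q) + if p = q then (1 : ℝ) / p else 0) :=
        Finset.sum_le_sum fun p hp => Finset.sum_le_sum fun q hq => h2 p hp q hq
    _ = (∑ p ∈ S, (1 : ℝ) / p) ^ 2 + ∑ p ∈ S, (1 : ℝ) / p := by
        rw [sq, Finset.sum_mul_sum, ← Finset.sum_add_distrib]
        refine Finset.sum_congr rfl (fun p hp => ?_)
        rw [Finset.sum_add_distrib, Finset.sum_ite_eq, if_pos hp]

lemma tk_aux (m : ℕ) (W : ℕ) (y : ℕ) (hW : 0 < W) (L : ℝ) (hL : 1 ≤ L) :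
    ∃ (K : Finset ℕ) (c : ℝ) (M : ℕ), 0 < M ∧ 0 ≤ c ∧ c ≤ (1 / L) ^ m ∧
      (∀ κ ∈ K, Squarefree κ ∧ κ.primeFactors.card = m ∧ κ % W = 1 % W ∧
        (∀ p ∈ κ.primeFactors, p % W = 1 % W ∧ y < p) ∧ κ ∣ M) ∧
      ∑ κ ∈ K, c / κ = 1 ∧
      ∀ (N : ℕ) [NeZero N], M ∣ N → ∀ ρ : ℕ → ℕ,
        c ^ 2 * Av (fun i : ZMod N => (∑ κ ∈ K, tkI ρ κ i.val) ^ 2) ≤ (1 + 1 / L) ^ m := by
  classical
  induction m with
  | zero =>
    refine ⟨{1}, 1, 1, one_pos, zero_le_one, by simp, ?_, by simp, ?_⟩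
    · intro κ hκ
      rw [Finset.mem_singleton] at hκ
      subst hκ
      simp
    · intro N _ _ ρ
      have h1 : (fun i : ZMod N => (∑ κ ∈ ({1} : Finset ℕ), tkI ρ κ i.val) ^ 2) =
          fun _ : ZMod N => (1 : ℝ) := by
        funext i
        have h2 : tkI ρ 1 i.val = 1 := ind_of (by simp)
        rw [Finset.sum_singleton, h2, one_pow]
      rw [h1, Av_const]
      simp
  | succ m ih =>
    obtain ⟨K, c, M, hM, hc0, hcL, hK, hsum, hAv⟩ := ih
    obtain ⟨S, hS, hSL⟩ := primes_sum W hW (max y M) L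
    have hSp : ∀ p ∈ S, p.Prime := fun p hp => (hS p hp).1
    have hSM : ∀ p ∈ S, M < p := fun p hp => lt_of_le_of_lt (le_max_right _ _) (hS p hp).2.1
    have hSy : ∀ p ∈ S, y < p := fun p hp => lt_of_le_of_lt (le_max_left _ _) (hS p hp).2.1
    set L' : ℝ := ∑ p ∈ S, (1 : ℝ) / p with hL'
    have hL0 : 0 < L := by linarith
    have hL'0 : 0 < L' := by linarith
    have hKM : ∀ κ ∈ K, 0 < κ ∧ κ ≤ M := by
      intro κ hκ
      exact ⟨Nat.pos_of_ne_zero (hK κ hκ).1.ne_zero, Nat.le_of_dvd hM (hK κ hκ).2.2.2.2⟩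
    have hnd : ∀ κ ∈ K, ∀ p ∈ S, ¬ p ∣ κ := by
      intro κ hκ p hp hd
      have := Nat.le_of_dvd (hKM κ hκ).1 hd
      have := (hKM κ hκ).2
      have := hSM p hp
      omega
    have hcop : ∀ κ ∈ K, ∀ p ∈ S, κ.Coprime p := by
      intro κ hκ p hp
      exact ((hSp p hp).coprime_iff_not_dvd.mpr (hnd κ hκ p hp)).symm
    have hinj : Set.InjOn (fun x : ℕ × ℕ => x.1 * x.2) ((K ×ˢ S : Finset (ℕ × ℕ)) : Set (ℕ × ℕ)) := by
      rintro ⟨κ, p⟩ h1 ⟨κ', p'⟩ h2 heq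
      rw [Finset.mem_coe, Finset.mem_product] at h1 h2
      simp only at h1 h2 heq
      have hd : p ∣ κ' * p' := heq ▸ Dvd.intro_left κ rfl
      rcases (hSp p h1.2).dvd_mul.mp hd with hd | hd
      · exact absurd hd (hnd κ' h2.1 p h1.2)
      · have hpp : p = p' := (Nat.prime_dvd_prime_iff_eq (hSp p h1.2) (hSp p' h2.2)).mp hd
        subst hpp
        have : κ = κ' := Nat.eq_of_mul_eq_mul_right (hSp p h1.2).pos heq
        rw [this]
    have hsumK : ∀ g : ℕ → ℝ, ∑ κ ∈ (K ×ˢ S).image (fun x : ℕ × ℕ => x.1 * x.2), g κ =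
        ∑ κ ∈ K, ∑ p ∈ S, g (κ * p) := by
      intro g
      rw [Finset.sum_image hinj, Finset.sum_product]
    refine ⟨(K ×ˢ S).image (fun x : ℕ × ℕ => x.1 * x.2), c / L', M * ∏ p ∈ S, p,
      Nat.mul_pos hM (Finset.prod_pos fun p hp => (hSp p hp).pos), by positivity, ?_, ?_, ?_, ?_⟩
    · rw [pow_succ, div_eq_mul_one_div]
      refine mul_le_mul hcL (one_div_le_one_div_of_le hL0 hSL) (by positivity) (by positivity)
    · intro k hk
      rw [Finset.mem_image] at hk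
      obtain ⟨⟨κ, p⟩, hx, rfl⟩ := hk
      rw [Finset.mem_product] at hx
      simp only at hx ⊢
      obtain ⟨hκ, hp⟩ := hx
      obtain ⟨k1, k2, k3, k4, k5⟩ := hK κ hκ
      have hpr := hSp p hp
      refine ⟨(Nat.squarefree_mul (hcop κ hκ p hp)).mpr ⟨k1, hpr.prime.squarefree⟩, ?_, ?_, ?_, ?_⟩
      · rw [(hcop κ hκ p hp).primeFactors_mul, Finset.card_union_of_disjoint
          (hcop κ hκ p hp).disjoint_primeFactors, k2, hpr.primeFactors, Finset.card_singleton]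
      · rw [Nat.mul_mod, k3, (hS p hp).2.2, ← Nat.mul_mod, one_mul]
      · intro q hq
        rw [(hcop κ hκ p hp).primeFactors_mul, Finset.mem_union, hpr.primeFactors,
          Finset.mem_singleton] at hq
        rcases hq with hq | rfl
        · exact k4 q hq
        · exact ⟨(hS _ hp).2.2, hSy _ hp⟩
      · exact mul_dvd_mul k5 (Finset.dvd_prod_of_mem (fun p => p) hp)
    · rw [hsumK]
      have : ∀ κ ∈ K, ∑ p ∈ S, c / L' / ((κ * p : ℕ) : ℝ) = c / κ := by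
        intro κ hκ
        have hκ0 : (0 : ℝ) < κ := by exact_mod_cast (hKM κ hκ).1
        have e1 : ∀ p ∈ S, c / L' / ((κ * p : ℕ) : ℝ) = c / κ / L' * (1 / p) := by
          intro p hp
          have hp0 : (0 : ℝ) < p := by exact_mod_cast (hSp p hp).pos
          push_cast
          field_simp
        rw [Finset.sum_congr rfl e1, ← Finset.mul_sum, ← hL']
        field_simp
      rw [Finset.sum_congr rfl this, hsum]
    · intro N _ hMN ρ
      have hMN1 : M ∣ N := (Dvd.intro _ rfl).trans hMN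
      have hSN : ∀ p ∈ S, p ∣ N := fun p hp =>
        ((Finset.dvd_prod_of_mem (fun p => p) hp).trans (Dvd.intro_left _ rfl)).trans hMN
      have hfac : ∀ i : ZMod N,
          (∑ κ ∈ (K ×ˢ S).image (fun x : ℕ × ℕ => x.1 * x.2), tkI ρ κ i.val) ^ 2 =
          (∑ κ ∈ K, tkI ρ κ i.val) ^ 2 * (∑ p ∈ S, tkI ρ p i.val) ^ 2 := by
        intro i
        rw [hsumK, ← mul_pow, Finset.sum_mul_sum]
        congr 1
        refine Finset.sum_congr rfl fun κ hκ => Finset.sum_congr rfl fun p hp => ?_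
        exact tkI_mul ρ κ p _ (hK κ hκ).1.ne_zero (hSp p hp).ne_zero
      have hcoP : M.Coprime (∏ p ∈ S, p) := by
        apply Nat.Coprime.prod_right
        intro p hp
        refine ((hSp p hp).coprime_iff_not_dvd.mpr fun hd => ?_).symm
        have := Nat.le_of_dvd hM hd
        have := hSM p hp
        omega
      have hind := Av_indep (N := N) M (∏ p ∈ S, p) hcoP hMN
        (fun n => (∑ κ ∈ K, tkI ρ κ n) ^ 2) (fun n => (∑ p ∈ S, tkI ρ p n) ^ 2)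
        (fun n => by
          have h0 : ∑ κ ∈ K, tkI ρ κ (n + M) = ∑ κ ∈ K, tkI ρ κ n :=
            Finset.sum_congr rfl fun κ hκ => tkI_add ρ κ n M (hK κ hκ).2.2.2.2
          rw [h0])
        (fun n => by
          have h0 : ∑ p ∈ S, tkI ρ p (n + ∏ p ∈ S, p) = ∑ p ∈ S, tkI ρ p n :=
            Finset.sum_congr rfl fun p hp =>
              tkI_add ρ p n _ (Finset.dvd_prod_of_mem (fun p => p) hp)
          rw [h0])
      rw [funext hfac, hind]
      have hA := Av_tkI_sq (N := N) ρ S hSp hSN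
      rw [← hL'] at hA
      have hF := hAv N hMN1 ρ
      have hA0 : 0 ≤ Av (fun i : ZMod N => (∑ p ∈ S, tkI ρ p i.val) ^ 2) :=
        Av_nonneg fun i => sq_nonneg _
      have hA2 : Av (fun i : ZMod N => (∑ p ∈ S, tkI ρ p i.val) ^ 2) / L' ^ 2 ≤ 1 + 1 / L := by
        rw [div_le_iff₀ (by positivity)]
        refine hA.trans ?_
        have h1 : L' ≤ 1 / L * L' ^ 2 := by
          rw [one_div, inv_mul_eq_div, le_div_iff₀ hL0, sq]
          exact mul_le_mul_of_nonneg_left hSL hL'0.le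
        nlinarith
      calc (c / L') ^ 2 * (Av (fun i : ZMod N => (∑ κ ∈ K, tkI ρ κ i.val) ^ 2) *
            Av (fun i : ZMod N => (∑ p ∈ S, tkI ρ p i.val) ^ 2))
          = (c ^ 2 * Av (fun i : ZMod N => (∑ κ ∈ K, tkI ρ κ i.val) ^ 2)) *
            (Av (fun i : ZMod N => (∑ p ∈ S, tkI ρ p i.val) ^ 2) / L' ^ 2) := by
            field_simp
        _ ≤ (1 + 1 / L) ^ m * (1 + 1 / L) :=
            mul_le_mul hF hA2 (by positivity) (by positivity)
        _ = (1 + 1 / L) ^ (m + 1) := by rw [pow_succ]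

/-- TK -/
theorem tk (m : ℕ) (hm : 0 < m) (W : ℕ) (hW : 0 < W) (y : ℕ) (L : ℝ) (hL : 1 ≤ L) :
    ∃ (K : Finset ℕ) (w : ℕ → ℝ) (M : ℕ), 0 < M ∧
      (∀ κ ∈ K, Squarefree κ ∧ κ.primeFactors.card = m ∧ κ % W = 1 % W ∧
        (∀ p ∈ κ.primeFactors, p % W = 1 % W ∧ y < p) ∧ κ ∣ M ∧ 0 ≤ w κ) ∧
      ∑ κ ∈ K, w κ = 1 ∧ ∑ κ ∈ K, w κ ^ 2 * κ ≤ 1 / L ∧
      ∀ (N : ℕ) [NeZero N], M ∣ N → ∀ ρ : ℕ → ℕ,
        Av (fun i : ZMod N => ∑ κ ∈ K, w κ * κ * ind (Dv ρ κ i)) = 1 ∧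
        Av (fun i : ZMod N => (∑ κ ∈ K, w κ * κ * ind (Dv ρ κ i) - 1) ^ 2) ≤ (1 + 1 / L) ^ m - 1 := by
  obtain ⟨K, c, M, hM, hc0, hcL, hK, hsum, hAv⟩ := tk_aux m W y hW L hL
  have hL0 : 0 < L := by linarith
  have hκ0 : ∀ κ ∈ K, (0 : ℝ) < κ := by
    intro κ hκ
    exact_mod_cast Nat.pos_of_ne_zero (hK κ hκ).1.ne_zero
  refine ⟨K, fun κ => c / κ, M, hM, ?_, hsum, ?_, ?_⟩
  · intro κ hκ
    obtain ⟨k1, k2, k3, k4, k5⟩ := hK κ hκ
    exact ⟨k1, k2, k3, k4, k5, by positivity⟩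
  · have e1 : ∀ κ ∈ K, (c / κ) ^ 2 * κ = c * (c / κ) := by
      intro κ hκ
      have := hκ0 κ hκ
      field_simp
    rw [Finset.sum_congr rfl e1, ← Finset.mul_sum, hsum, mul_one]
    refine hcL.trans ?_
    have h1 : 1 / L ≤ 1 := by
      rw [div_le_one hL0]
      exact hL
    calc (1 / L) ^ m ≤ (1 / L) ^ 1 := pow_le_pow_of_le_one (by positivity) h1 hm
      _ = 1 / L := pow_one _
  · intro N _ hMN ρ
    have hV : ∀ i : ZMod N, ∑ κ ∈ K, c / κ * κ * ind (Dv ρ κ i) =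
        c * ∑ κ ∈ K, tkI ρ κ i.val := by
      intro i
      rw [Finset.mul_sum]
      refine Finset.sum_congr rfl fun κ hκ => ?_
      have := hκ0 κ hκ
      rw [tkI_eq, div_mul_cancel₀ _ this.ne']
    have hAv1 : Av (fun i : ZMod N => c * ∑ κ ∈ K, tkI ρ κ i.val) = 1 := by
      rw [Av_const_mul, Av_tkI ρ K (fun κ hκ => (hK κ hκ).1)
        (fun κ hκ => (hK κ hκ).2.2.2.2.trans hMN), Finset.mul_sum]
      refine Eq.trans (Finset.sum_congr rfl fun κ hκ => ?_) hsum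
      rw [mul_one_div]
    simp only [hV]
    refine ⟨hAv1, ?_⟩
    have e2 : (fun i : ZMod N => (c * ∑ κ ∈ K, tkI ρ κ i.val - 1) ^ 2) =
        fun i : ZMod N => (c ^ 2 * (∑ κ ∈ K, tkI ρ κ i.val) ^ 2 + 1) -
          2 * (c * ∑ κ ∈ K, tkI ρ κ i.val) := by
      funext i
      ring
    rw [e2, Av_sub, Av_add, Av_const, Av_const_mul, Av_const_mul 2, hAv1]
    have := hAv N hMN ρ
    linarith

end Pool.Agent.OmQ
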