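import Pool.Agent.Lib_MP_f1a94e_q.Defs

set_option autoImplicit false

namespace Pool.Agent.OmQ

open Finset

theorem QQ_pos (b n : ℕ) (hb : 0 < b) : 0 < QQ b n := by
  unfold QQ
  apply Nat.mul_pos hb
  apply Finset.prod_pos
  intro p hp
  exact (Finset.mem_filter.mp hp).2.1.pos

theorem dvd_QQ_base (b n : ℕ) : b ∣ QQ b n := Dvd.intro _ rfl

theorem QQ_mono_dvd (b : ℕ) {n m : ℕ} (h : n ≤ m) : QQ b n ∣ QQ b m := by
  unfold QQ
  apply Nat.mul_dvd_mul_left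
  apply Finset.prod_dvd_prod_of_subset
  intro p hp
  rw [Finset.mem_filter, Finset.mem_range] at hp ⊢
  exact ⟨lt_of_lt_of_le hp.1 (Nat.pow_le_pow_right (by norm_num) h), hp.2⟩

theorem QQ_succ (b n : ℕ) (hb : 0 < b) (h : b < 2 ^ n) : QQ b (n + 1) = QQ b n * ∏ p ∈ PP n, p := by
  unfold QQ PP
  rw [mul_assoc]
  congr 1
  rw [← Finset.prod_union]
  · apply Finset.prod_congr _ (fun _ _ => rfl)
    ext p
    simp only [Finset.mem_filter, Finset.mem_range, Finset.mem_union, Finset.mem_Ico]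
    constructor
    · rintro ⟨h1, h2, h3, h4⟩
      by_cases h5 : p < 2 ^ n
      · exact Or.inl ⟨h5, h2, h3, h4⟩
      · exact Or.inr ⟨⟨by omega, h1⟩, h2, h3⟩
    · rintro (⟨h1, h2, h3, h4⟩ | ⟨⟨h1, h1'⟩, h2, h3⟩)
      · exact ⟨lt_of_lt_of_le h1 (Nat.pow_le_pow_right (by norm_num) (by omega)), h2, h3, h4⟩
      · refine ⟨h1', h2, h3, ?_⟩
        intro h4
        have := Nat.le_of_dvd hb h4
        omega
  · rw [Finset.disjoint_left]
    intro p hp hp'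
    rw [Finset.mem_filter, Finset.mem_range] at hp
    rw [Finset.mem_filter, Finset.mem_Ico] at hp'
    omega

theorem QQ_coprime (b n : ℕ) (hb : 0 < b) (h : b < 2 ^ n) : ∀ p ∈ PP n, p.Coprime (QQ b n) := by
  intro p hp
  unfold PP at hp
  rw [Finset.mem_filter, Finset.mem_Ico] at hp
  obtain ⟨⟨h1, h1'⟩, h2, h3⟩ := hp
  unfold QQ
  apply Nat.Coprime.mul_right
  · rw [Nat.Prime.coprime_iff_not_dvd h2]
    intro h4
    have := Nat.le_of_dvd hb h4
    omega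
  · apply Nat.Coprime.prod_right
    intro l hl
    rw [Finset.mem_filter, Finset.mem_range] at hl
    rw [Nat.coprime_primes h2 hl.2.1]
    omega

theorem dvd_QQ (b n κ : ℕ) (hκ : Squarefree κ)
    (h : ∀ p ∈ κ.primeFactors, p % 4 = 1 ∧ ¬ p ∣ b ∧ p < 2 ^ n) : κ ∣ QQ b n := by
  rw [← Nat.prod_primeFactors_of_squarefree hκ]
  unfold QQ
  apply Dvd.dvd.mul_left
  apply Finset.prod_dvd_prod_of_subset
  intro p hp
  obtain ⟨h1, h2, h3⟩ := h p hp
  rw [Finset.mem_filter, Finset.mem_range]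
  exact ⟨h3, Nat.prime_of_mem_primeFactors hp, h1, h2⟩

theorem PP_prime {n p : ℕ} (hp : p ∈ PP n) : p.Prime ∧ 2 ^ n ≤ p ∧ p < 2 ^ (n + 1) := by
  unfold PP at hp
  rw [Finset.mem_filter, Finset.mem_Ico] at hp
  exact ⟨hp.2.1, hp.1.1, hp.1.2⟩

theorem PP_mod {n p : ℕ} (hp : p ∈ PP n) : p % 4 = 1 := by
  unfold PP at hp
  rw [Finset.mem_filter, Finset.mem_Ico] at hp
  exact hp.2.2

end Pool.Agent.OmQ
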