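import Pool.Agent.Lib_MP_f1a94e_q.Defs

set_option autoImplicit false

namespace Pool.Agent.OmQ

open Finset

theorem exists_windows (Kb W W' WJ n : ℕ) (τ : ℝ) (hτ : 0 < τ) (hτ1 : τ ≤ 1) (hKb : 0 < Kb)
    (hW : 0 < W) (hW' : 0 < W') (hWW : W ≤ W') (hWJ : W' ≤ WJ)
    (hn : 2 * Real.pi * WJ * Kb ≤ 2 ^ n) :
    ∃ T T' : ℕ, 0 < T ∧ 0 < T' ∧ (Kb : ℝ) * 2 ^ (n + 1) ≤ τ * W * T ∧
      2 * Real.pi * T' * W' ≤ (1 / Kb : ℝ) * 2 ^ n ∧
      2 * Real.pi * T * (τ / 4 * τ / (8 * Real.pi * Kb)) ≤ τ / 4 * 2 ^ n ∧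
      2 * Real.pi * T' * ((W' : ℝ) / W) * (τ / 4 * τ / (8 * Real.pi * Kb)) ≤ τ / 4 * 2 ^ n ∧
      2 ^ n ≤ 2 * (τ / 4) * T' * (2 * Real.pi * WJ * Kb / (τ / 4)) ∧
      W' * 2 ^ n ≤ 2 * (τ / 4) * T * W * (2 * Real.pi * WJ * Kb / (τ / 4)) := by
  have hpi := Real.pi_gt_three
  have hpi0 := Real.pi_pos
  have hKbR : (1 : ℝ) ≤ Kb := by exact_mod_cast hKb
  have hWR : (1 : ℝ) ≤ W := by exact_mod_cast hW
  have hW'R : (1 : ℝ) ≤ W' := by exact_mod_cast hW'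
  have hWWR : (W : ℝ) ≤ W' := by exact_mod_cast hWW
  have hWJR : (W' : ℝ) ≤ WJ := by exact_mod_cast hWJ
  have h2n : (0 : ℝ) < 2 ^ n := by positivity
  have hWJ1 : (1 : ℝ) ≤ WJ := hW'R.trans hWJR
  -- basic size facts
  have hs1 : (W' : ℝ) * Kb ≤ WJ * Kb := by gcongr
  have hs2 : (WJ : ℝ) * Kb ≤ 2 * Real.pi * WJ * Kb := by
    have : (0 : ℝ) ≤ WJ * Kb := by positivity
    nlinarith
  have hs3 : (W : ℝ) ≤ 2 ^ n := by
    have : (W : ℝ) ≤ W' * Kb := by nlinarith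
    linarith
  set x : ℝ := Kb * 2 ^ (n + 1) / (τ * W) with hx
  have hxpos : 0 < x := by positivity
  have hx1 : 1 ≤ x := by
    rw [hx, le_div_iff₀ (by positivity), pow_succ]
    have h1 : τ * W ≤ W := by nlinarith
    have h2 : (2 : ℝ) ^ n ≤ Kb * 2 ^ n := by nlinarith
    nlinarith
  set y : ℝ := 2 ^ n / (2 * Real.pi * W' * Kb) with hy
  have hden : (0 : ℝ) < 2 * Real.pi * W' * Kb := by positivity
  have hy1 : 1 ≤ y := by
    rw [hy, le_div_iff₀ hden]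
    have : 2 * Real.pi * W' * Kb ≤ 2 * Real.pi * WJ * Kb := by gcongr
    linarith
  refine ⟨⌈x⌉₊, ⌊y⌋₊, ?_, ?_, ?_, ?_, ?_, ?_, ?_, ?_⟩
  · exact Nat.ceil_pos.mpr hxpos
  · exact Nat.floor_pos.mpr hy1
  · have h1 : x ≤ (⌈x⌉₊ : ℝ) := Nat.le_ceil x
    calc (Kb : ℝ) * 2 ^ (n + 1) = τ * W * x := by rw [hx]; field_simp
      _ ≤ τ * W * (⌈x⌉₊ : ℝ) := by gcongr
  · have h1 : (⌊y⌋₊ : ℝ) ≤ y := Nat.floor_le (by linarith)
    calc 2 * Real.pi * (⌊y⌋₊ : ℝ) * W' ≤ 2 * Real.pi * y * W' := by gcongr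
      _ = 1 / Kb * 2 ^ n := by rw [hy]; field_simp
  · have h1 : (⌈x⌉₊ : ℝ) ≤ 2 * x := by
      have := (Nat.ceil_lt_add_one hxpos.le).le
      linarith
    calc 2 * Real.pi * (⌈x⌉₊ : ℝ) * (τ / 4 * τ / (8 * Real.pi * Kb))
        ≤ 2 * Real.pi * (2 * x) * (τ / 4 * τ / (8 * Real.pi * Kb)) := by gcongr
      _ = τ / 4 * 2 ^ n / W := by rw [hx, pow_succ]; field_simp; ring
      _ ≤ τ / 4 * 2 ^ n := div_le_self (by positivity) hWR
  · have h1 : (⌊y⌋₊ : ℝ) ≤ y := Nat.floor_le (by linarith)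
    calc 2 * Real.pi * (⌊y⌋₊ : ℝ) * ((W' : ℝ) / W) * (τ / 4 * τ / (8 * Real.pi * Kb))
        ≤ 2 * Real.pi * y * ((W' : ℝ) / W) * (τ / 4 * τ / (8 * Real.pi * Kb)) := by gcongr
      _ = τ / 4 * 2 ^ n * (τ / (W * Kb * (8 * Real.pi * Kb))) := by rw [hy]; field_simp
      _ ≤ τ / 4 * 2 ^ n * 1 := by
          gcongr
          rw [div_le_one (by positivity)]
          have h3 : (1 : ℝ) ≤ W * Kb := by nlinarith
          have h4 : (1 : ℝ) ≤ 8 * Real.pi * Kb := by nlinarith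
          nlinarith
      _ = τ / 4 * 2 ^ n := by ring
  · have h1 : y / 2 ≤ (⌊y⌋₊ : ℝ) := by
      have h2 := Nat.lt_floor_add_one y
      have h3 : (1 : ℝ) ≤ (⌊y⌋₊ : ℝ) := by exact_mod_cast Nat.floor_pos.mpr hy1
      linarith
    calc (2 : ℝ) ^ n ≤ 2 ^ n * (WJ / W') := by
          apply le_mul_of_one_le_right h2n.le
          rw [le_div_iff₀ (by positivity)]
          linarith
      _ = 2 * (τ / 4) * (y / 2) * (2 * Real.pi * WJ * Kb / (τ / 4)) := by rw [hy]; field_simp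
      _ ≤ _ := by gcongr
  · have h1 : x ≤ (⌈x⌉₊ : ℝ) := Nat.le_ceil x
    calc (W' : ℝ) * 2 ^ n ≤ 2 * (τ / 4) * x * W * (2 * Real.pi * WJ * Kb / (τ / 4)) := by
          have : 2 * (τ / 4) * x * W * (2 * Real.pi * WJ * Kb / (τ / 4)) =
              (8 * Real.pi * Kb * Kb / τ) * (WJ * 2 ^ n) := by
            rw [hx, pow_succ]; field_simp; ring
          rw [this]
          have h3 : (1 : ℝ) ≤ 8 * Real.pi * Kb * Kb / τ := by
            rw [le_div_iff₀ hτ]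
            have : (1 : ℝ) ≤ Kb * Kb := by nlinarith
            nlinarith
          have h4 : (W' : ℝ) * 2 ^ n ≤ WJ * 2 ^ n := by gcongr
          have h5 : (0 : ℝ) ≤ WJ * 2 ^ n := by positivity
          nlinarith
      _ ≤ _ := by gcongr

end Pool.Agent.OmQ
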