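import Pool.Agent.Lib_MP_f1a94e_q.Defs
import Pool.Agent.Lib_MP_f1a94e_q.ThmS

set_option autoImplicit false

namespace Pool.Agent.OmQ

open Finset LibLS

lemma thmC_per {N : ℕ} {P : ZMod N → Prop} {b : ℕ} (hP : ∀ i, P (i + (b : ZMod N)) ↔ P i)
    (k : ℕ) (i : ZMod N) : P (i + ((b * k : ℕ) : ZMod N)) ↔ P i := by
  induction k with
  | zero => simp
  | succ k ih =>
    have h1 : i + ((b * (k + 1) : ℕ) : ZMod N) = (i + ((b * k : ℕ) : ZMod N)) + (b : ZMod N) := by
      push_cast; ring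
    rw [h1, hP, ih]

lemma thmC_dens {N : ℕ} [NeZero N] {P : ZMod N → Prop} {b : ℕ} (hb : 0 < b) (hbN : b ∣ N)
    (hP : ∀ i, P (i + (b : ZMod N)) ↔ P i) (i0 : ZMod N) (h0 : P i0) :
    1 / (b : ℝ) ≤ Av (fun i : ZMod N => ind (P i)) := by
  classical
  obtain ⟨k, hk⟩ := hbN
  have hN0 : N ≠ 0 := NeZero.ne N
  have hN := @Npos N _
  have hb' : (0 : ℝ) < b := by exact_mod_cast hb
  set f : ℕ → ZMod N := fun t => i0 + ((b * t : ℕ) : ZMod N) with hf
  have hinj : Set.InjOn f (range k : Finset ℕ) := by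
    intro s hs t ht hst
    simp only [coe_range, Set.mem_Iio] at hs ht
    have h1 : ((b * s : ℕ) : ZMod N) = ((b * t : ℕ) : ZMod N) := add_left_cancel hst
    rw [ZMod.natCast_eq_natCast_iff] at h1
    have hs' : b * s < N := by rw [hk]; exact Nat.mul_lt_mul_of_pos_left hs hb
    have ht' : b * t < N := by rw [hk]; exact Nat.mul_lt_mul_of_pos_left ht hb
    exact Nat.eq_of_mul_eq_mul_left hb (Nat.ModEq.eq_of_lt_of_lt h1 hs' ht')
  have h1 : (k : ℝ) ≤ ∑ i : ZMod N, ind (P i) := by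
    calc (k : ℝ) = ∑ i ∈ (range k).image f, (1 : ℝ) := by
          rw [sum_const, card_image_of_injOn hinj, card_range, nsmul_eq_mul, mul_one]
      _ ≤ ∑ i ∈ (range k).image f, ind (P i) := by
          apply sum_le_sum
          intro i hi
          obtain ⟨t, _, rfl⟩ := mem_image.mp hi
          rw [ind_of ((thmC_per hP t i0).mpr h0)]
      _ ≤ ∑ i : ZMod N, ind (P i) :=
          sum_le_sum_of_subset_of_nonneg (subset_univ _) fun i _ _ => ind_nonneg _
  have h2 : (N : ℝ) = b * k := by rw [hk]; push_cast; ring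
  unfold Av
  rw [le_div_iff₀ hN]
  refine le_trans (le_of_eq ?_) h1
  rw [h2]
  field_simp

lemma thmC_avW {N : ℕ} {P : ZMod N → Prop} {b W T : ℕ} (hT : 0 < T) (hbW : b ∣ W)
    (hP : ∀ i, P (i + (b : ZMod N)) ↔ P i) (i : ZMod N) :
    avW W T (fun i => ind (P i)) i = ind (P i) := by
  obtain ⟨k, rfl⟩ := hbW
  have hT' : (T : ℝ) ≠ 0 := by exact_mod_cast hT.ne'
  unfold avW
  have h1 : ∀ r ∈ range T, ind (P (i + ((b * k * r : ℕ) : ZMod N))) = ind (P i) := by
    intro r _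
    have h2 : b * k * r = b * (k * r) := by ring
    rw [h2, thmC_per hP]
  rw [sum_congr rfl h1, sum_const, card_range, nsmul_eq_mul]
  field_simp

lemma thmC_split {N : ℕ} {q : ℕ} [NeZero q] (A : ZMod N → Prop) (X : ZMod N → ZMod q)
    (i : ZMod N) : ∑ c : ZMod q, ind (A i ∧ X i = c) = ind (A i) := by
  rw [sum_eq_single_of_mem (X i) (mem_univ _)]
  · congr 1
    simp
  · intro c _ hne
    exact ind_not fun h => hne h.2.symm

/-- THMC -/
theorem thmC (q : ℕ) [NeZero q] (TT : Set (ZMod q)) (hTT : ∀ c : ZMod q, ∃ j : ℕ, c - 2 * (j : ZMod q) ∈ TT)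
    (b : ℕ) (hb : 0 < b) :
    ∃ (K0 Pi : ℕ) (ε0 : ℝ), 0 < Pi ∧ b ∣ Pi ∧ 0 < ε0 ∧ ∀ (N : ℕ) [NeZero N], Pi ∣ N →
      ∀ (X Y : ZMod N → ZMod q) (A A' : ZMod N → Prop) (ρ : ℕ → ℕ),
      (∀ i, A (i + (b : ZMod N)) ↔ A i) → (∀ i, A' (i + (b : ZMod N)) ↔ A' i) →
      (∀ h : ℕ, h.Coprime b → ∃ i : ZMod N, A i ∧ A' (i + (h : ZMod N))) →
      ε0 ≤ Av (fun i => ind (Good K0 b ρ TT X Y A A' i)) := by
  have hq0 : (0 : ℝ) < q := by exact_mod_cast Nat.pos_of_ne_zero (NeZero.ne q)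
  have hb0 : (0 : ℝ) < b := by exact_mod_cast hb
  obtain ⟨K0, Pi, ε0, hPi, hbPi, hε, hmain⟩ := thmS q TT b hb (1 / (2 * b * (q : ℝ) ^ 2))
    (by positivity)
  refine ⟨K0, Pi, ε0, hPi, hbPi, hε, ?_⟩
  intro N _ hPiN X Y A A' ρ hA hA' hex
  by_contra hlt
  rw [not_le] at hlt
  obtain ⟨W, T, n, hW, hT, hbW, hcard, hbn, hcc⟩ := hmain N hPiN X Y A A' ρ hlt
  have hcard' : (0 : ℝ) < (PP n).card := by exact_mod_cast hcard
  -- sum over all pairs
  have hupper : ∑ c : ZMod q, ∑ c' : ZMod q, ∑ p ∈ PP n, Av (fun i => ind (A i ∧ X i = c) *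
      avW W T (fun i => ind (A' i ∧ Y i = c')) (i + ((p % W : ℕ) : ZMod N))) ≤
      (PP n).card / (2 * b) := by
    calc ∑ c : ZMod q, ∑ c' : ZMod q, ∑ p ∈ PP n, Av (fun i => ind (A i ∧ X i = c) *
          avW W T (fun i => ind (A' i ∧ Y i = c')) (i + ((p % W : ℕ) : ZMod N)))
        ≤ ∑ c : ZMod q, ∑ c' : ZMod q, 1 / (2 * b * (q : ℝ) ^ 2) * (PP n).card :=
          sum_le_sum fun c _ => sum_le_sum fun c' _ => hcc c c' (hTT (c + c'))
      _ = (PP n).card / (2 * b) := by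
          simp only [sum_const, card_univ, ZMod.card, nsmul_eq_mul]
          field_simp
  have hlower : (PP n).card / (b : ℝ) ≤
      ∑ c : ZMod q, ∑ c' : ZMod q, ∑ p ∈ PP n, Av (fun i => ind (A i ∧ X i = c) *
      avW W T (fun i => ind (A' i ∧ Y i = c')) (i + ((p % W : ℕ) : ZMod N))) := by
    have hswap : ∑ c : ZMod q, ∑ c' : ZMod q, ∑ p ∈ PP n, Av (fun i => ind (A i ∧ X i = c) *
        avW W T (fun i => ind (A' i ∧ Y i = c')) (i + ((p % W : ℕ) : ZMod N))) =
        ∑ p ∈ PP n, ∑ c : ZMod q, ∑ c' : ZMod q, Av (fun i => ind (A i ∧ X i = c) *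
        avW W T (fun i => ind (A' i ∧ Y i = c')) (i + ((p % W : ℕ) : ZMod N))) := by
      rw [sum_comm]
      rw [sum_congr rfl fun c' _ => sum_comm]
      rw [sum_comm]
      refine sum_congr rfl fun p _ => ?_
      rw [sum_comm]
    rw [hswap]
    have hone : ∀ p ∈ PP n, 1 / (b : ℝ) ≤
        ∑ c : ZMod q, ∑ c' : ZMod q, Av (fun i => ind (A i ∧ X i = c) *
        avW W T (fun i => ind (A' i ∧ Y i = c')) (i + ((p % W : ℕ) : ZMod N))) := by
      intro p hp
      have hpp : p.Prime ∧ 2 ^ n ≤ p := by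
        unfold PP at hp
        rw [mem_filter, mem_Ico] at hp
        exact ⟨hp.2.1, hp.1.1⟩
      have hcop : (p % W).Coprime b := by
        have h1 : p.Coprime b := (Nat.Prime.coprime_iff_not_dvd hpp.1).mpr
          (fun h => absurd (Nat.le_of_dvd hb h) (by omega))
        have h2 : Nat.gcd (p % W) b = Nat.gcd p b := by
          have h3 : p % W ≡ p [MOD b] := (Nat.mod_modEq p W).of_dvd hbW
          exact h3.gcd_eq
        unfold Nat.Coprime
        rw [h2]; exact h1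
      obtain ⟨i0, hi0, hi0'⟩ := hex _ hcop
      have hP : ∀ i : ZMod N, (A (i + (b : ZMod N)) ∧
          A' (i + (b : ZMod N) + ((p % W : ℕ) : ZMod N))) ↔
          (A i ∧ A' (i + ((p % W : ℕ) : ZMod N))) := by
        intro i
        rw [hA i]
        have h4 : i + (b : ZMod N) + ((p % W : ℕ) : ZMod N) =
            i + ((p % W : ℕ) : ZMod N) + (b : ZMod N) := by ring
        rw [h4, hA']
      have h5 := thmC_dens (P := fun i : ZMod N => A i ∧ A' (i + ((p % W : ℕ) : ZMod N))) hb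
        (hbPi.trans hPiN) hP i0 ⟨hi0, hi0'⟩
      refine h5.trans (le_of_eq ?_)
      have h6 : ∀ i : ZMod N, ind (A i ∧ A' (i + ((p % W : ℕ) : ZMod N))) =
          ∑ c : ZMod q, ∑ c' : ZMod q, ind (A i ∧ X i = c) *
            avW W T (fun i => ind (A' i ∧ Y i = c')) (i + ((p % W : ℕ) : ZMod N)) := by
        intro i
        have h7 : ∀ x : ZMod N, ∑ c' : ZMod q, avW W T (fun i => ind (A' i ∧ Y i = c')) x =
            ind (A' x) := by
          intro x
          rw [← thmC_avW hT hbW hA' x]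
          unfold avW
          rw [← sum_div, sum_comm]
          congr 1
          exact sum_congr rfl fun r _ => thmC_split A' Y _
        simp only [← mul_sum]
        rw [h7, ← sum_mul, thmC_split, ind_mul]
      rw [show (fun i : ZMod N => ind (A i ∧ A' (i + ((p % W : ℕ) : ZMod N)))) =
        fun i => ∑ c : ZMod q, ∑ c' : ZMod q, ind (A i ∧ X i = c) *
            avW W T (fun i => ind (A' i ∧ Y i = c')) (i + ((p % W : ℕ) : ZMod N)) from funext h6]
      rw [Av_sum]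
      refine sum_congr rfl fun c _ => ?_
      rw [Av_sum]
    calc (PP n).card / (b : ℝ) = ∑ p ∈ PP n, 1 / (b : ℝ) := by
          rw [sum_const, nsmul_eq_mul]; ring
      _ ≤ _ := sum_le_sum hone
  have h8 := hlower.trans hupper
  have h9 : ((PP n).card : ℝ) / (2 * b) < (PP n).card / (b : ℝ) := by
    apply div_lt_div_of_pos_left hcard' hb0
    linarith
  linarith

end Pool.Agent.OmQ
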