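import Pool.Agent.Lib_MP_f1a94e_q.Defs
import Pool.Agent.Lib_MP_f1a94e_q.ThmD

set_option autoImplicit false

namespace Pool.Agent.OmQ

open Finset LibLS

/-- `2 j^2 + 2 j + 1` has a root modulo every prime `1 mod 4` -/
lemma lc_root (p : ℕ) (hp : p.Prime) (h4 : p % 4 = 1) : ∃ r : ℕ, p ∣ 2 * r ^ 2 + 2 * r + 1 := by
  have : Fact p.Prime := ⟨hp⟩
  have hsq : IsSquare (-1 : ZMod p) := ZMod.exists_sq_eq_neg_one_iff.mpr (by omega)
  obtain ⟨y, hy⟩ := hsq
  have h2 : (2 : ZMod p) ≠ 0 := by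
    intro h
    have h' : ((2 : ℕ) : ZMod p) = 0 := by exact_mod_cast h
    rw [ZMod.natCast_eq_zero_iff] at h'
    have := Nat.le_of_dvd (by norm_num) h'
    have := hp.two_le
    have : p = 2 := by omega
    subst this
    omega
  refine ⟨((y - 1) / 2 : ZMod p).val, ?_⟩
  rw [← ZMod.natCast_eq_zero_iff]
  push_cast
  rw [ZMod.natCast_zmod_val]
  field_simp
  linear_combination -hy

/-- there is a residue at which neither factor vanishes -/
lemma lc_res (p : ℕ) (hp : p.Prime) (h : ℕ) : ∃ r : ℕ, ¬ p ∣ 2 * r ^ 2 + 2 * r + 1 ∧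
    ¬ p ∣ 2 * (r + h) ^ 2 + 2 * (r + h) + 1 := by
  have : Fact p.Prime := ⟨hp⟩
  by_cases h5 : 5 ≤ p
  · by_contra hcon
    push Not at hcon
    -- the polynomial
    let f : Polynomial (ZMod p) := 2 * Polynomial.X ^ 2 + 2 * Polynomial.X + 1
    have h2 : (2 : ZMod p) ≠ 0 := by
      intro h0
      have h' : ((2 : ℕ) : ZMod p) = 0 := by exact_mod_cast h0
      rw [ZMod.natCast_eq_zero_iff] at h'
      have := Nat.le_of_dvd (by norm_num) h'
      omega
    have hfd : f = Polynomial.C 2 * Polynomial.X ^ 2 + Polynomial.C 2 * Polynomial.X +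
        Polynomial.C 1 := by
      simp only [f, map_ofNat, map_one]
    have hdeg : f.natDegree = 2 := by
      rw [hfd]
      exact Polynomial.natDegree_quadratic h2
    have hf0 : f ≠ 0 := by
      intro h0
      rw [h0] at hdeg
      simp at hdeg
    let g : Polynomial (ZMod p) := f.comp (Polynomial.X + Polynomial.C (h : ZMod p))
    have hgdeg : g.natDegree = 2 := by
      simp only [g]
      rw [Polynomial.natDegree_comp, hdeg, Polynomial.natDegree_X_add_C]
    have hg0 : g ≠ 0 := by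
      intro h0
      rw [h0] at hgdeg
      simp at hgdeg
    have hroots : ∀ x : ZMod p, (f * g).IsRoot x := by
      intro x
      have := hcon x.val
      by_cases hx : p ∣ 2 * x.val ^ 2 + 2 * x.val + 1
      · rw [← ZMod.natCast_eq_zero_iff] at hx
        push_cast at hx
        rw [ZMod.natCast_zmod_val] at hx
        simp only [Polynomial.IsRoot.def, Polynomial.eval_mul]
        have : Polynomial.eval x f = 0 := by
          simp only [f, Polynomial.eval_add, Polynomial.eval_mul, Polynomial.eval_pow,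
            Polynomial.eval_X, Polynomial.eval_one, Polynomial.eval_ofNat]
          exact hx
        rw [this, zero_mul]
      · have hx' := this hx
        rw [← ZMod.natCast_eq_zero_iff] at hx'
        push_cast at hx'
        rw [ZMod.natCast_zmod_val] at hx'
        simp only [Polynomial.IsRoot.def, Polynomial.eval_mul]
        have : Polynomial.eval x g = 0 := by
          simp only [g, f, Polynomial.eval_comp, Polynomial.eval_add, Polynomial.eval_mul,
            Polynomial.eval_pow, Polynomial.eval_X, Polynomial.eval_one, Polynomial.eval_ofNat,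
            Polynomial.eval_C]
          exact hx'
        rw [this, mul_zero]
    have hfg : f * g ≠ 0 := mul_ne_zero hf0 hg0
    have hcard : (Finset.univ : Finset (ZMod p)).card ≤ (f * g).natDegree := by
      refine Polynomial.card_le_degree_of_subset_roots (p := f * g) (Z := Finset.univ) ?_
      intro x _
      rw [Polynomial.mem_roots hfg]
      exact hroots x
    rw [Finset.card_univ, ZMod.card, Polynomial.natDegree_mul hf0 hg0, hdeg, hgdeg] at hcard
    omega
  · have hp2 := hp.two_le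
    interval_cases p
    · refine ⟨0, ?_, ?_⟩
      · omega
      · intro hd
        obtain ⟨c, hc⟩ := hd
        ring_nf at hc
        omega
    · refine ⟨0, by norm_num, ?_⟩
      intro hd
      have h3 : h % 3 = 0 ∨ h % 3 = 1 ∨ h % 3 = 2 := by omega
      have hm : (2 * (0 + h) ^ 2 + 2 * (0 + h) + 1) % 3 = 0 := Nat.mod_eq_zero_of_dvd hd
      rcases h3 with h3 | h3 | h3 <;> simp [Nat.add_mod, Nat.mul_mod, Nat.pow_mod, h3] at hm
    · exact absurd hp (by norm_num)

/-- existence of an index at which both numbers are rough -/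
lemma lc_exists (P0 h : ℕ) : ∃ i : ℕ, Nat.Coprime (2 * i ^ 2 + 2 * i + 1) P0.factorial ∧
    Nat.Coprime (2 * (i + h) ^ 2 + 2 * (i + h) + 1) P0.factorial := by
  have hr : ∀ p : ℕ, ∃ r : ℕ, p.Prime → ¬ p ∣ 2 * r ^ 2 + 2 * r + 1 ∧
      ¬ p ∣ 2 * (r + h) ^ 2 + 2 * (r + h) + 1 := by
    intro p
    by_cases hp : p.Prime
    · obtain ⟨r, hr⟩ := lc_res p hp h
      exact ⟨r, fun _ => hr⟩
    · exact ⟨0, fun h => absurd h hp⟩
  choose r hr using hr
  let t : Finset ℕ := (range (P0 + 1)).filter Nat.Prime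
  have ht : ∀ p ∈ t, (fun p : ℕ => p) p ≠ 0 := by
    intro p hp
    exact (Finset.mem_filter.mp hp).2.ne_zero
  have hpw : Set.Pairwise (t : Set ℕ) (Function.onFun Nat.Coprime (fun p : ℕ => p)) := by
    intro p hp p' hp' hne
    have h1 := (Finset.mem_filter.mp (Finset.mem_coe.mp hp)).2
    have h2 := (Finset.mem_filter.mp (Finset.mem_coe.mp hp')).2
    exact (Nat.coprime_primes h1 h2).mpr hne
  obtain ⟨i, hi⟩ := Nat.chineseRemainderOfFinset r (fun p : ℕ => p) t ht hpw
  refine ⟨i, ?_, ?_⟩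
  · by_contra hcon
    obtain ⟨p, hp, hd, hd'⟩ := Nat.Prime.not_coprime_iff_dvd.mp hcon
    have hpP : p ≤ P0 := (hp.dvd_factorial).mp hd'
    have hm : p ∈ t := Finset.mem_filter.mpr ⟨Finset.mem_range.mpr (by omega), hp⟩
    have hmod := hi p hm
    have h2 : 2 * i ^ 2 + 2 * i + 1 ≡ 2 * (r p) ^ 2 + 2 * (r p) + 1 [MOD p] := by
      gcongr
    exact (hr p hp).1 ((h2.dvd_iff (dvd_refl p)).mp hd)
  · by_contra hcon
    obtain ⟨p, hp, hd, hd'⟩ := Nat.Prime.not_coprime_iff_dvd.mp hcon
    have hpP : p ≤ P0 := (hp.dvd_factorial).mp hd'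
    have hm : p ∈ t := Finset.mem_filter.mpr ⟨Finset.mem_range.mpr (by omega), hp⟩
    have hmod := hi p hm
    have h2 : 2 * (i + h) ^ 2 + 2 * (i + h) + 1 ≡ 2 * (r p + h) ^ 2 + 2 * (r p + h) + 1 [MOD p] := by
      gcongr
    exact (hr p hp).2 ((h2.dvd_iff (dvd_refl p)).mp hd)

lemma lc_periodic (P0 i : ℕ) :
    Nat.Coprime (2 * (i + P0.factorial) ^ 2 + 2 * (i + P0.factorial) + 1) P0.factorial ↔
      Nat.Coprime (2 * i ^ 2 + 2 * i + 1) P0.factorial := by
  have h : 2 * (i + P0.factorial) ^ 2 + 2 * (i + P0.factorial) + 1 =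
      (2 * i ^ 2 + 2 * i + 1) + P0.factorial * (4 * i + 2 * P0.factorial + 2) := by ring
  rw [h]
  rw [mul_comm P0.factorial]
  exact Nat.coprime_add_mul_right_left _ _ _

/-- LINECERT: the rough line certificate -/
theorem lineCert (q : ℕ) (hq : 0 < q) (a b : ℤ) (hab : Odd q ∨ Odd (a + b)) (P0 : ℕ) :
    ∃ N : ℕ, ∀ X : ℕ → ZMod q, ∃ i k : ℕ, 0 < k ∧ i + k ≤ N ∧ Squarefree k ∧
      k ∣ 2 * i ^ 2 + 2 * i + 1 ∧ Nat.Coprime (2 * i ^ 2 + 2 * i + 1) P0.factorial ∧
      Nat.Coprime (2 * (i + k) ^ 2 + 2 * (i + k) + 1) P0.factorial ∧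
      (X i + X (i + k) = a + 2 * (ArithmeticFunction.cardFactors k : ZMod q) ∨
        X i + X (i + k) = b + 2 * (ArithmeticFunction.cardFactors k : ZMod q)) := by
  classical
  have : NeZero q := ⟨hq.ne'⟩
  have hnat : ∀ z : ZMod q, ((z.val : ℕ) : ZMod q) = z := fun z => ZMod.natCast_zmod_val z
  have hTT : ∀ c : ZMod q, ∃ j : ℕ, c - 2 * (j : ZMod q) ∈ ({(a : ZMod q), (b : ZMod q)} : Set (ZMod q)) := by
    intro c
    rcases hab with hodd | hodd
    · -- 2 is invertible
      obtain ⟨m, hm⟩ := hodd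
      refine ⟨(((m : ZMod q) + 1) * (c - a)).val, Or.inl ?_⟩
      rw [hnat]
      have hq0 : ((2 * m + 1 : ℕ) : ZMod q) = 0 := by
        rw [← hm]
        exact ZMod.natCast_self q
      push_cast at hq0
      linear_combination -(c - a) * hq0
    · have hc : ((c.val : ℤ) : ZMod q) = c := by
        push_cast
        exact hnat c
      obtain ⟨m, hm⟩ := hodd
      rcases Int.even_or_odd ((c.val : ℤ) - a) with ⟨s, hs⟩ | ⟨s, hs⟩
      · refine ⟨((s : ℤ) : ZMod q).val, Or.inl ?_⟩
        rw [hnat]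
        have h1 : (((c.val : ℤ) - a : ℤ) : ZMod q) = ((s + s : ℤ) : ZMod q) := by rw [hs]
        push_cast at h1
        rw [hnat] at h1
        linear_combination h1
      · have hs' : (c.val : ℤ) - b = 2 * (s + a - m) := by omega
        refine ⟨((s + a - m : ℤ) : ZMod q).val, Or.inr ?_⟩
        rw [hnat]
        have h1 : (((c.val : ℤ) - b : ℤ) : ZMod q) = ((2 * (s + a - m) : ℤ) : ZMod q) := by rw [hs']
        push_cast at h1
        rw [hnat] at h1
        simp only [Set.mem_singleton_iff]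
        push_cast
        linear_combination h1
  obtain ⟨K0, I0, ε0, hε, hD⟩ := thmD q ({(a : ZMod q), (b : ZMod q)} : Set (ZMod q)) hTT
    P0.factorial (Nat.factorial_pos P0)
  have hr : ∀ p : ℕ, ∃ r : ℕ, p.Prime → p % 4 = 1 → p ∣ 2 * r ^ 2 + 2 * r + 1 := by
    intro p
    by_cases hp : p.Prime ∧ p % 4 = 1
    · obtain ⟨r, hr⟩ := lc_root p hp.1 hp.2
      exact ⟨r, fun _ _ => hr⟩
    · exact ⟨0, fun h h' => absurd ⟨h, h'⟩ hp⟩
  choose ρ hρ using hr
  set I : ℕ := max I0 1 with hI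
  have hI1 : 1 ≤ I := le_max_right _ _
  refine ⟨2 * I + K0, fun X => ?_⟩
  have hcard := hD I (le_max_left _ _) X X
    (fun i => Nat.Coprime (2 * i ^ 2 + 2 * i + 1) P0.factorial)
    (fun i => Nat.Coprime (2 * i ^ 2 + 2 * i + 1) P0.factorial) ρ
    (fun i => lc_periodic P0 i) (fun i => lc_periodic P0 i) (fun h _ => lc_exists P0 h)
  have hpos : (0 : ℝ) < ε0 * I := mul_pos hε (by exact_mod_cast hI1)
  have hcard' := lt_of_lt_of_le hpos hcard
  have hc2 := Nat.cast_pos.mp hcard'
  obtain ⟨i, hi⟩ := Finset.card_pos.mp hc2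
  obtain ⟨hi1, hA, k, hkK, hsf, hpf, hA', hin⟩ := (@Finset.mem_filter _ _ (_) _ _).mp hi
  obtain ⟨_, hi2⟩ := Finset.mem_Ico.mp hi1
  have hk0 : k ≠ 0 := hsf.ne_zero
  refine ⟨i, k, Nat.pos_of_ne_zero hk0, by omega, hsf, ?_, hA, hA', ?_⟩
  · rw [← Nat.prod_primeFactors_of_squarefree hsf]
    refine Finset.prod_primes_dvd _ (fun p hp => (Nat.prime_of_mem_primeFactors hp).prime) ?_
    intro p hp
    obtain ⟨h4, _, hmod⟩ := hpf p hp
    have h2 : 2 * i ^ 2 + 2 * i + 1 ≡ 2 * (ρ p) ^ 2 + 2 * (ρ p) + 1 [MOD p] := by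
      gcongr
    exact (h2.dvd_iff (dvd_refl p)).mpr (hρ p (Nat.prime_of_mem_primeFactors hp) h4)
  · have hΩ : ArithmeticFunction.cardFactors k = k.primeFactors.card := by
      rw [← (ArithmeticFunction.cardDistinctFactors_eq_cardFactors_iff_squarefree hk0).mpr hsf,
        ArithmeticFunction.cardDistinctFactors_apply]
      rfl
    rw [hΩ]
    rcases hin with h | h
    · left
      linear_combination h
    · right
      have h' : X i + X (i + k) - 2 * (k.primeFactors.card : ZMod q) = b := h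
      linear_combination h'

end Pool.Agent.OmQ
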