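import Mathlib
import Pool.Agent.Lib_MP_c1fc80_nt.LargeSieve

/-!
# MP_f1a94e_nt: Omega(m^2+1) modulo q -- definitions for the one dimensional certificate
-/

set_option autoImplicit false

namespace Pool.Agent.OmQ

open Finset

/-- distance to the nearest integer -/
noncomputable def nrm (x : ℝ) : ℝ := |x - round x|

/-- average over `ZMod N` -/
noncomputable def Av {N : ℕ} [NeZero N] (f : ZMod N → ℝ) : ℝ := (∑ i, f i) / N

open Classical in
/-- indicator of a proposition -/
noncomputable def ind (P : Prop) : ℝ := if P then 1 else 0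

/-- `i` lies in the prescribed residue class modulo every prime factor of `k` -/
def Dv {N : ℕ} (ρ : ℕ → ℕ) (k : ℕ) (i : ZMod N) : Prop := ∀ p ∈ k.primeFactors, i.val ≡ ρ p [MOD p]

/-- the primes `1 mod 4` in `[2^n, 2^(n+1))` -/
def PP (n : ℕ) : Finset ℕ := (Ico (2 ^ n) (2 ^ (n + 1))).filter (fun p => p.Prime ∧ p % 4 = 1)

/-- `b` times the product of the primes `1 mod 4` below `2^n` not dividing `b` -/
def QQ (b n : ℕ) : ℕ :=
  b * ∏ p ∈ (range (2 ^ n)).filter (fun p => p.Prime ∧ p % 4 = 1 ∧ ¬ p ∣ b), p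

open Classical in
/-- entropy of a random variable on a finite probability space with uniform measure -/
noncomputable def ent {Ω β : Type} [Fintype Ω] (Z : Ω → β) : ℝ :=
  Real.log (Fintype.card Ω) -
    (∑ i, Real.log ((univ.filter (fun j => Z j = Z i)).card : ℝ)) / Fintype.card Ω

/-- the block of length `H` at `i` -/
def block {N : ℕ} {α : Type} (X : ZMod N → α) (H : ℕ) (i : ZMod N) : Fin H → α :=
  fun j => X (i + ((j : ℕ) : ZMod N))

/-- entropy of the block of length `H`, conditional on `i mod m` -/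
noncomputable def hb {N : ℕ} [NeZero N] {α : Type} (X : ZMod N → α) (H m : ℕ) : ℝ :=
  ent (fun i : ZMod N => (block X H i, i.val % m)) - ent (fun i : ZMod N => i.val % m)

/-- average of `g` over `T` steps of length `W` -/
noncomputable def avW {N : ℕ} (W T : ℕ) (g : ZMod N → ℝ) (i : ZMod N) : ℝ :=
  (∑ r ∈ range T, g (i + ((W * r : ℕ) : ZMod N))) / T

/-- the multiplier of `avW` -/
noncomputable def mlt (W T : ℕ) (θ : ℝ) : ℂ := (∑ r ∈ range T, LibLS.e ((W * r : ℕ) * θ)) / T

lemma ind_nonneg (P : Prop) : 0 ≤ ind P := by unfold ind; split <;> norm_num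

lemma ind_le_one (P : Prop) : ind P ≤ 1 := by unfold ind; split <;> norm_num

lemma ind_mul (P Q : Prop) : ind P * ind Q = ind (P ∧ Q) := by
  unfold ind
  by_cases h1 : P <;> by_cases h2 : Q <;> simp [h1, h2]

lemma ind_of {P : Prop} (h : P) : ind P = 1 := by simp [ind, h]

lemma ind_not {P : Prop} (h : ¬ P) : ind P = 0 := by simp [ind, h]

lemma ind_mono {P Q : Prop} (h : P → Q) : ind P ≤ ind Q := by
  unfold ind
  by_cases h1 : P
  · simp [h1, h h1]
  · by_cases h2 : Q <;> simp [h1, h2]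

variable {N : ℕ} [NeZero N]

lemma Npos : (0 : ℝ) < N := by exact_mod_cast Nat.pos_of_ne_zero (NeZero.ne N)

lemma Av_shift (f : ZMod N → ℝ) (s : ZMod N) : Av (fun i => f (i + s)) = Av f := by
  unfold Av
  congr 1
  exact Equiv.sum_comp (Equiv.addRight s) f

lemma Av_mono {f g : ZMod N → ℝ} (h : ∀ i, f i ≤ g i) : Av f ≤ Av g := by
  unfold Av
  gcongr with i _
  exact h i

lemma Av_add (f g : ZMod N → ℝ) : Av (fun i => f i + g i) = Av f + Av g := by
  unfold Av
  rw [Finset.sum_add_distrib, add_div]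

lemma Av_sub (f g : ZMod N → ℝ) : Av (fun i => f i - g i) = Av f - Av g := by
  unfold Av
  rw [Finset.sum_sub_distrib, sub_div]

lemma Av_const_mul (c : ℝ) (f : ZMod N → ℝ) : Av (fun i => c * f i) = c * Av f := by
  unfold Av
  rw [← Finset.mul_sum, mul_div_assoc]

lemma Av_mul_const (c : ℝ) (f : ZMod N → ℝ) : Av (fun i => f i * c) = Av f * c := by
  unfold Av
  rw [← Finset.sum_mul]
  ring

lemma Av_sum {ι : Type*} (S : Finset ι) (f : ι → ZMod N → ℝ) :
    Av (fun i => ∑ s ∈ S, f s i) = ∑ s ∈ S, Av (f s) := by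
  unfold Av
  rw [Finset.sum_comm, Finset.sum_div]

lemma Av_const (c : ℝ) : Av (fun _ : ZMod N => c) = c := by
  unfold Av
  rw [Finset.sum_const, Finset.card_univ, ZMod.card, nsmul_eq_mul]
  have := @Npos N _
  field_simp

lemma Av_nonneg {f : ZMod N → ℝ} (h : ∀ i, 0 ≤ f i) : 0 ≤ Av f := by
  unfold Av
  have := @Npos N _
  exact div_nonneg (Finset.sum_nonneg fun i _ => h i) this.le

lemma abs_Av_le (f : ZMod N → ℝ) : |Av f| ≤ Av (fun i => |f i|) := by
  unfold Av
  have := @Npos N _
  rw [abs_div, abs_of_pos this]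
  gcongr
  exact Finset.abs_sum_le_sum_abs _ _

/-- Cauchy and Schwarz for averages -/
lemma Av_mul_le (f g : ZMod N → ℝ) :
    Av (fun i => f i * g i) ≤ Real.sqrt (Av (fun i => f i ^ 2)) * Real.sqrt (Av (fun i => g i ^ 2)) := by
  have hN := @Npos N _
  have h := Finset.sum_mul_sq_le_sq_mul_sq Finset.univ f g
  rw [← Real.sqrt_mul (Av_nonneg fun i => sq_nonneg _)]
  apply Real.le_sqrt_of_sq_le
  unfold Av
  rw [div_pow, div_mul_div_comm, ← sq]
  gcongr

end Pool.Agent.OmQ
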